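import Pool.Agent.TRP.Stmts

/-!
# Squad TRP (MP_8b7919_co), module CNT: arrangements with prescribed letters
-/

set_option autoImplicit false

namespace TRP

open Pool.Agent.Helper85.PowerFree

namespace CNT_

theorem nc_succ (τ : ℕ → ℕ) (t c : ℕ) (h : τ t = c) : nc τ 0 (t + 1) c = nc τ 0 t c + 1 := by
  unfold nc
  rw [Finset.range_add_one, Finset.filter_insert, if_pos (by rw [zero_add]; exact h),
    Finset.card_insert_of_notMem (by simp)]

theorem nc_mono (τ : ℕ → ℕ) (s t c : ℕ) (h : s ≤ t) : nc τ 0 s c ≤ nc τ 0 t c := by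
  unfold nc
  exact Finset.card_le_card (Finset.filter_subset_filter _ (Finset.range_mono h))

theorem nc_inj (τ : ℕ → ℕ) (c s t : ℕ) (hs : τ s = c) (ht : τ t = c)
    (h : nc τ 0 s c = nc τ 0 t c) : s = t := by
  rcases lt_trichotomy s t with h1 | h1 | h1
  · have h2 := nc_mono τ (s + 1) t c h1
    rw [nc_succ τ s c hs] at h2
    omega
  · exact h1
  · have h2 := nc_mono τ (t + 1) s c h1
    rw [nc_succ τ t c ht] at h2
    omega

/-- the places that are fixed in the class `c` -/
def TT (τ : ℕ → ℕ) (o t c : ℕ) : Finset (Fin 12) :=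
  ((Finset.range t).filter fun j => τ (o + j) = c).image fun j =>
    Fin.ofNat 12 (nc τ 0 (o + j) c)

theorem TT_card (τ : ℕ → ℕ) (L o t c : ℕ) (h12 : nc τ 0 L c ≤ 12) (hot : o + t ≤ L) :
    (TT τ o t c).card = nc τ o t c := by
  unfold TT
  rw [Finset.card_image_of_injOn]
  · rfl
  · intro i hi j hj hij
    rw [Finset.mem_coe, Finset.mem_filter, Finset.mem_range] at hi hj
    have hlt : ∀ j, j < t → τ (o + j) = c → nc τ 0 (o + j) c < 12 := by
      intro j hj1 hj2
      have h2 := nc_mono τ (o + j + 1) L c (by omega)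
      rw [nc_succ τ (o + j) c hj2] at h2
      omega
    have h1 := hlt i hi.1 hi.2
    have h2 := hlt j hj.1 hj.2
    have h3 := congrArg Fin.val hij
    simp only [Fin.val_ofNat] at h3
    rw [Nat.mod_eq_of_lt h1, Nat.mod_eq_of_lt h2] at h3
    have := nc_inj τ c (o + i) (o + j) hi.2 hj.2 h3
    omega

end CNT_

open CNT_ in
theorem cnt_proof (hPRM : Stmt_PRM) : Stmt_CNT := by
  classical
  intro S _ τ L e g o t hinj hτ h12 hot
  generalize hAs : (Finset.univ.filter fun σ : Fin 3 → Equiv.Perm (Fin 12) =>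
      ∀ j, o ≤ j → j < o + t → fil τ e σ j = g j) = As
  rcases Finset.eq_empty_or_nonempty As with h0 | ⟨σ0, hσ0⟩
  · rw [h0]
    simp
  have hmem : ∀ σ, σ ∈ As ↔ ∀ j, o ≤ j → j < o + t → fil τ e σ j = g j := by
    intro σ
    rw [← hAs, Finset.mem_filter]
    simp only [Finset.mem_univ, true_and]
  have hsub : As ⊆ Fintype.piFinset (fun c : Fin 3 =>
      Finset.univ.filter fun π : Equiv.Perm (Fin 12) => ∀ i ∈ TT τ o t c, π i = σ0 c i) := by
    intro σ hσ
    rw [Fintype.mem_piFinset]
    intro c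
    rw [Finset.mem_filter]
    refine ⟨Finset.mem_univ (σ c), fun i hi => ?_⟩
    unfold TT at hi
    rw [Finset.mem_image] at hi
    obtain ⟨j, hj, rfl⟩ := hi
    rw [Finset.mem_filter, Finset.mem_range] at hj
    have h1 := (hmem σ).1 hσ (o + j) (by omega) (by omega)
    have h2 := (hmem σ0).1 hσ0 (o + j) (by omega) (by omega)
    unfold fil at h1 h2
    rw [hj.2] at h1 h2
    have hc : Fin.ofNat 3 (c : ℕ) = c := by
      apply Fin.ext
      simp only [Fin.val_ofNat]
      exact Nat.mod_eq_of_lt c.2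
    rw [hc] at h1 h2
    exact hinj c c.2 (h1.trans h2.symm)
  refine (Finset.card_le_card hsub).trans ?_
  rw [Fintype.card_piFinset]
  unfold PN
  rw [Finset.prod_range (fun c => (12 - nc τ o t c).factorial)]
  apply Finset.prod_le_prod'
  intro c _
  have h1 := hPRM 12 (TT τ o t c) (fun i => σ0 c i)
  rw [TT_card τ L o t c (h12 c c.2) hot] at h1
  exact h1

end TRP
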