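import Pool.Agent.TRP.Stmts

set_option autoImplicit false

namespace TRP

open Pool.Agent.Helper85.PowerFree

namespace FIT_

lemma cntT : ∀ c < 3, ((Finset.range 36).filter fun o => pT o = c).card = 12 := by
  decide

lemma cntR : ∀ c < 3, ((Finset.range 36).filter fun o => pR o = c).card = 12 := by
  decide

lemma cnt (pt : ℕ → ℕ) (h : pt = pT ∨ pt = pR) :
    ∀ c < 3, ((Finset.range 36).filter fun o => pt o = c).card = 12 := by
  rcases h with h | h
  · rw [h]; exact cntT
  · rw [h]; exact cntR

lemma lt3 (pt : ℕ → ℕ) (h : pt = pT ∨ pt = pR) (o : ℕ) : pt o < 3 := by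
  rcases h with h | h
  · rw [h]; exact Nat.mod_lt _ (by norm_num)
  · rw [h]; exact Nat.mod_lt _ (by norm_num)

end FIT_

open FIT_ in
theorem fit_proof : Stmt_FIT := by
  intro S _ lam w x r A v pt hA hSt hpt
  obtain ⟨-, -, hv, hinj, -, -⟩ := hSt
  have hlt : ∀ c ∈ A, v c + 36 * r - x < 36 * r := by
    intro c hc
    have := hv c hc
    omega
  have hui : Set.InjOn (fun c => v c + 36 * r - x) (A : Set S) := by
    intro a ha b hb hab
    apply hinj ha hb
    have h1 := hv a ha
    have h2 := hv b hb
    simp only at hab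
    omega
  have himg : A.image (fun c => v c + 36 * r - x) = Finset.range (36 * r) := by
    apply Finset.eq_of_subset_of_card_le
    · intro n hn
      rw [Finset.mem_image] at hn
      obtain ⟨c, hc, rfl⟩ := hn
      exact Finset.mem_range.2 (hlt c hc)
    · rw [Finset.card_image_of_injOn hui, Finset.card_range, hA]
  refine ⟨fun c hc => ⟨?_, lt3 pt hpt _⟩, fun i hi c hc => ?_⟩
  · have := hlt c hc
    show (v c + 36 * r - x) / 36 < r
    omega
  · have hui' : Set.InjOn (fun c => v c + 36 * r - x)
        ((A.filter fun a => ((v a + 36 * r - x) / 36, pt ((v a + 36 * r - x) % 36)) = (i, c) :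
          Finset S) : Set S) := by
      apply hui.mono
      intro a ha
      exact Finset.mem_coe.2 (Finset.mem_filter.1 (Finset.mem_coe.1 ha)).1
    rw [← Finset.card_image_of_injOn hui']
    have e : (A.filter fun a => ((v a + 36 * r - x) / 36, pt ((v a + 36 * r - x) % 36)) =
        (i, c)).image (fun c => v c + 36 * r - x) =
        ((Finset.range 36).filter fun o => pt o = c).image (fun o => 36 * i + o) := by
      ext n
      simp only [Finset.mem_image, Finset.mem_filter, Finset.mem_range, Prod.mk.injEq]
      constructor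
      · rintro ⟨a, ⟨ha, h1, h2⟩, rfl⟩
        refine ⟨(v a + 36 * r - x) % 36, ⟨Nat.mod_lt _ (by norm_num), h2⟩, ?_⟩
        omega
      · rintro ⟨o, ⟨ho, h2⟩, rfl⟩
        have h3 : 36 * i + o ∈ A.image (fun c => v c + 36 * r - x) := by
          rw [himg, Finset.mem_range]
          omega
        rw [Finset.mem_image] at h3
        obtain ⟨a, ha, h4⟩ := h3
        refine ⟨a, ⟨ha, ?_, ?_⟩, h4⟩
        · rw [h4]; omega
        · rw [h4]
          have : (36 * i + o) % 36 = o := by omega
          rw [this, h2]
    rw [e, Finset.card_image_of_injective _ (fun a b h => by simpa using h)]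
    exact cnt pt hpt c hc

end TRP
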