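import Pool.Agent.TRP.Stmts

/-!
# Squad TRP (MP_8b7919_co), module FLA: at most `⌊1/(α-1)⌋ + 1` letters, the language is finite
-/

set_option autoImplicit false

namespace TRP

open Pool.Agent.Helper85.PowerFree

namespace FLA_

theorem finite_language {n : ℕ} {lam : ℚ} (hlam : 0 < lam) (hn : n ≤ ⌊1 / lam⌋₊ + 1) :
    ∃ N : ℕ, ∀ z : List (Fin n), N ≤ z.length → ¬ NB lam z := by
  obtain ⟨q, hq⟩ : ∃ q, q = ⌊1 / lam⌋₊ := ⟨_, rfl⟩
  rw [← hq] at hn
  have hsmall : ∀ p : ℕ, p ≤ q → lam * p ≤ 1 := by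
    intro p hp
    have h1 : (p : ℚ) ≤ 1 / lam := by
      have h2 : (q : ℚ) ≤ 1 / lam := by
        rw [hq]; exact Nat.floor_le (by positivity)
      have h3 : (p : ℚ) ≤ q := by exact_mod_cast hp
      linarith
    rw [le_div_iff₀ hlam] at h1
    linarith
  refine ⟨q + 1 + ⌈lam * ((q + 1 : ℕ) : ℚ)⌉₊, fun z hz hNB => ?_⟩
  obtain ⟨j, hj, hne⟩ := hNB 0 (q + 1) ⌈lam * ((q + 1 : ℕ) : ℚ)⌉₊ (by omega) (Nat.le_ceil _)
    (by omega)
  apply hne
  have hlt : ∀ a : Fin (q + 2), j + a.val < z.length := fun a => by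
    have := a.isLt; omega
  have hnotinj : ¬ Function.Injective (fun a : Fin (q + 2) => z[j + a.val]'(hlt a)) := by
    intro hinj
    have := Fintype.card_le_of_injective _ hinj
    simp only [Fintype.card_fin] at this
    omega
  rw [Function.Injective] at hnotinj
  push Not at hnotinj
  obtain ⟨a, b, hab, hne'⟩ := hnotinj
  have key : ∀ a b : Fin (q + 2), a.val < b.val → z[j + a.val]'(hlt a) = z[j + b.val]'(hlt b) →
      a.val = 0 ∧ b.val = q + 1 := by
    intro a b hlt' hab'
    by_contra hcon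
    have hp : b.val - a.val ≤ q := by
      have := b.isLt; omega
    obtain ⟨i, hi, hne2⟩ := hNB (j + a.val) (b.val - a.val) 1 (by omega)
      (by simpa using hsmall _ hp) (by have := hlt b; omega)
    have hi0 : i = 0 := by omega
    subst hi0
    apply hne2
    have e1 : j + a.val + 0 + (b.val - a.val) = j + b.val := by omega
    rw [e1, Nat.add_zero, List.getElem?_eq_getElem (hlt a), List.getElem?_eq_getElem (hlt b), hab']
  rcases lt_trichotomy a.val b.val with h | h | h
  · obtain ⟨h1, h2⟩ := key a b h hab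
    simp only [h1, h2, Nat.add_zero] at hab
    rw [Nat.zero_add, List.getElem?_eq_getElem (by omega : j < z.length),
      List.getElem?_eq_getElem (by omega : j + (q + 1) < z.length), hab]
  · exact absurd (Fin.ext h) hne'
  · obtain ⟨h1, h2⟩ := key b a h hab.symm
    simp only [h1, h2, Nat.add_zero] at hab
    rw [Nat.zero_add, List.getElem?_eq_getElem (by omega : j < z.length),
      List.getElem?_eq_getElem (by omega : j + (q + 1) < z.length), ← hab]

end FLA_

end TRP
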