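import Pool.Agent.TRP.Stmts

/-!
Squad TRP, module GRP: one group of 36 letters.
-/

set_option autoImplicit false

namespace TRP

open Pool.Agent.Helper85.PowerFree

namespace GRP_

theorem pot_congr {S : Type} [DecidableEq S] (lam : ℚ) (w w' : ℕ → S) (m : ℕ)
    (h : ∀ i, i < m → w i = w' i) : pot lam w m = pot lam w' m := by
  unfold pot
  apply Finset.sum_congr rfl
  intro j _
  rw [mu_congr w w' (j + 1) m h]

theorem pC_unit (c o : ℕ) (ho : o < 12) : pC (12 * c + o) = c := by
  unfold pC; omega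

/-- the invariant after `c` units -/
structure Inv {S : Type} [DecidableEq S] (lam : ℚ) (w : ℕ → S) (x : ℕ) (K : ℕ → Finset S)
    (c : ℕ) (u : ℕ → S) : Prop where
  agr : ∀ i < x, u i = w i
  good : Good lam u (x + 12 * c)
  pt : pot lam u (x + 12 * c) < 1
  mem : ∀ o < 12 * c, u (x + o) ∈ K (o / 12)
  inj : Set.InjOn (fun o => u (x + o)) (Set.Iio (12 * c))

theorem step (hNUM : Stmt_NUM) (hSLT : Stmt_SLT) {S : Type} [DecidableEq S] (lam : ℚ)
    (w : ℕ → S) (x : ℕ) (K : ℕ → Finset S) (hlam : 0 < lam) (hq : 36 ≤ ⌊1 / lam⌋₊)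
    (hcard : ∀ c < 3, (K c).card = 12)
    (hdis : ∀ c < 3, ∀ c' < 3, c ≠ c' → Disjoint (K c) (K c'))
    (hfr : ∀ o < 36, ∀ c ∈ K (pC o), ∀ p, o < p → p ≤ ⌊1 / lam⌋₊ → p ≤ x + o →
      w (x + o - p) ≠ c)
    (hpr : ∀ o, o + 1 < 36 → ∀ p, ex lam p = 2 → p ≤ x + o → w (x + o - p) ∈ K (pC o) →
      w (x + o + 1 - p) ∉ K (pC (o + 1)))
    (c : ℕ) (hc : c < 3) (u : ℕ → S) (hu : Inv lam w x K c u) :
    ∃ u', Inv lam w x K (c + 1) u' := by
  obtain ⟨f, hf1, hf2, hf3, hf4⟩ := hSLT S lam u (x + 12 * c) 12 pU (fun _ => K c) hlam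
    (by omega) (by norm_num) hu.good hu.pt hNUM.1 (fun _ _ => hcard c hc)
    (fun o _ o' _ h => absurd rfl h)
    (by
      intro o ho s hs p hp1 hp2 hp3 heq
      by_cases hy : x + 12 * c + o - p < x
      · rw [hu.agr _ hy] at heq
        have h1 := hfr (12 * c + o) (by omega) s (by rw [pC_unit c o ho]; exact hs) p
          (by omega) hp2 (by omega)
        apply h1
        rw [← heq, add_assoc]
      · have h1 := hu.mem (x + 12 * c + o - p - x) (by omega)
        rw [show x + (x + 12 * c + o - p - x) = x + 12 * c + o - p by omega, heq] at h1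
        have h2 := hdis c hc ((x + 12 * c + o - p - x) / 12) (by omega) (by omega)
        exact Finset.disjoint_left.1 h2 hs h1)
    (by
      intro o ho p hp1 hp2 hm1 hm2
      have hp : ⌊1 / lam⌋₊ < p := by
        by_contra hcon
        have := (ex_le_one_iff hlam p).2 (not_lt.1 hcon)
        omega
      rw [hu.agr _ (by omega)] at hm1 hm2
      have h1 := hpr (12 * c + o) (by omega) p hp1 (by omega)
      rw [pC_unit c o (by omega), show 12 * c + o + 1 = 12 * c + (o + 1) by ring,
        pC_unit c (o + 1) ho] at h1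
      refine h1 ?_ ?_
      · rw [show x + (12 * c + o) - p = x + 12 * c + o - p by omega]; exact hm1
      · rw [show x + (12 * c + o) + 1 - p = x + 12 * c + o + 1 - p by omega]; exact hm2)
  refine ⟨ow u (x + 12 * c) 12 f, ?_, ?_, ?_, ?_, ?_⟩
  · intro i hi
    unfold ow
    rw [if_neg (by omega)]
    exact hu.agr i hi
  · exact hf3
  · exact hf4
  · intro o ho
    unfold ow
    by_cases h : o < 12 * c
    · rw [if_neg (by omega)]
      exact hu.mem o h
    · rw [if_pos (by omega)]
      have h1 := hf1 (x + o - (x + 12 * c)) (by omega)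
      rw [show o / 12 = c by omega]
      exact h1
  · intro o ho o' ho' heq
    simp only [Set.mem_Iio] at ho ho'
    simp only [ow] at heq
    have hmix : ∀ a b, a < 12 * c → ¬ b < 12 * c → b < 12 * (c + 1) →
        u (x + a) = f (x + b - (x + 12 * c)) → False := by
      intro a b ha hb hb' he
      have h1 := hu.mem a ha
      have h2 := hf1 (x + b - (x + 12 * c)) (by omega)
      rw [he] at h1
      exact Finset.disjoint_left.1 (hdis (a / 12) (by omega) c hc (by omega)) h1 h2
    by_cases h : o < 12 * c <;> by_cases h' : o' < 12 * c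
    · rw [if_neg (by omega), if_neg (by omega)] at heq
      exact hu.inj h h' heq
    · rw [if_neg (by omega), if_pos (by omega)] at heq
      exact (hmix o o' h h' ho' heq).elim
    · rw [if_pos (by omega), if_neg (by omega)] at heq
      exact (hmix o' o h' h ho heq.symm).elim
    · rw [if_pos (by omega), if_pos (by omega)] at heq
      have h1 := hf2 (show x + o - (x + 12 * c) ∈ Set.Iio 12 by simp only [Set.mem_Iio]; omega)
        (show x + o' - (x + 12 * c) ∈ Set.Iio 12 by simp only [Set.mem_Iio]; omega) heq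
      omega

end GRP_

open GRP_ in
theorem grp_proof (hNUM : Stmt_NUM) (hSLT : Stmt_SLT) : Stmt_GRP := by
  intro S _ lam w x τ K hlam hq hgood hpot hτ hcard hdis hfr hpr
  have main : ∀ τ : ℕ → ℕ, Num τ 36 →
      (∀ o < 36, ∀ c ∈ K (τ o), ∀ p, o < p → p ≤ ⌊1 / lam⌋₊ → p ≤ x + o →
        w (x + o - p) ≠ c) →
      (∀ o, o + 1 < 36 → ∀ p, ex lam p = 2 → p ≤ x + o → w (x + o - p) ∈ K (τ o) →
        w (x + o + 1 - p) ∉ K (τ (o + 1))) →
      ∃ f : ℕ → S, (∀ o < 36, f o ∈ K (τ o)) ∧ Set.InjOn f (Set.Iio 36) ∧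
        Good lam (ow w x 36 f) (x + 36) ∧ pot lam (ow w x 36 f) (x + 36) < 1 := by
    intro τ hN h1 h2
    exact hSLT S lam w x 36 τ K hlam hq (by norm_num) hgood hpot hN hcard
      (fun o ho o' ho' h => hdis _ (hN.cls o ho) _ (hN.cls o' ho') h) h1 h2
  rcases hτ with h | h | h | h
  · subst h
    have h0 : Inv lam w x K 0 w :=
      ⟨fun _ _ => rfl, by simpa using hgood, by simpa using hpot, fun o ho => by omega,
        fun o ho => by simp at ho⟩
    obtain ⟨u1, h1⟩ := step hNUM hSLT lam w x K hlam hq hcard hdis hfr hpr 0 (by norm_num) w h0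
    obtain ⟨u2, h2⟩ := step hNUM hSLT lam w x K hlam hq hcard hdis hfr hpr 1 (by norm_num) u1 h1
    obtain ⟨u3, h3⟩ := step hNUM hSLT lam w x K hlam hq hcard hdis hfr hpr 2 (by norm_num) u2 h2
    have hag : ∀ i, i < x + 36 → u3 i = ow w x 36 (fun o => u3 (x + o)) i := by
      intro i hi
      unfold ow
      by_cases hx : x ≤ i
      · rw [if_pos ⟨hx, hi⟩]
        congr 1
        omega
      · rw [if_neg (by omega)]
        exact h3.agr i (by omega)
    refine ⟨fun o => u3 (x + o), ?_, ?_, ?_, ?_⟩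
    · intro o ho
      exact h3.mem o (by omega)
    · exact h3.inj
    · exact h3.good.congr hag
    · rw [← pot_congr lam u3 _ (x + 36) hag]
      exact h3.pt
  · subst h; exact main pT hNUM.2.1 hfr hpr
  · subst h; exact main pR hNUM.2.2.1 hfr hpr
  · subst h; exact main pQ hNUM.2.2.2 hfr hpr

end TRP
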