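import Pool.Agent.TRP.Stmts

/-!
# Squad TRP, module INI: the initial state
-/

set_option autoImplicit false

namespace TRP

open Pool.Agent.Helper85.PowerFree

namespace INI_

variable {S : Type} [DecidableEq S]

/-- last occurrence -/
theorem exists_last (w : ℕ → S) (x : ℕ) (c : S) {y : ℕ} (hy : y < x) (hc : w y = c) :
    ∃ l, y ≤ l ∧ l < x ∧ w l = c ∧ ∀ y', l < y' → y' < x → w y' ≠ c := by
  have hP : (fun z => z < x ∧ w z = c) y := ⟨hy, hc⟩
  have hs := Nat.findGreatest_spec (P := fun z => z < x ∧ w z = c) hy.le hP
  refine ⟨Nat.findGreatest (fun z => z < x ∧ w z = c) x, Nat.le_findGreatest hy.le hP, hs.1, hs.2, ?_⟩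
  intro y' h1 h2 h3
  have := Nat.le_findGreatest (P := fun z => z < x ∧ w z = c) h2.le ⟨h2, h3⟩
  omega

theorem exists_key (w : ℕ → S) (x : ℕ) (A : Finset S) : ∃ key : S → ℕ,
    Set.InjOn key (A : Set S) ∧
    (∀ c ∈ A, ∀ y < x, w y = c → (∀ y', y < y' → y' < x → w y' ≠ c) → key c = A.card + y) ∧
    (∀ c ∈ A, A.card ≤ key c → ∃ y < x, w y = c ∧ (∀ y', y < y' → y' < x → w y' ≠ c) ∧
      key c = A.card + y) := by
  classical
  let idx : S → ℕ := fun c => if h : c ∈ A then (A.equivFin ⟨c, h⟩ : ℕ) else 0
  have hidx : ∀ c ∈ A, idx c < A.card := by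
    intro c hc
    simp only [idx, dif_pos hc]
    exact (A.equivFin ⟨c, hc⟩).2
  have hidxinj : ∀ c ∈ A, ∀ d ∈ A, idx c = idx d → c = d := by
    intro c hc d hd h
    simp only [idx, dif_pos hc, dif_pos hd] at h
    have := A.equivFin.injective (Fin.ext h)
    exact congrArg Subtype.val this
  let key : S → ℕ := fun c => if h : ∃ y, y < x ∧ w y = c then
    A.card + (exists_last w x c h.choose_spec.1 h.choose_spec.2).choose else idx c
  have hkey : ∀ c y, y < x → w y = c → (∀ y', y < y' → y' < x → w y' ≠ c) → key c = A.card + y := by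
    intro c y hy hc hl
    have h : ∃ y, y < x ∧ w y = c := ⟨y, hy, hc⟩
    have hs := (exists_last w x c h.choose_spec.1 h.choose_spec.2).choose_spec
    simp only [key, dif_pos h]
    set l := (exists_last w x c h.choose_spec.1 h.choose_spec.2).choose
    obtain ⟨-, h2, h3, h4⟩ := hs
    have : l = y := by
      rcases lt_trichotomy l y with hh | hh | hh
      · exact absurd hc (h4 y hh hy)
      · exact hh
      · exact absurd h3 (hl l hh h2)
    rw [this]
  have hkey2 : ∀ c ∈ A, (¬ ∃ y, y < x ∧ w y = c) → key c = idx c := by
    intro c _ h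
    simp only [key, dif_neg h]
  refine ⟨key, ?_, fun c _ y hy hc hl => hkey c y hy hc hl, ?_⟩
  · intro c hc d hd h
    by_cases h1 : ∃ y, y < x ∧ w y = c
    · obtain ⟨y, hy, hyc⟩ := h1
      obtain ⟨l, -, hl2, hl3, hl4⟩ := exists_last w x c hy hyc
      have e1 := hkey c l hl2 hl3 hl4
      by_cases h2 : ∃ y, y < x ∧ w y = d
      · obtain ⟨z, hz, hzd⟩ := h2
        obtain ⟨k, -, hk2, hk3, hk4⟩ := exists_last w x d hz hzd
        have e2 := hkey d k hk2 hk3 hk4
        have : l = k := by omega
        rw [← hl3, ← hk3, this]
      · have e2 := hkey2 d hd h2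
        have := hidx d hd
        omega
    · have e1 := hkey2 c hc h1
      have hi1 := hidx c hc
      by_cases h2 : ∃ y, y < x ∧ w y = d
      · obtain ⟨z, hz, hzd⟩ := h2
        obtain ⟨k, -, hk2, hk3, hk4⟩ := exists_last w x d hz hzd
        have e2 := hkey d k hk2 hk3 hk4
        omega
      · have e2 := hkey2 d hd h2
        exact hidxinj c hc d hd (by omega)
  · intro c hc hle
    by_cases h1 : ∃ y, y < x ∧ w y = c
    · obtain ⟨y, hy, hyc⟩ := h1
      obtain ⟨l, -, hl2, hl3, hl4⟩ := exists_last w x c hy hyc
      exact ⟨l, hl2, hl3, hl4, hkey c l hl2 hl3 hl4⟩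
    · have e1 := hkey2 c hc h1
      have := hidx c hc
      omega

end INI_

open INI_

theorem ini_proof : Stmt_INI := by
  intro S _ lam w x A hx hgood hpot
  obtain ⟨key, kinj, k1, k2⟩ := exists_key w x A
  set rank : S → ℕ := fun c => (A.filter (fun c' => key c' < key c)).card with hrank
  have hrlt : ∀ c ∈ A, rank c < A.card := by
    intro c hc
    refine Finset.card_lt_card ⟨Finset.filter_subset _ _, fun h => ?_⟩
    have := (Finset.mem_filter.1 (h hc)).2
    exact lt_irrefl _ this
  have hmono : ∀ c ∈ A, ∀ d ∈ A, key c < key d → rank c < rank d := by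
    intro c hc d hd h
    refine Finset.card_lt_card ⟨fun e he => ?_, fun hsub => ?_⟩
    · rw [Finset.mem_filter] at he ⊢
      exact ⟨he.1, he.2.trans h⟩
    · have := (Finset.mem_filter.1 (hsub (Finset.mem_filter.2 ⟨hc, h⟩))).2
      exact lt_irrefl _ this
  refine ⟨fun c => x - A.card + rank c, hgood, hpot, ?_, ?_, ?_, ?_⟩
  · intro c hc
    have := hrlt c hc
    omega
  · intro c hc d hd h
    simp only at h
    have hr : rank c = rank d := by omega
    rcases lt_trichotomy (key c) (key d) with h1 | h1 | h1
    · have := hmono c hc d hd h1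
      omega
    · exact kinj hc hd h1
    · have := hmono d hd c hc h1
      omega
  · intro c hc y hy hyc
    obtain ⟨l, hyl, hl2, hl3, hl4⟩ := exists_last w x c hy hyc
    have hkc := k1 c hc l hl2 hl3 hl4
    -- the letters with larger key
    have hB : (A.filter (fun c' => key c < key c')).card ≤ (Finset.Ioo l x).card := by
      refine Finset.card_le_card_of_injOn (fun c' => key c' - A.card) ?_ ?_
      · intro c' hc'
        rw [Finset.mem_coe, Finset.mem_filter] at hc'
        obtain ⟨y', hy', -, -, hk'⟩ := k2 c' hc'.1 (by omega)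
        rw [Finset.mem_coe, Finset.mem_Ioo]
        change l < key c' - A.card ∧ key c' - A.card < x
        omega
      · intro c' hc' d' hd' h
        rw [Finset.mem_coe, Finset.mem_filter] at hc' hd'
        simp only at h
        refine kinj hc'.1 hd'.1 ?_
        omega
    rw [Nat.card_Ioo] at hB
    have hpart : A.card = rank c + (A.filter (fun c' => key c < key c')).card + 1 := by
      have h1 : A = (A.filter (fun c' => key c' < key c)) ∪ ((A.filter (fun c' => key c < key c')) ∪ {c}) := by
        ext d
        simp only [Finset.mem_union, Finset.mem_filter, Finset.mem_singleton]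
        constructor
        · intro hd
          rcases lt_trichotomy (key d) (key c) with h | h | h
          · exact Or.inl ⟨hd, h⟩
          · exact Or.inr (Or.inr (kinj hd hc h))
          · exact Or.inr (Or.inl ⟨hd, h⟩)
        · rintro (h | h | h)
          · exact h.1
          · exact h.1
          · rw [h]; exact hc
      have h2 : Disjoint (A.filter (fun c' => key c < key c')) {c} := by
        rw [Finset.disjoint_singleton_right, Finset.mem_filter]
        rintro ⟨-, h⟩
        exact lt_irrefl _ h
      have h3 : Disjoint (A.filter (fun c' => key c' < key c))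
          ((A.filter (fun c' => key c < key c')) ∪ {c}) := by
        rw [Finset.disjoint_left]
        intro d hd hd'
        rw [Finset.mem_union, Finset.mem_filter, Finset.mem_singleton] at hd'
        rw [Finset.mem_filter] at hd
        rcases hd' with h | h
        · omega
        · rw [h] at hd
          omega
      conv_lhs => rw [h1]
      rw [Finset.card_union_of_disjoint h3, Finset.card_union_of_disjoint h2, Finset.card_singleton]
      ring
    omega
  · intro y hy ha hb hla hlb
    have e1 := k1 (w y) ha y (by omega) rfl hla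
    have e2 := k1 (w (y + 1)) hb (y + 1) hy rfl hlb
    have hr : rank (w (y + 1)) = rank (w y) + 1 := by
      have h1 : A.filter (fun c' => key c' < key (w (y + 1))) =
          insert (w y) (A.filter (fun c' => key c' < key (w y))) := by
        ext d
        rw [Finset.mem_insert, Finset.mem_filter, Finset.mem_filter]
        constructor
        · rintro ⟨hd, h⟩
          by_cases hk : key d < key (w y)
          · exact Or.inr ⟨hd, hk⟩
          · left
            exact kinj hd ha (by omega)
        · rintro (h | h)
          · rw [h]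
            exact ⟨ha, by omega⟩
          · exact ⟨h.1, by omega⟩
      show (A.filter (fun c' => key c' < key (w (y + 1)))).card = _
      rw [h1, Finset.card_insert_of_notMem]
      rw [Finset.mem_filter]
      rintro ⟨-, h⟩
      exact lt_irrefl _ h
    rw [hr]
    omega

end TRP
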