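import Pool.Agent.TRP.Stmts

/-!
# Squad TRP: module INJ (an arrangement is injective)
-/

set_option autoImplicit false

namespace TRP

open Pool.Agent.Helper85.PowerFree

namespace INJ_

theorem nc_lt (τ : ℕ → ℕ) (c o o' : ℕ) (h : o < o') (hc : τ o = c) : nc τ 0 o c < nc τ 0 o' c := by
  unfold nc
  apply Finset.card_lt_card
  rw [Finset.ssubset_iff_of_subset]
  · refine ⟨o, ?_, ?_⟩
    · simp only [Finset.mem_filter, Finset.mem_range, Nat.zero_add]
      exact ⟨h, hc⟩
    · simp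
  · intro j hj
    simp only [Finset.mem_filter, Finset.mem_range] at hj ⊢
    exact ⟨hj.1.trans h, hj.2⟩

theorem nc_inj (τ : ℕ → ℕ) (c o o' : ℕ) (h1 : τ o = c) (h2 : τ o' = c)
    (h : nc τ 0 o c = nc τ 0 o' c) : o = o' := by
  rcases lt_trichotomy o o' with h3 | h3 | h3
  · exact absurd h (nc_lt τ c o o' h3 h1).ne
  · exact h3
  · exact absurd h (nc_lt τ c o' o h3 h2).ne'

end INJ_

open INJ_ in
theorem inj_proof : Stmt_INJ := by
  intro S _ τ L e σ K he hτ hn hK hd
  have h1 : ∀ o < L, fil τ e σ o ∈ K (τ o) := by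
    intro o ho
    exact hK (τ o) (hτ o ho) _
  refine ⟨h1, ?_⟩
  intro o ho o' ho' heq
  have ho1 : o < L := ho
  have ho2 : o' < L := ho'
  by_cases h : τ o = τ o'
  · have h3 : nc τ 0 o (τ o) < 12 :=
      lt_of_lt_of_le (nc_lt τ (τ o) o L ho1 rfl) (hn _ (hτ o ho1))
    have h4 : nc τ 0 o' (τ o) < 12 :=
      lt_of_lt_of_le (nc_lt τ (τ o) o' L ho2 h.symm) (hn _ (hτ o ho1))
    unfold fil at heq
    rw [← h] at heq
    have h5 := he (τ o) (hτ o ho1) heq
    have h6 := (σ (Fin.ofNat 3 (τ o))).injective h5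
    have h7 := congrArg Fin.val h6
    simp only [Fin.val_ofNat] at h7
    rw [Nat.mod_eq_of_lt h3, Nat.mod_eq_of_lt h4] at h7
    exact nc_inj τ (τ o) o o' rfl h.symm h7
  · exfalso
    have h2 := h1 o ho1
    have h3 := h1 o' ho2
    rw [← heq] at h3
    exact Finset.disjoint_left.1 (hd o ho1 o' ho2 h) h2 h3

end TRP
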