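import Pool.Agent.TRP.Stmts

/-!
Squad TRP, module MET: the meeting of the two sides.
-/

set_option autoImplicit false

namespace TRP

open Pool.Agent.Helper85.PowerFree

theorem met_proof : Stmt_MET := by
  intro S _ lam z X P Y R hlam hL hR0 hlen hzP hzR hbig h3 h2 h1
  have hR : NB lam (R.reverse ++ Y.reverse) := by
    have h := hR0.reverse
    rwa [List.reverse_append] at h
  rw [List.reverse_append]
  intro i p r hp hr hle
  by_contra hcon
  push Not at hcon
  have hp0 : (0 : ℚ) < p := by exact_mod_cast hp
  have hr1 : 1 ≤ r := by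
    by_contra h0
    have h1 : r = 0 := by omega
    rw [h1] at hr
    have : 0 < lam * p := by positivity
    push_cast at hr
    linarith
  set a := X.length with ha
  set M := P.length with hMdef
  set c := Y.length with hc
  have hlenL : (X ++ P).length = a + M := by simp [ha, hMdef]
  have hlenLz : (X ++ P ++ [z]).length = a + M + 1 := by simp [ha, hMdef]; omega
  have hlenR : (R.reverse ++ Y.reverse).length = M + c := by simp [hc, hlen]
  have hle' : i + p + r ≤ a + M + 1 + (M + c) := by
    rw [List.length_append, hlenLz, hlenR] at hle; exact hle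
  have gl : ∀ k, k < a + M →
      (X ++ P ++ [z] ++ (R.reverse ++ Y.reverse))[k]? = (X ++ P)[k]? := by
    intro k hk
    rw [List.getElem?_append_left (by omega), List.getElem?_append_left (by omega)]
  have gz : (X ++ P ++ [z] ++ (R.reverse ++ Y.reverse))[a + M]? = some z := by
    rw [List.getElem?_append_left (by omega), List.getElem?_append_right (by omega), hlenL,
      Nat.sub_self]
    rfl
  have gr : ∀ k, a + M + 1 ≤ k →
      (X ++ P ++ [z] ++ (R.reverse ++ Y.reverse))[k]? =
        (R.reverse ++ Y.reverse)[k - (a + M + 1)]? := by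
    intro k hk
    rw [List.getElem?_append_right (by omega), hlenLz]
  have gP : ∀ k, a ≤ k → k < a + M →
      (X ++ P ++ [z] ++ (R.reverse ++ Y.reverse))[k]? = P[k - a]? := by
    intro k hk hk'
    rw [gl k hk', List.getElem?_append_right (by omega)]
  have gR : ∀ k, a + M + 1 ≤ k → k < a + M + 1 + M →
      (X ++ P ++ [z] ++ (R.reverse ++ Y.reverse))[k]? = R.reverse[k - (a + M + 1)]? := by
    intro k hk hk'
    rw [gr k hk, List.getElem?_append_left (by rw [List.length_reverse]; omega)]
  have hcon' : ∀ s, i ≤ s → s < i + r →
      (X ++ P ++ [z] ++ (R.reverse ++ Y.reverse))[s]? =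
        (X ++ P ++ [z] ++ (R.reverse ++ Y.reverse))[s + p]? := by
    intro s hs hs'
    have h := hcon (s - i) (by omega)
    have e1 : i + (s - i) = s := by omega
    rwa [e1] at h
  have hkey : ∀ s, i ≤ s → s < i + r → a ≤ s → s < a + M → a + M + 1 ≤ s + p →
      s + p < a + M + 1 + M → P[s - a]? = R.reverse[s + p - (a + M + 1)]? := by
    intro s q1 q2 q3 q4 q5 q6
    rw [← gP s q3 q4, ← gR (s + p) q5 q6]
    exact hcon' s q1 q2
  -- three consecutive pairs
  have htri : ∀ s, i ≤ s → s + 2 < i + r → a ≤ s → s + 2 < a + M → a + M + 1 ≤ s + p →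
      s + 2 + p < a + M + 1 + M → False := by
    intro s q1 q2 q3 q4 q5 q6
    refine h3 (s - a) (s + p - (a + M + 1)) (by omega) (by omega) ⟨?_, ?_, ?_⟩
    · exact hkey s q1 (by omega) q3 (by omega) q5 (by omega)
    · have h := hkey (s + 1) (by omega) (by omega) (by omega) (by omega) (by omega) (by omega)
      have e1 : s + 1 - a = s - a + 1 := by omega
      have e2 : s + 1 + p - (a + M + 1) = s + p - (a + M + 1) + 1 := by omega
      rwa [e1, e2] at h
    · have h := hkey (s + 2) (by omega) (by omega) (by omega) (by omega) (by omega) (by omega)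
      have e1 : s + 2 - a = s - a + 2 := by omega
      have e2 : s + 2 + p - (a + M + 1) = s + p - (a + M + 1) + 2 := by omega
      rwa [e1, e2] at h
  by_cases hcA : i + p + r ≤ a + M
  · obtain ⟨j, hj, hne⟩ := hL i p r hp hr (by rw [hlenL]; exact hcA)
    apply hne
    rw [← gl _ (by omega), ← gl _ (by omega)]
    exact hcon j hj
  by_cases hcB : a + M + 1 ≤ i
  · obtain ⟨j, hj, hne⟩ := hR (i - (a + M + 1)) p r hp hr (by rw [hlenR]; omega)
    apply hne
    have h := hcon j hj
    rw [gr _ (by omega), gr _ (by omega)] at h
    have e1 : i + j - (a + M + 1) = i - (a + M + 1) + j := by omega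
    have e2 : i + j + p - (a + M + 1) = i - (a + M + 1) + j + p := by omega
    rwa [e1, e2] at h
  by_cases hpM : p ≤ M
  · by_cases hz2 : i + p ≤ a + M
    · -- the second block contains `z`
      have h := hcon' (a + M - p) (by omega) (by omega)
      have e1 : a + M - p + p = a + M := by omega
      rw [e1, gz, gP _ (by omega) (by omega)] at h
      exact hzP (List.mem_of_getElem? h)
    by_cases hz1 : a + M < i + r
    · -- the first block contains `z`
      have h := hcon' (a + M) (by omega) (by omega)
      rw [gz, gR _ (by omega) (by omega)] at h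
      exact hzR (List.mem_reverse.1 (List.mem_of_getElem? h.symm))
    -- all pairs are in `P × R`
    by_cases hr3 : 3 ≤ r
    · exact htri i le_rfl (by omega) (by omega) (by omega) (by omega) (by omega)
    have hdist : P.length - (i - a) + 1 + (i + p - (a + M + 1)) = p := by
      rw [← hMdef]; omega
    by_cases hr2 : r = 2
    · refine h2 (i - a) (i + p - (a + M + 1)) (by omega) (by omega) ?_ ⟨?_, ?_⟩
      · rw [hMdef, hdist]
        have h5 : lam * p ≤ 2 := by
          rw [hr2] at hr
          exact_mod_cast hr
        have h6 : (1 : ℚ) / lam < ⌊(1 : ℚ) / lam⌋₊ + 1 := Nat.lt_floor_add_one _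
        have h7 : (p : ℚ) < ((2 * ⌊(1 : ℚ) / lam⌋₊ + 2 : ℕ) : ℚ) := by
          have h8 : (p : ℚ) ≤ 2 * (1 / lam) := by
            rw [mul_one_div, le_div_iff₀ hlam]
            linarith
          push_cast
          linarith
        have h9 : p < 2 * ⌊(1 : ℚ) / lam⌋₊ + 2 := by exact_mod_cast h7
        omega
      · exact hkey i le_rfl (by omega) (by omega) (by omega) (by omega) (by omega)
      · have h := hkey (i + 1) (by omega) (by omega) (by omega) (by omega) (by omega)
          (by omega)
        have e1 : i + 1 - a = i - a + 1 := by omega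
        have e2 : i + 1 + p - (a + M + 1) = i + p - (a + M + 1) + 1 := by omega
        rwa [e1, e2] at h
    · have hr1' : r = 1 := by omega
      refine h1 (i - a) (i + p - (a + M + 1)) (by omega) (by omega) ?_ ?_
      · rw [hMdef, hdist]
        have h5 : lam * p ≤ 1 := by
          rw [hr1'] at hr
          exact_mod_cast hr
        apply Nat.le_floor
        rw [le_div_iff₀ hlam]
        linarith
      · exact hkey i le_rfl (by omega) (by omega) (by omega) (by omega) (by omega)
  · have hrbig : a + c + 3 < r := by
      have h1 : (M : ℚ) < p := by exact_mod_cast (not_le.mp hpM)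
      have h2 : lam * M < lam * p := by nlinarith
      have h3 : ((a + c + 3 : ℕ) : ℚ) < r := by linarith
      exact_mod_cast h3
    rcases le_total i a with h | h
    · exact htri a h (by omega) le_rfl (by omega) (by omega) (by omega)
    · exact htri i le_rfl (by omega) h (by omega) (by omega) (by omega)

end TRP
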