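import Pool.Agent.TRP.Stmts

/-!
# Module NXT: the next round, from a state
-/

set_option autoImplicit false

namespace TRP

open Pool.Agent.Helper85.PowerFree

namespace NXT_

/-- `p0` on the left, `p1` on the new round: no common pair -/
lemma nopair {p0 p1 : ℕ → ℕ}
    (h : (p0 = pT ∧ p1 = pC) ∨ (p0 = pC ∧ p1 = pT) ∨ (p0 = pR ∧ p1 = pQ) ∨ (p0 = pQ ∧ p1 = pR))
    (o o' : ℕ) (ho : o + 1 < 36) (ho' : o' + 1 < 36) :
    ¬ (p1 o = p0 o' ∧ p1 (o + 1) = p0 (o' + 1)) := by
  rintro ⟨h1, h2⟩
  rcases h with ⟨rfl, rfl⟩ | ⟨rfl, rfl⟩ | ⟨rfl, rfl⟩ | ⟨rfl, rfl⟩ <;>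
    simp only [pT, pC, pR, pQ] at h1 h2 <;> omega

lemma nopair_rot (o o' : ℕ) (ho : o + 1 < 36) (_ho' : o' + 1 < 36) :
    ¬ (pC o = (pT o' + 2) % 3 ∧ pC (o + 1) = (pT (o' + 1) + 2) % 3) := by
  rintro ⟨h1, h2⟩
  simp only [pT, pC] at h1 h2
  omega

lemma rot_fst {S : Type} (i : ℕ) (φ : S → ℕ × ℕ) (c : S) : (rot i φ c).1 = (φ c).1 := by
  unfold rot
  split_ifs with h
  · exact h.symm
  · rfl

end NXT_

open NXT_ in
theorem nxt_proof (hRNA : Stmt_RNA) (hRNB : Stmt_RNB) : Stmt_NXT := by
  intro S _ lam w x r A v φ φ' p0 p1 hlam hq hqr hA hst hfit hasg hasg' hpat hphi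
  obtain ⟨q, hqdef⟩ : ∃ q : ℕ, q = ⌊1 / lam⌋₊ := ⟨_, rfl⟩
  have hpat2 : (p0 = pT ∧ p1 = pC) ∨ (p0 = pC ∧ p1 = pT) ∨ (p0 = pR ∧ p1 = pQ) ∨
      (p0 = pQ ∧ p1 = pR) := by
    rcases hpat with h | h | h | h
    · exact Or.inl h
    · exact Or.inr (Or.inl ⟨h.1, h.2.1⟩)
    · exact Or.inr (Or.inr (Or.inl ⟨h.1, h.2.1⟩))
    · exact Or.inr (Or.inr (Or.inr ⟨h.1, h.2.1⟩))
  have hpt : p1 = pC ∨ p1 = pT ∨ p1 = pR ∨ p1 = pQ := by
    rcases hpat2 with h | h | h | h
    · exact Or.inl h.2
    · exact Or.inr (Or.inl h.2)
    · exact Or.inr (Or.inr (Or.inr h.2))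
    · exact Or.inr (Or.inr (Or.inl h.2))
  have f1 : ∀ c ∈ A, (φ c).1 = (v c + 36 * r - x) / 36 := fun c hc => by rw [hfit c hc]
  have f2 : ∀ c ∈ A, (φ c).2 = p0 ((v c + 36 * r - x) % 36) := fun c hc => by rw [hfit c hc]
  have fv := hst.vlt
  -- the first condition, letters that keep their group
  have keep1 : ∀ c ∈ A, ∀ o, v c + q < x + 36 * (φ c).1 + o := by
    intro c hc o
    have h1 := f1 c hc
    have h2 := fv c hc
    rw [← hqdef] at hqr
    omega
  -- the second condition, letters with the old distribution
  have keep2 : ∀ c ∈ A, ∀ c' ∈ A, v c' = v c + 1 → (φ c).1 = (φ c').1 → ∀ o, o + 1 < 36 →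
      ¬ (p1 o = (φ c).2 ∧ p1 (o + 1) = (φ c').2) := by
    intro c hc c' hc' hv hg o ho
    rw [f2 c hc, f2 c' hc']
    have h1 := f1 c hc
    have h1' := f1 c' hc'
    have h2 := fv c hc
    have h2' := fv c' hc'
    have e : (v c' + 36 * r - x) % 36 = (v c + 36 * r - x) % 36 + 1 := by omega
    rw [e]
    exact nopair hpat2 o _ ho (by omega)
  have main : (∀ c ∈ A, ∀ o < 36, p1 o = (φ' c).2 → v c + q < x + 36 * (φ' c).1 + o) ∧
      (∀ c ∈ A, ∀ c' ∈ A, v c' = v c + 1 → (φ' c).1 = (φ' c').1 → ∀ o, o + 1 < 36 →
      ¬ (p1 o = (φ' c).2 ∧ p1 (o + 1) = (φ' c').2)) := by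
    by_cases heq : φ' = φ
    · rw [heq]
      exact ⟨fun c hc o _ _ => keep1 c hc o, keep2⟩
    · have hTC : p0 = pT ∧ p1 = pC := by
        rcases hpat with h | h | h | h
        · exact h
        · exact absurd h.2.2 heq
        · exact absurd h.2.2 heq
        · exact absurd h.2.2 heq
      obtain ⟨rfl, rfl⟩ := hTC
      rcases hphi with h | ⟨i, -, rfl⟩ | ⟨a, ha, b, hb, ha2, hb2, hab, rfl⟩
      · exact absurd h heq
      · -- rotation
        refine ⟨?_, ?_⟩
        · intro c hc o _ _
          rw [rot_fst]
          exact keep1 c hc o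
        · intro c hc c' hc' hv hg o ho
          rw [rot_fst, rot_fst] at hg
          by_cases hi : (φ c).1 = i
          · have hi' : (φ c').1 = i := by rw [← hg]; exact hi
            have e1 : (rot i φ c).2 = ((φ c).2 + 2) % 3 := by unfold rot; rw [if_pos hi]
            have e2 : (rot i φ c').2 = ((φ c').2 + 2) % 3 := by unfold rot; rw [if_pos hi']
            rw [e1, e2, f2 c hc, f2 c' hc']
            have h1 := f1 c hc
            have h1' := f1 c' hc'
            have h2 := fv c hc
            have h2' := fv c' hc'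
            have e : (v c' + 36 * r - x) % 36 = (v c + 36 * r - x) % 36 + 1 := by omega
            rw [e]
            exact nopair_rot o _ ho (by omega)
          · have hi' : (φ c').1 ≠ i := by rw [← hg]; exact hi
            have e1 : (rot i φ c).2 = (φ c).2 := by unfold rot; rw [if_neg hi]
            have e2 : (rot i φ c').2 = (φ c').2 := by unfold rot; rw [if_neg hi']
            rw [e1, e2]
            exact keep2 c hc c' hc' hv hg o ho
      · -- exchange
        have hne : a ≠ b := by
          intro h; rw [h] at hab; omega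
        have ea : (φ ∘ Equiv.swap a b) a = φ b := by
          simp
        have eb : (φ ∘ Equiv.swap a b) b = φ a := by
          simp
        have eo : ∀ c, c ≠ a → c ≠ b → (φ ∘ Equiv.swap a b) c = φ c := by
          intro c h1 h2
          simp [Equiv.swap_apply_of_ne_of_ne h1 h2]
        have ga := f1 a ha
        have gb := f1 b hb
        have ca := f2 a ha
        have cb := f2 b hb
        have va := fv a ha
        have vb := fv b hb
        rw [ha2] at ca
        rw [hb2] at cb
        simp only [pT] at ca cb
        refine ⟨?_, ?_⟩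
        · intro c hc o ho hpo
          rw [← hqdef] at hqr
          by_cases h1 : c = a
          · subst h1
            rw [ea]
            omega
          · by_cases h2 : c = b
            · subst h2
              rw [eb] at hpo ⊢
              rw [ha2] at hpo
              simp only [pC] at hpo
              omega
            · rw [eo c h1 h2]
              exact keep1 c hc o
        · intro c hc c' hc' hv hg o ho
          have gc := f1 c hc
          have gc' := f1 c' hc'
          have cc := f2 c hc
          have cc' := f2 c' hc'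
          have vc := fv c hc
          have vc' := fv c' hc'
          simp only [pT] at cc cc'
          by_cases h1 : c = a
          · subst h1
            exfalso
            have h3 : c' ≠ c := by intro h; rw [h] at hv; omega
            have h4 : c' ≠ b := by
              intro h; rw [h] at cc' hv gc'; omega
            rw [ea, eo c' h3 h4] at hg
            omega
          · by_cases h2 : c = b
            · subst h2
              exfalso
              have h3 : c' ≠ c := by intro h; rw [h] at hv; omega
              have h4 : c' ≠ a := by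
                intro h; rw [h] at cc' hv gc'; omega
              rw [eb, eo c' h4 h3] at hg
              omega
            · by_cases h3 : c' = a
              · subst h3
                exfalso
                rw [ea, eo c h1 h2] at hg
                omega
              · by_cases h4 : c' = b
                · subst h4
                  exfalso
                  rw [eb, eo c h1 h2] at hg
                  omega
                · rw [eo c h1 h2, eo c' h3 h4] at hg ⊢
                  exact keep2 c hc c' hc' hv hg o ho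
  rw [hqdef] at main
  obtain ⟨w', k1, k2, k3, k4, k5⟩ := hRNA S lam w x r A v φ' p1 hlam hq hst hasg' hpt main.1 main.2
  exact ⟨w', k1, k4, hRNB S lam w' x r A φ' p1 hA k2 k3 k4 k5⟩

end TRP
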