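import Pool.Agent.TRP.Stmts

/-!
# Squad TRP, module PRM: permutations with prescribed values
-/

set_option autoImplicit false

namespace TRP

theorem prm_proof : Stmt_PRM := by
  classical
  intro n T u
  set F := (Finset.univ.filter fun π : Equiv.Perm (Fin n) => ∀ i ∈ T, π i = u i) with hF
  rcases F.eq_empty_or_nonempty with h0 | ⟨π₀, h0⟩
  · rw [h0]; simp
  · have hπ₀ : ∀ i ∈ T, π₀ i = u i := by
      rw [hF, Finset.mem_filter] at h0
      exact h0.2
    have hcard : Fintype.card {f : Equiv.Perm (Fin n) // ∀ a, ¬ (a ∉ T) → f a = a} =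
        (n - T.card).factorial := by
      rw [← Fintype.card_congr (Equiv.Perm.subtypeEquivSubtypePerm (fun a : Fin n => a ∉ T)),
        Fintype.card_perm, Fintype.card_subtype_compl]
      simp
    rw [← hcard, ← Fintype.card_coe]
    refine Fintype.card_le_of_injective
      (fun π : F => (⟨π₀⁻¹ * π.1, ?_⟩ :
        {f : Equiv.Perm (Fin n) // ∀ a, ¬ (a ∉ T) → f a = a})) ?_
    · intro a ha
      have ha' : a ∈ T := not_not.1 ha
      have h1 : π.1 a = u a := (Finset.mem_filter.1 π.2).2 a ha'
      rw [Equiv.Perm.mul_apply, h1, ← hπ₀ a ha']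
      simp
    · intro π σ h
      have h1 : π₀⁻¹ * π.1 = π₀⁻¹ * σ.1 := congrArg Subtype.val h
      exact Subtype.ext (mul_left_cancel h1)

end TRP
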