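import Pool.Agent.TRP.Stmts

set_option autoImplicit false

namespace TRP

open Pool.Agent.Helper85.PowerFree

namespace PTW_

variable {S : Type} [DecidableEq S]

lemma ow_lt (w : ℕ → S) (x L : ℕ) (f : ℕ → S) (i : ℕ) (h : i < x) : ow w x L f i = w i := by
  unfold ow; rw [if_neg (by omega)]

lemma ow_add (w : ℕ → S) (x L : ℕ) (f : ℕ → S) (j : ℕ) (h : j < L) :
    ow w x L f (x + j) = f j := by
  unfold ow; rw [if_pos (by omega)]; congr 1; omega

lemma step (w : ℕ → S) (x L : ℕ) (f : ℕ → S) (p j : ℕ) (hp : L ≤ p) (hj : j < L) :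
    mu (ow w x L f) p (x + (j + 1)) =
      if p ≤ x + j ∧ f j = w (x + j - p) then mu (ow w x L f) p (x + j) + 1 else 0 := by
  rw [← add_assoc, mu_succ, ow_add w x L f j hj]
  by_cases h : p ≤ x + j
  · rw [ow_lt w x L f (x + j - p) (by omega)]
  · rw [if_neg (by tauto), if_neg (by tauto)]

lemma run (w : ℕ → S) (x L : ℕ) (f : ℕ → S) (p : ℕ) (hp : L ≤ p) : ∀ j, j ≤ L →
    (mu (ow w x L f) p (x + j) ≤ j →
      mt w x p f (j - mu (ow w x L f) p (x + j)) (mu (ow w x L f) p (x + j))) ∧
    (j < mu (ow w x L f) p (x + j) →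
      mu w p x = mu (ow w x L f) p (x + j) - j ∧ mt w x p f 0 j) := by
  intro j
  induction j with
  | zero =>
    intro _
    have h0 : mu (ow w x L f) p (x + 0) = mu w p x :=
      mu_congr _ _ p x (fun i hi => ow_lt w x L f i hi)
    refine ⟨fun h => ?_, fun h => ⟨by rw [h0]; omega, ?_⟩⟩
    · intro i h1 h2; omega
    · intro i h1 h2; omega
  | succ j ih =>
    intro hj
    obtain ⟨ha, hb⟩ := ih (by omega)
    rw [step w x L f p j hp (by omega)]
    split_ifs with hc
    · refine ⟨fun h => ?_, fun h => ?_⟩
      · intro i h1 h2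
        rcases Nat.lt_or_ge i j with h3 | h3
        · exact ha (by omega) i (by omega) (by omega)
        · have : i = j := by omega
          subst this; exact hc
      · obtain ⟨h3, h4⟩ := hb (by omega)
        refine ⟨by omega, ?_⟩
        intro i h1 h2
        rcases Nat.lt_or_ge i j with h5 | h5
        · exact h4 i (by omega) (by omega)
        · have : i = j := by omega
          subst this; exact hc
    · refine ⟨fun _ => ?_, fun h => by omega⟩
      intro i h1 h2; omega

lemma cA_nonneg (lam : ℚ) (w : ℕ → S) (x L p : ℕ) (f : ℕ → S) : 0 ≤ cA lam w x L p f := by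
  unfold cA; split_ifs <;> positivity

lemma cB_nonneg (lam : ℚ) (w : ℕ → S) (x L p o : ℕ) (f : ℕ → S) : 0 ≤ cB lam w x L p o f := by
  unfold cB; split_ifs <;> positivity

lemma term_nonneg (lam : ℚ) (w : ℕ → S) (x L p : ℕ) (f : ℕ → S) :
    0 ≤ cA lam w x L p f + ∑ o ∈ Finset.range L, cB lam w x L p o f :=
  add_nonneg (cA_nonneg _ _ _ _ _ _) (Finset.sum_nonneg fun o _ => cB_nonneg _ _ _ _ _ _ _)

lemma le_cost (lam : ℚ) (w : ℕ → S) (x L p : ℕ) (f : ℕ → S) (hp : p < x + L)
    (he : 2 ≤ ex lam p) :
    cA lam w x L p f + ∑ o ∈ Finset.range L, cB lam w x L p o f ≤ cost lam w x L f := by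
  unfold cost
  exact Finset.single_le_sum (f := fun p => cA lam w x L p f +
    ∑ o ∈ Finset.range L, cB lam w x L p o f) (fun q _ => term_nonneg _ _ _ _ _ _)
    (Finset.mem_filter.2 ⟨Finset.mem_range.2 hp, he⟩)

lemma cA_le (lam : ℚ) (w : ℕ → S) (x L p : ℕ) (f : ℕ → S) :
    cA lam w x L p f ≤ cA lam w x L p f + ∑ o ∈ Finset.range L, cB lam w x L p o f :=
  le_add_of_nonneg_right (Finset.sum_nonneg fun o _ => cB_nonneg _ _ _ _ _ _ _)

lemma cB_le (lam : ℚ) (w : ℕ → S) (x L p o : ℕ) (f : ℕ → S) (ho : o < L) :
    cB lam w x L p o f ≤ cA lam w x L p f + ∑ o ∈ Finset.range L, cB lam w x L p o f :=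
  (Finset.single_le_sum (f := fun o => cB lam w x L p o f)
    (fun q _ => cB_nonneg _ _ _ _ _ _ _) (Finset.mem_range.2 ho)).trans
    (le_add_of_nonneg_left (cA_nonneg _ _ _ _ _ _))

end PTW_

open PTW_ in
/-- if an arrangement is bad, its cost is at least one -/
theorem ptw_proof : Stmt_PTW := by
  intro S _ lam w x L f hlam hL hG hf1 hf2 hcost
  set w' := ow w x L f with hw'
  have hlt : ∀ i < x, w' i = w i := fun i hi => ow_lt w x L f i hi
  have hbig : ∀ p, 2 ≤ ex lam p → L < p := by
    intro p hp
    have : ¬ p ≤ ⌊1 / lam⌋₊ := by rw [← ex_le_one_iff hlam]; omega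
    omega
  have hex0 : ex lam 0 = 0 := by unfold ex; simp
  -- below `x`
  have hmx : ∀ p t, t ≤ x → mu w' p t = mu w p t := fun p t ht =>
    mu_congr _ _ p t (fun i hi => hlt i (by omega))
  -- small periods
  have hsm : ∀ p, 1 ≤ p → p ≤ ⌊1 / lam⌋₊ → ∀ j < L, mu w' p (x + (j + 1)) = 0 := by
    intro p hp hpq j hj
    rw [← add_assoc, mu_succ, if_neg]
    rintro ⟨h1, h2⟩
    rw [hw', ow_add w x L f j hj] at h2
    rcases Nat.lt_or_ge j p with h3 | h3
    · rw [ow_lt w x L f _ (by omega)] at h2
      exact hf2 j hj p h3 hpq h1 h2.symm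
    · rw [show x + j - p = x + (j - p) by omega, ow_add w x L f _ (by omega)] at h2
      exact hf1 j hj (j - p) (by omega) (by omega) h2
  -- large periods
  have hlg : ∀ p, 2 ≤ ex lam p → ∀ j ≤ L, mu w' p (x + j) < ex lam p := by
    intro p hp j
    induction j with
    | zero =>
      intro _
      rw [add_zero, hmx p x le_rfl, lt_ex]
      exact hG p (by have := hbig p hp; omega) x le_rfl
    | succ j ih =>
      intro hj
      have h1 := ih (by omega)
      have h2 := step w x L f p j (hbig p hp).le (by omega)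
      obtain ⟨ra, rb⟩ := run w x L f p (hbig p hp).le (j + 1) hj
      rw [← hw'] at h2 ra rb
      by_contra hcon
      have h3 : mu w' p (x + (j + 1)) = ex lam p := by
        rw [h2] at hcon ⊢
        split_ifs at hcon ⊢ with hc
        · omega
        · omega
      rw [h3] at ra rb
      have h4 := mu_add_le w' p (x + (j + 1)) (by omega)
      have hpx : p < x + L := by omega
      have h5 := le_cost lam w x L p f hpx hp
      rcases Nat.lt_or_ge (j + 1) (ex lam p) with h6 | h6
      · obtain ⟨h7, h8⟩ := rb h6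
        have h9 : cA lam w x L p f = 1 := by
          unfold cA
          have e1 : ex lam p - mu w p x = j + 1 := by omega
          rw [if_pos (by omega), e1, if_pos hj, if_pos h8]
        have h10 := cA_le lam w x L p f
        linarith
      · have h8 := ra h6
        have h9 : cB lam w x L p (j + 1 - ex lam p) f = 1 := by
          unfold cB
          rw [if_pos (by omega), if_pos h8]
        have h10 := cB_le lam w x L p (j + 1 - ex lam p) f (by omega)
        linarith
  refine ⟨?_, ?_⟩
  · intro p hp t ht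
    have hpos : (0 : ℚ) < lam * p := by
      have : (0 : ℚ) < p := by exact_mod_cast hp
      positivity
    rcases Nat.lt_or_ge x t with h1 | h1
    · obtain ⟨j, rfl⟩ : ∃ j, t = x + (j + 1) := ⟨t - x - 1, by omega⟩
      by_cases he : 2 ≤ ex lam p
      · rw [← lt_ex]
        exact hlg p he (j + 1) (by omega)
      · rw [hsm p hp (by rw [← ex_le_one_iff hlam]; omega) j (by omega)]
        simpa using hpos
    · rw [hmx p t h1]
      exact hG p hp t h1
  · refine lt_of_le_of_lt ?_ hcost
    set g : ℕ → ℚ := fun p => if 2 ≤ ex lam p ∧ 0 < mu w' p (x + L) then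
      (1 / 4 : ℚ) ^ (ex lam p - mu w' p (x + L)) else 0 with hg
    have e1 : pot lam w' (x + L) = ∑ p ∈ Finset.range (x + L), g p := by
      have h1 : pot lam w' (x + L) = ∑ j ∈ Finset.range (x + L), g (j + 1) := rfl
      have h2 := Finset.sum_range_succ' g (x + L)
      have h3 := Finset.sum_range_succ g (x + L)
      have h4 : g 0 = 0 := by
        rw [hg]; simp only [hex0]; rw [if_neg (by omega)]
      have h5 : g (x + L) = 0 := by
        rw [hg]; simp only
        rw [if_neg]
        rintro ⟨h6, h7⟩
        have := mu_add_le w' (x + L) (x + L) h7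
        omega
      rw [h1]; linarith
    rw [e1]
    unfold cost
    rw [Finset.sum_filter]
    apply Finset.sum_le_sum
    intro p hp
    rw [Finset.mem_range] at hp
    by_cases he : 2 ≤ ex lam p
    · rw [if_pos he]
      by_cases hm : 0 < mu w' p (x + L)
      · have hlt := hlg p he L le_rfl
        obtain ⟨ra, rb⟩ := run w x L f p (hbig p he).le L le_rfl
        rw [← hw'] at ra rb
        have hgp : g p = (1 / 4 : ℚ) ^ (ex lam p - mu w' p (x + L)) := by
          rw [hg]; simp only; rw [if_pos ⟨he, hm⟩]
        rw [hgp]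
        rcases Nat.lt_or_ge L (mu w' p (x + L)) with h6 | h6
        · obtain ⟨h7, h8⟩ := rb h6
          refine le_trans ?_ (cA_le lam w x L p f)
          apply le_of_eq
          unfold cA
          rw [if_pos (by omega), if_neg (by omega), if_pos h8]
          congr 1
          omega
        · have h8 := ra h6
          refine le_trans ?_ (cB_le lam w x L p (L - mu w' p (x + L)) f (by omega))
          apply le_of_eq
          unfold cB
          rw [if_neg (by omega), if_pos (by
            rw [show L - (L - mu w' p (x + L)) = mu w' p (x + L) by omega]; exact h8)]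
          congr 1
          omega
      · have : g p = 0 := by rw [hg]; simp only; rw [if_neg (by tauto)]
        rw [this]; exact term_nonneg _ _ _ _ _ _
    · have : g p = 0 := by rw [hg]; simp only; rw [if_neg (by tauto)]
      rw [if_neg he, this]

end TRP
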