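import Pool.Agent.TRP.Stmts

/-!
# Squad TRP, module RGT: the right side (reversed words).
-/

set_option autoImplicit false

namespace TRP

open Pool.Agent.Helper85.PowerFree

namespace RGT_

/-- the word of the positions `[a, a + n)` of `w` -/
def seg {S : Type} (w : ℕ → S) (a n : ℕ) : List S := (List.range n).map fun i => w (a + i)

lemma seg_length {S : Type} (w : ℕ → S) (a n : ℕ) : (seg w a n).length = n := by
  simp [seg]

lemma seg_getElem? {S : Type} (w : ℕ → S) (a n i : ℕ) (hi : i < n) :
    (seg w a n)[i]? = some (w (a + i)) := by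
  unfold seg
  rw [List.getElem?_map, List.getElem?_range hi]
  rfl

lemma nb_of {S : Type} [DecidableEq S] {lam : ℚ} (hlam : 0 < lam) (u : List S) (w0 w : ℕ → S)
    (x M : ℕ) (d : S) (hux : u.length ≤ x) (hu : ∀ (i : ℕ) (hi : i < u.length), w0 i = u[i])
    (hw : ∀ i < x, w i = w0 i) (hG : Good lam w (x + M)) :
    NB lam (u ++ seg w0 u.length (x - u.length) ++ seg w x M) := by
  have hlen : (u ++ seg w0 u.length (x - u.length) ++ seg w x M).length = x + M := by
    simp [seg_length]; omega
  rw [NB_iff_good hlam _ d, hlen]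
  refine hG.congr ?_
  intro i hi
  rw [List.getD_eq_getElem?_getD]
  by_cases hi1 : i < x
  · rw [List.getElem?_append_left (by simp [seg_length]; omega)]
    by_cases hi2 : i < u.length
    · rw [List.getElem?_append_left hi2, hw i hi1, hu i hi2, List.getElem?_eq_getElem hi2]
      rfl
    · rw [List.getElem?_append_right (by omega), seg_getElem? _ _ _ _ (by omega), hw i hi1]
      simp only [Option.getD_some]
      congr 1; omega
  · have h2 : (u ++ seg w0 u.length (x - u.length)).length = x := by
      simp [seg_length]; omega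
    rw [List.getElem?_append_right (by omega), h2, seg_getElem? _ _ _ _ (by omega)]
    simp only [Option.getD_some]
    congr 1; omega

end RGT_

open RGT_ in
theorem rgt_proof (hSTA : Stmt_STA) (hFIT : Stmt_FIT) (hZON : Stmt_ZON) : Stmt_RGT := by
  intro S _ _ lam r A u hlam hq hcard hr hA hu
  obtain ⟨w0, x, v, hux, hw0, hst⟩ := hSTA S lam A u hlam hcard hu
  rw [hA] at hst
  have hasg := hFIT S lam w0 x r A v pR hA hst (Or.inr rfl)
  refine ⟨seg w0 u.length (x - u.length),
    fun c => ((v c + 36 * r - x) / 36, pR ((v c + 36 * r - x) % 36)), hasg, fun k => ?_⟩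
  obtain ⟨w', hw', hG, hP⟩ := hZON S lam w0 x r A v
    (fun c => ((v c + 36 * r - x) / 36, pR ((v c + 36 * r - x) % 36))) pR pQ k hlam hq hr hA hst
    (fun c _ => rfl) hasg (Or.inr ⟨rfl, rfl⟩)
  have hcpos : 0 < Fintype.card S := by omega
  obtain ⟨d⟩ : Nonempty S := Fintype.card_pos_iff.mp hcpos
  refine ⟨seg w' x (2 * k * (36 * r)), seg_length _ _ _, ?_, ?_⟩
  · intro j hj
    have hj' : j < 2 * k * (36 * r) := by rwa [seg_length] at hj
    have hel : (seg w' x (2 * k * (36 * r)))[j] = w' (x + j) := by
      have := seg_getElem? w' x (2 * k * (36 * r)) j hj'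
      rw [List.getElem?_eq_getElem hj] at this
      exact Option.some.inj this
    rw [hel]
    exact hP j hj'
  · exact nb_of hlam u w0 w' x _ d hux hw0 hw' hG

end TRP
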