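import Pool.Agent.TRP.Stmts

set_option autoImplicit false

namespace TRP

open Pool.Agent.Helper85.PowerFree

namespace RNA_

lemma floor_lt {lam : ℚ} (hlam : 0 < lam) {d : ℕ} (h : (1 : ℚ) < lam * d) : ⌊1 / lam⌋₊ < d := by
  have h1 : ((⌊1 / lam⌋₊ : ℕ) : ℚ) ≤ 1 / lam := Nat.floor_le (by positivity)
  have h2 : lam * ((⌊1 / lam⌋₊ : ℕ) : ℚ) ≤ 1 := by
    rw [le_div_iff₀ hlam] at h1
    linarith
  have h3 : lam * ((⌊1 / lam⌋₊ : ℕ) : ℚ) < lam * d := lt_of_le_of_lt h2 h
  have h4 : ((⌊1 / lam⌋₊ : ℕ) : ℚ) < d := lt_of_mul_lt_mul_left h3 hlam.le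
  exact_mod_cast h4

lemma period_two {lam : ℚ} (hlam : 0 < lam) {p : ℕ} (h : ex lam p = 2) :
    ⌊1 / lam⌋₊ < p ∧ p ≤ 2 * ⌊1 / lam⌋₊ + 1 := by
  have h1 : 1 < ex lam p := by omega
  rw [lt_ex] at h1
  refine ⟨floor_lt hlam (by exact_mod_cast h1), ?_⟩
  have h2 : lam * p ≤ ex lam p := le_ex p
  rw [h] at h2
  have h3 : 1 / lam < ((⌊1 / lam⌋₊ : ℕ) : ℚ) + 1 := Nat.lt_floor_add_one _
  rw [div_lt_iff₀ hlam] at h3
  have h4 : lam * (p : ℚ) < lam * ((2 * ⌊1 / lam⌋₊ + 2 : ℕ) : ℚ) := by
    push_cast at h2 ⊢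
    nlinarith
  have h5 : (p : ℚ) < ((2 * ⌊1 / lam⌋₊ + 2 : ℕ) : ℚ) := lt_of_mul_lt_mul_left h4 hlam.le
  have h6 : p < 2 * ⌊1 / lam⌋₊ + 2 := by exact_mod_cast h5
  omega

lemma dist_gt {S : Type} [DecidableEq S] {lam : ℚ} (hlam : 0 < lam) {w : ℕ → S} {x : ℕ}
    (hg : Good lam w x) {y y' : ℕ} (hy : y < y') (hy' : y' < x) (he : w y' = w y) :
    ⌊1 / lam⌋₊ < y' - y := by
  apply floor_lt hlam
  have h1 := hg (y' - y) (by omega) (y' + 1) (by omega)
  rw [mu_succ, if_pos ⟨by omega, by rw [he]; exact congrArg w (by omega)⟩] at h1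
  push_cast at h1 ⊢
  have h2 : (0 : ℚ) ≤ (mu w (y' - y) y' : ℚ) := by positivity
  linarith

end RNA_

open RNA_ in
theorem rna_proof (hGRP : Stmt_GRP) : Stmt_RNA := by
  intro S _ lam w x r A v φ pt hlam hq hSt hAsg hpt hA1 hA2
  have main : ∀ i ≤ r, ∃ w' : ℕ → S, (∀ j < x, w' j = w j) ∧ Good lam w' (x + 36 * i) ∧
      pot lam w' (x + 36 * i) < 1 ∧
      (∀ i' < i, ∀ o < 36, w' (x + 36 * i' + o) ∈ A ∧ φ (w' (x + 36 * i' + o)) = (i', pt o)) ∧
      Set.InjOn w' (Set.Ico x (x + 36 * i)) := by
    intro i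
    induction i with
    | zero =>
      intro _
      refine ⟨w, fun _ _ => rfl, by simpa using hSt.good, by simpa using hSt.pot,
        fun i' hi' => absurd hi' (by omega), ?_⟩
      simp
    | succ i ih =>
      intro hi
      obtain ⟨w', hw, hgood, hpot, hgr, hinj⟩ := ih (by omega)
      -- the group of a printed letter
      have hgrp : ∀ y, x ≤ y → y < x + 36 * i → w' y ∈ A ∧
          φ (w' y) = ((y - x) / 36, pt ((y - x) % 36)) := by
        intro y hy1 hy2
        have h1 := hgr ((y - x) / 36) (by omega) ((y - x) % 36) (by omega)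
        have e : x + 36 * ((y - x) / 36) + (y - x) % 36 = y := by omega
        rwa [e] at h1
      have hgrp1 : ∀ y, x ≤ y → y < x + 36 * i → (φ (w' y)).1 < i := by
        intro y hy1 hy2
        rw [(hgrp y hy1 hy2).2]
        simp only
        omega
      have hK : ∀ c a, a ∈ A.filter (fun a => φ a = (i, c)) ↔ a ∈ A ∧ φ a = (i, c) := by
        intro c a
        exact Finset.mem_filter
      have hrec : ∀ o < 36, ∀ c ∈ A.filter (fun a => φ a = (i, pt o)), ∀ p, o < p →
          p ≤ ⌊1 / lam⌋₊ → p ≤ x + 36 * i + o → w' (x + 36 * i + o - p) ≠ c := by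
        intro o ho c hc p hop hpq hpx he
        obtain ⟨hcA, hcφ⟩ := (hK _ _).mp hc
        by_cases hyx : x ≤ x + 36 * i + o - p
        · have := hgrp1 _ hyx (by omega)
          rw [he, hcφ] at this
          simp at this
        · rw [hw _ (by omega)] at he
          have h1 := hSt.last c hcA _ (by omega) he
          have h2 := hA1 c hcA o ho (by rw [hcφ])
          rw [hcφ] at h2
          simp only at h2
          omega
      have hpair : ∀ o, o + 1 < 36 → ∀ p, ex lam p = 2 → p ≤ x + 36 * i + o →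
          w' (x + 36 * i + o - p) ∈ A.filter (fun a => φ a = (i, pt o)) →
          w' (x + 36 * i + o + 1 - p) ∉ A.filter (fun a => φ a = (i, pt (o + 1))) := by
        intro o ho p hp hpx hc hc'
        obtain ⟨hp1, hp2⟩ := period_two hlam hp
        obtain ⟨hcA, hcφ⟩ := (hK _ _).mp hc
        obtain ⟨hcA', hcφ'⟩ := (hK _ _).mp hc'
        obtain ⟨y, hy⟩ : ∃ y, y = x + 36 * i + o - p := ⟨_, rfl⟩
        have hy1 : x + 36 * i + o + 1 - p = y + 1 := by omega
        rw [← hy] at hcA hcφ
        rw [hy1] at hcA' hcφ'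
        have hyx' : y + 1 < x := by
          by_contra hcon
          have := hgrp1 (y + 1) (by omega) (by omega)
          rw [hcφ'] at this
          simp at this
        rw [hw y (by omega)] at hcA hcφ
        rw [hw (y + 1) hyx'] at hcA' hcφ'
        have hn1 : ∀ y', y < y' → y' < x → w y' ≠ w y := by
          intro y' h1 h2 he
          have h3 := dist_gt hlam hSt.good h1 h2 he
          have h4 := hSt.last _ hcA y' h2 he
          have h5 := hA1 _ hcA o (by omega) (by rw [hcφ])
          rw [hcφ] at h5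
          simp only at h5
          omega
        have hn2 : ∀ y', y + 1 < y' → y' < x → w y' ≠ w (y + 1) := by
          intro y' h1 h2 he
          have h3 := dist_gt hlam hSt.good h1 h2 he
          have h4 := hSt.last _ hcA' y' h2 he
          have h5 := hA1 _ hcA' (o + 1) (by omega) (by rw [hcφ'])
          rw [hcφ'] at h5
          simp only at h5
          omega
        have hv := hSt.adj y hyx' hcA hcA' hn1 hn2
        exact hA2 _ hcA _ hcA' hv (by rw [hcφ, hcφ']) o ho ⟨by rw [hcφ], by rw [hcφ']⟩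
      obtain ⟨f, hfK, hfinj, hfgood, hfpot⟩ := hGRP S lam w' (x + 36 * i) pt
        (fun c => A.filter (fun a => φ a = (i, c))) hlam hq hgood hpot hpt
        (fun c hc => hAsg.2 i (by omega) c hc) (by
          intro c _ c' _ hcc'
          rw [Finset.disjoint_left]
          intro a ha ha'
          have h1 := ((hK _ _).mp ha).2
          have h2 := ((hK _ _).mp ha').2
          rw [h1] at h2
          exact hcc' (congrArg Prod.snd h2)) hrec hpair
      have hlow : ∀ y, y < x + 36 * i → ow w' (x + 36 * i) 36 f y = w' y := by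
        intro y hy
        unfold ow
        rw [if_neg (by omega)]
      have hhigh : ∀ o < 36, ow w' (x + 36 * i) 36 f (x + 36 * i + o) = f o := by
        intro o ho
        unfold ow
        rw [if_pos (by omega)]
        exact congrArg f (by omega)
      have hsz : x + 36 * (i + 1) = x + 36 * i + 36 := by ring
      have hfφ : ∀ o < 36, f o ∈ A ∧ φ (f o) = (i, pt o) := fun o ho => (hK _ _).mp (hfK o ho)
      refine ⟨ow w' (x + 36 * i) 36 f, ?_, ?_, ?_, ?_, ?_⟩
      · intro j hj
        rw [hlow j (by omega), hw j hj]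
      · rw [hsz]
        exact hfgood
      · rw [hsz]
        exact hfpot
      · intro i' hi' o ho
        by_cases hii : i' < i
        · rw [hlow _ (by omega)]
          exact hgr i' hii o ho
        · have hii' : i' = i := by omega
          subst hii'
          rw [hhigh o ho]
          exact hfφ o ho
      · rw [hsz]
        intro a ha b hb hab
        simp only [Set.mem_Ico] at ha hb
        by_cases ha1 : a < x + 36 * i
        · by_cases hb1 : b < x + 36 * i
          · rw [hlow a ha1, hlow b hb1] at hab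
            exact hinj ⟨ha.1, ha1⟩ ⟨hb.1, hb1⟩ hab
          · exfalso
            obtain ⟨o, ho⟩ : ∃ o, b = x + 36 * i + o := ⟨b - (x + 36 * i), by omega⟩
            rw [hlow a ha1, ho, hhigh o (by omega)] at hab
            have h1 := hgrp1 a ha.1 ha1
            rw [hab, (hfφ o (by omega)).2] at h1
            simp at h1
        · obtain ⟨o, ho⟩ : ∃ o, a = x + 36 * i + o := ⟨a - (x + 36 * i), by omega⟩
          by_cases hb1 : b < x + 36 * i
          · exfalso
            rw [hlow b hb1, ho, hhigh o (by omega)] at hab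
            have h1 := hgrp1 b hb.1 hb1
            rw [← hab, (hfφ o (by omega)).2] at h1
            simp at h1
          · obtain ⟨o', ho'⟩ : ∃ o', b = x + 36 * i + o' := ⟨b - (x + 36 * i), by omega⟩
            rw [ho, ho', hhigh o (by omega), hhigh o' (by omega)] at hab
            have h1 := hfinj (show o ∈ Set.Iio 36 by simp only [Set.mem_Iio]; omega)
              (show o' ∈ Set.Iio 36 by simp only [Set.mem_Iio]; omega) hab
            omega
  obtain ⟨w', h1, h2, h3, h4, h5⟩ := main r le_rfl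
  exact ⟨w', h1, h2, h3, h4, h5⟩

end TRP
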