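import Pool.Agent.TRP.Stmts

/-!
# Squad TRP (MP_8b7919_co), module RNB : the state after a round
-/

set_option autoImplicit false

namespace TRP

open Pool.Agent.Helper85.PowerFree

theorem rnb_proof : Stmt_RNB := by
  intro S _ lam w x r A φ pt hcard hgood hpot hw hinj
  classical
  -- every position of the round carries a letter of `A`, described by `φ`
  have hpos : ∀ y, x ≤ y → y < x + 36 * r →
      w y ∈ A ∧ φ (w y) = ((y - x) / 36, pt ((y - x) % 36)) := by
    intro y h1 h2
    have h3 := hw ((y - x) / 36) (by omega) ((y - x) % 36) (by omega)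
    have e : x + 36 * ((y - x) / 36) + (y - x) % 36 = y := by omega
    rwa [e] at h3
  -- all letters occur
  have himg : (Finset.Ico x (x + 36 * r)).image w = A := by
    apply Finset.eq_of_subset_of_card_le
    · intro c hc
      obtain ⟨y, hy, rfl⟩ := Finset.mem_image.1 hc
      rw [Finset.mem_Ico] at hy
      exact (hpos y hy.1 hy.2).1
    · rw [Finset.card_image_of_injOn (by simpa using hinj)]
      simp [hcard]
  have hex : ∀ c ∈ A, ∃ y, x ≤ y ∧ y < x + 36 * r ∧ w y = c := by
    intro c hc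
    rw [← himg] at hc
    obtain ⟨y, hy, rfl⟩ := Finset.mem_image.1 hc
    rw [Finset.mem_Ico] at hy
    exact ⟨y, hy.1, hy.2, rfl⟩
  obtain ⟨v, hv⟩ : ∃ v : S → ℕ, ∀ c ∈ A, x ≤ v c ∧ v c < x + 36 * r ∧ w (v c) = c := by
    choose! v hv using hex
    exact ⟨v, hv⟩
  have huniq : ∀ y, x ≤ y → y < x + 36 * r → v (w y) = y := by
    intro y h1 h2
    obtain ⟨a1, a2, a3⟩ := hv (w y) (hpos y h1 h2).1
    exact hinj ⟨a1, a2⟩ ⟨h1, h2⟩ a3
  refine ⟨v, ⟨hgood, hpot, ?_, ?_, ?_, ?_⟩, ?_⟩
  · intro c hc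
    obtain ⟨a1, a2, -⟩ := hv c hc
    exact ⟨a2, by omega⟩
  · intro c hc c' hc' h
    have a := (hv c hc).2.2
    have a' := (hv c' hc').2.2
    rw [← a, ← a', h]
  · intro c hc y hy hwy
    obtain ⟨a1, a2, a3⟩ := hv c hc
    by_cases hx : y < x
    · omega
    · have := huniq y (by omega) hy
      rw [hwy] at this
      omega
  · intro y hy hA hA' hl hl'
    have hx : x ≤ y := by
      by_contra hx
      obtain ⟨a1, a2, a3⟩ := hv (w y) hA
      exact hl (v (w y)) (by omega) a2 a3
    rw [huniq y hx (by omega), huniq (y + 1) (by omega) hy]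
  · intro c hc
    obtain ⟨a1, a2, a3⟩ := hv c hc
    have h := (hpos (v c) a1 a2).2
    rw [a3] at h
    have e : v c + 36 * r - (x + 36 * r) = v c - x := by omega
    rw [e]
    exact h

end TRP
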