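import Pool.Agent.TRP.Stmts

/-!
# Squad TRP, module SLT: one slot.
-/

set_option autoImplicit false

namespace TRP

open Pool.Agent.Helper85.PowerFree







theorem slt_proof (hINJ : Stmt_INJ) (hPTW : Stmt_PTW) (hSMA : Stmt_SMA) (hSMB : Stmt_SMB) :
    Stmt_SLT := by
  intro S _ lam w x L τ K hlam hL hL1 hG hpot hnum hK hdis hrec hpair
  classical
  -- enumeration of the classes
  have hne : Nonempty S := by
    have h0 : 0 < (K 0).card := by rw [hK 0 (by norm_num)]; norm_num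
    obtain ⟨s, -⟩ := Finset.card_pos.mp h0
    exact ⟨s⟩
  have hex : ∀ c : ℕ, ∃ g : Fin 12 → S, c < 3 → Function.Injective g ∧ ∀ s, s ∈ K c ↔ ∃ i, g i = s := by
    intro c
    by_cases hc : c < 3
    · refine ⟨fun i => (((K c).equivFinOfCardEq (hK c hc)).symm i : S), fun _ => ⟨?_, ?_⟩⟩
      · intro i j hij
        exact ((K c).equivFinOfCardEq (hK c hc)).symm.injective (Subtype.ext hij)
      · intro s
        constructor
        · intro hs
          exact ⟨(K c).equivFinOfCardEq (hK c hc) ⟨s, hs⟩, by simp⟩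
        · rintro ⟨i, rfl⟩
          exact (((K c).equivFinOfCardEq (hK c hc)).symm i).2
    · exact ⟨fun _ => hne.some, fun h => absurd h hc⟩
  choose e he using hex
  have hinj : ∀ c < 3, Function.Injective (e c) := fun c hc => (he c hc).1
  have hmem : ∀ c < 3, ∀ s, s ∈ K c ↔ ∃ i, e c i = s := fun c hc => (he c hc).2
  have hA := hSMA S lam w x L τ e hlam hL hL1 hG hnum hinj
  have hB := hSMB S lam w x L τ e K hlam hL hG hnum hinj hmem hpair
  have hcardσ : ((Fintype.card (Fin 3 → Equiv.Perm (Fin 12)) : ℕ) : ℚ) = (Nat.factorial 12 : ℚ) ^ 3 := by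
    rw [Fintype.card_fun, Fintype.card_perm, Fintype.card_fin, Fintype.card_fin]
    push_cast
    rfl
  have hfpos : (0 : ℚ) < (Nat.factorial 12 : ℚ) ^ 3 := by positivity
  have hsum : ∑ σ : Fin 3 → Equiv.Perm (Fin 12), cost lam w x L (fil τ e σ) <
      ∑ σ : Fin 3 → Equiv.Perm (Fin 12), (1 : ℚ) := by
    rw [Finset.sum_const, Finset.card_univ, nsmul_eq_mul, mul_one, hcardσ]
    have h1 : ∑ σ : Fin 3 → Equiv.Perm (Fin 12), cost lam w x L (fil τ e σ) =
        (∑ σ : Fin 3 → Equiv.Perm (Fin 12),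
          ∑ p ∈ (Finset.range (x + L)).filter (fun p => 2 ≤ ex lam p), cA lam w x L p (fil τ e σ)) +
        (∑ σ : Fin 3 → Equiv.Perm (Fin 12),
          ∑ p ∈ (Finset.range (x + L)).filter (fun p => 2 ≤ ex lam p),
            ∑ o ∈ Finset.range L, cB lam w x L p o (fil τ e σ)) := by
      rw [← Finset.sum_add_distrib]
      refine Finset.sum_congr rfl fun σ _ => ?_
      unfold cost
      rw [← Finset.sum_add_distrib]
    rw [h1]
    have h2 : (Nat.factorial 12 : ℚ) ^ 3 * pot lam w x < (Nat.factorial 12 : ℚ) ^ 3 * 1 :=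
      mul_lt_mul_of_pos_left hpot hfpos
    linarith
  obtain ⟨σ, -, hσ⟩ := Finset.exists_lt_of_sum_lt hsum
  have hcls : ∀ o < L, τ o < 3 := hnum.cls
  obtain ⟨hfK, hfinj⟩ := hINJ S τ L e σ K hinj hcls hnum.cnt
    (fun c hc i => (hmem c hc _).mpr ⟨i, rfl⟩) hdis
  have hP := hPTW S lam w x L (fil τ e σ) hlam hL hG
    (fun o ho o' ho' hne' heq => hne' (hfinj ho ho' heq))
    (fun o ho p hp1 hp2 hp3 => hrec o ho _ (hfK o ho) p hp1 hp2 hp3) hσ
  exact ⟨fil τ e σ, hfK, hfinj, hP.1, hP.2⟩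

end TRP
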