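import Pool.Agent.TRP.Stmts

/-!
# Squad TRP: module SMA, the contribution of the active runs
-/

set_option autoImplicit false
set_option linter.constructorNameAsVariable false

namespace TRP

open Pool.Agent.Helper85.PowerFree

namespace SMA_

/-- the number of arrangements that match, times a weight -/
theorem sum_mt (hCNT : Stmt_CNT) {S : Type} [DecidableEq S] (w : ℕ → S) (x L : ℕ) (τ : ℕ → ℕ)
    (e : ℕ → Fin 12 → S) (F : ℕ) (hN : ∀ t, 1 ≤ t → t ≤ L → 3 * 4 ^ t * PN τ 0 t ≤ F ^ 3)
    (hcls : ∀ o < L, τ o < 3) (hcnt : ∀ c < 3, nc τ 0 L c ≤ 12)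
    (he : ∀ c < 3, Function.Injective (e c)) (p t : ℕ)
    (ht1 : 1 ≤ t) (htL : t ≤ L) (a : ℚ) (ha : 0 ≤ a) :
    3 * (∑ σ : Fin 3 → Equiv.Perm (Fin 12), (if mt w x p (fil τ e σ) 0 t then a else 0)) ≤
      (F : ℚ) ^ 3 * ((1 / 4) ^ t * a) := by
  have h1 : (∑ σ : Fin 3 → Equiv.Perm (Fin 12), (if mt w x p (fil τ e σ) 0 t then a else 0)) =
      ((Finset.univ.filter fun σ : Fin 3 → Equiv.Perm (Fin 12) =>
        mt w x p (fil τ e σ) 0 t).card : ℚ) * a := by
    rw [← Finset.sum_filter, Finset.sum_const, nsmul_eq_mul]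
  have h2 : (Finset.univ.filter fun σ : Fin 3 → Equiv.Perm (Fin 12) =>
        mt w x p (fil τ e σ) 0 t).card ≤ PN τ 0 t := by
    have h0 := hCNT S τ L e (fun j => w (x + j - p)) 0 t he hcls hcnt (by omega)
    refine le_trans (Finset.card_le_card ?_) h0
    intro σ hσ
    simp only [Finset.mem_filter, Finset.mem_univ, true_and] at hσ ⊢
    intro j h0 h3
    have h5 := hσ j h0 h3
    exact h5.2
  have h3 : ((3 * 4 ^ t * PN τ 0 t : ℕ) : ℚ) ≤ ((F ^ 3 : ℕ) : ℚ) :=
    Nat.cast_le.2 (hN t ht1 htL)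
  have h4 : ((Finset.univ.filter fun σ : Fin 3 → Equiv.Perm (Fin 12) =>
        mt w x p (fil τ e σ) 0 t).card : ℚ) ≤ (PN τ 0 t : ℚ) := Nat.cast_le.2 h2
  rw [h1]
  generalize ((Finset.univ.filter fun σ : Fin 3 → Equiv.Perm (Fin 12) =>
        mt w x p (fil τ e σ) 0 t).card : ℚ) = n at h4
  rw [Nat.cast_mul, Nat.cast_mul, Nat.cast_pow, Nat.cast_pow] at h3
  generalize (F : ℚ) ^ 3 = C at h3 ⊢
  generalize (PN τ 0 t : ℚ) = P at h3 h4
  have h5 : ((3 : ℕ) : ℚ) = 3 := by norm_num
  have h6 : ((4 : ℕ) : ℚ) = 4 := by norm_num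
  rw [h5, h6] at h3
  have h7 : (0 : ℚ) < (1 / 4) ^ t := by positivity
  have h8 : ((1 / 4 : ℚ)) ^ t * 4 ^ t = 1 := by
    rw [← mul_pow]
    norm_num
  have h9 : 3 * P ≤ C * (1 / 4) ^ t := by
    have h10 := mul_le_mul_of_nonneg_right h3 h7.le
    have h11 : 3 * 4 ^ t * P * (1 / 4) ^ t = 3 * P * ((1 / 4) ^ t * 4 ^ t) := by ring
    rw [h11, h8, mul_one] at h10
    exact h10
  calc 3 * (n * a) = (3 * n) * a := by ring
    _ ≤ (3 * P) * a := by
        apply mul_le_mul_of_nonneg_right _ ha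
        linarith
    _ ≤ (C * (1 / 4) ^ t) * a := mul_le_mul_of_nonneg_right h9 ha
    _ = C * ((1 / 4) ^ t * a) := by ring

end SMA_

theorem sma_proof (hCNT : Stmt_CNT) : Stmt_SMA := by
  intro S _ lam w x L τ e hlam _hL hL1 hG hN he
  have hact := hN.act
  have hcls := hN.cls
  have hcnt := hN.cnt
  clear hN
  generalize Nat.factorial 12 = F at hact ⊢
  -- one period
  have key : ∀ p, 2 ≤ ex lam p →
      3 * (∑ σ : Fin 3 → Equiv.Perm (Fin 12), cA lam w x L p (fil τ e σ)) ≤
        (F : ℚ) ^ 3 *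
          (if 0 < mu w p x then (1 / 4 : ℚ) ^ (ex lam p - mu w p x) else 0) := by
    intro p hp
    by_cases hm : 0 < mu w p x
    · have hp1 : 1 ≤ p := by
        by_contra h
        have h0 : p = 0 := by omega
        subst h0
        have h1 : ex lam 0 = 0 := by
          unfold ex
          simp
        omega
      have hlt : mu w p x < ex lam p := lt_ex.2 (hG p hp1 x le_rfl)
      rw [if_pos hm]
      by_cases hr : ex lam p - mu w p x ≤ L
      · have h1 : ∀ σ : Fin 3 → Equiv.Perm (Fin 12), cA lam w x L p (fil τ e σ) =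
            if mt w x p (fil τ e σ) 0 (ex lam p - mu w p x) then 1 else 0 := by
          intro σ
          unfold cA
          rw [if_pos hm, if_pos hr]
        simp only [h1]
        have h2 := SMA_.sum_mt hCNT w x L τ e F hact hcls hcnt he p (ex lam p - mu w p x) (by omega) hr 1
          zero_le_one
        rw [mul_one] at h2
        exact h2
      · have h1 : ∀ σ : Fin 3 → Equiv.Perm (Fin 12), cA lam w x L p (fil τ e σ) =
            if mt w x p (fil τ e σ) 0 L then (1 / 4) ^ (ex lam p - mu w p x - L) else 0 := by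
          intro σ
          unfold cA
          rw [if_pos hm, if_neg hr]
        simp only [h1]
        have h2 := SMA_.sum_mt hCNT w x L τ e F hact hcls hcnt he p L hL1 le_rfl
          ((1 / 4) ^ (ex lam p - mu w p x - L)) (by positivity)
        rw [← pow_add] at h2
        have h3 : L + (ex lam p - mu w p x - L) = ex lam p - mu w p x := by omega
        rw [h3] at h2
        exact h2
    · rw [if_neg hm, mul_zero]
      have h1 : ∀ σ : Fin 3 → Equiv.Perm (Fin 12), cA lam w x L p (fil τ e σ) = 0 := by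
        intro σ
        unfold cA
        rw [if_neg hm]
      simp only [h1, Finset.sum_const_zero, mul_zero, le_refl]
  -- the potential
  have hpot : ∑ p ∈ (Finset.range (x + L)).filter (fun p => 2 ≤ ex lam p),
      (if 0 < mu w p x then (1 / 4 : ℚ) ^ (ex lam p - mu w p x) else 0) = pot lam w x := by
    have h1 : ∑ p ∈ (Finset.range (x + L)).filter (fun p => 2 ≤ ex lam p),
        (if 0 < mu w p x then (1 / 4 : ℚ) ^ (ex lam p - mu w p x) else 0) =
        ∑ p ∈ Finset.range (x + L), (if 2 ≤ ex lam p ∧ 0 < mu w p x then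
          (1 / 4 : ℚ) ^ (ex lam p - mu w p x) else 0) := by
      rw [Finset.sum_filter]
      refine Finset.sum_congr rfl fun p _ => ?_
      by_cases h2 : 2 ≤ ex lam p
      · by_cases h3 : 0 < mu w p x
        · rw [if_pos h2, if_pos h3, if_pos ⟨h2, h3⟩]
        · rw [if_pos h2, if_neg h3, if_neg (fun h => h3 h.2)]
      · rw [if_neg h2, if_neg (fun h => h2 h.1)]
    have h2 : ∑ p ∈ Finset.range (x + 1), (if 2 ≤ ex lam p ∧ 0 < mu w p x then
          (1 / 4 : ℚ) ^ (ex lam p - mu w p x) else 0) =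
        ∑ p ∈ Finset.range (x + L), (if 2 ≤ ex lam p ∧ 0 < mu w p x then
          (1 / 4 : ℚ) ^ (ex lam p - mu w p x) else 0) := by
      apply Finset.sum_subset
      · intro p hp
        rw [Finset.mem_range] at hp ⊢
        omega
      · intro p _ hp
        rw [Finset.mem_range] at hp
        apply if_neg
        rintro ⟨_, h⟩
        have := mu_add_le w p x h
        omega
    rw [h1, ← h2, Finset.sum_range_succ']
    have h3 : (if 2 ≤ ex lam 0 ∧ 0 < mu w 0 x then
          (1 / 4 : ℚ) ^ (ex lam 0 - mu w 0 x) else 0) = 0 := by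
      apply if_neg
      rintro ⟨h, _⟩
      have h4 : ex lam 0 = 0 := by
        unfold ex
        simp
      omega
    rw [h3, add_zero]
    rfl
  rw [Finset.sum_comm, Finset.mul_sum, ← hpot, Finset.mul_sum]
  refine Finset.sum_le_sum fun p hp => ?_
  exact key p (Finset.mem_filter.1 hp).2

end TRP
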