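import Pool.Agent.TRP.Stmts

/-!
# Squad TRP (MP_8b7919_co), module SMB: the runs that start in the slot
-/

set_option autoImplicit false

namespace TRP

open Pool.Agent.Helper85.PowerFree

namespace SMB_

variable {S : Type} [DecidableEq S]

theorem gen {Ω : Type} [Fintype Ω] (p q : Ω → Prop) [DecidablePred p] [DecidablePred q]
    (h : ∀ x, p x → q x) : (Finset.univ.filter p).card ≤ (Finset.univ.filter q).card :=
  Finset.card_le_card (Finset.monotone_filter_right _ fun a _ => h a)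

/-- the number of arrangements that match -/
theorem sum_mt_le (hCNT : Stmt_CNT) {w : ℕ → S} {x L p o t : ℕ} {τ : ℕ → ℕ}
    {e : ℕ → Fin 12 → S} (hN : Num τ L) (he : ∀ c < 3, Function.Injective (e c)) (hot : o + t ≤ L)
    {c : ℚ} (hc : 0 ≤ c) :
    ∑ σ : Fin 3 → Equiv.Perm (Fin 12), (if mt w x p (fil τ e σ) o t then c else 0) ≤
      (PN τ o t : ℚ) * c := by
  rw [← Finset.sum_filter, Finset.sum_const, nsmul_eq_mul]
  refine mul_le_mul_of_nonneg_right ?_ hc
  have h1 := hCNT S τ L e (fun j => w (x + j - p)) o t he hN.cls hN.cnt hot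
  have h2 := gen (Ω := Fin 3 → Equiv.Perm (Fin 12)) (fun σ => mt w x p (fil τ e σ) o t)
    (fun σ => ∀ j, o ≤ j → j < o + t → fil τ e σ j = w (x + j - p))
    (fun σ hσ j h3 h4 => (hσ j h3 h4).2)
  have h3 := h2.trans h1
  exact Nat.cast_le.mpr h3

/-- the bound for one period -/
def hb (τ : ℕ → ℕ) (L o ε : ℕ) : ℚ :=
  if o + ε ≤ L then (PN τ o ε : ℚ) else (PN τ o (L - o) : ℚ) * (1 / 4) ^ (ε - (L - o))

theorem hb_nonneg (τ : ℕ → ℕ) (L o ε : ℕ) : 0 ≤ hb τ L o ε := by
  unfold hb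
  split_ifs <;> positivity

theorem sum_cB_le (hCNT : Stmt_CNT) {lam : ℚ} {w : ℕ → S} {x L p o : ℕ} {τ : ℕ → ℕ}
    {e : ℕ → Fin 12 → S} (hN : Num τ L) (he : ∀ c < 3, Function.Injective (e c)) (ho : o < L) :
    ∑ σ : Fin 3 → Equiv.Perm (Fin 12), cB lam w x L p o (fil τ e σ) ≤ hb τ L o (ex lam p) := by
  unfold cB hb
  by_cases h : o + ex lam p ≤ L
  · simp only [h, if_true]
    have := sum_mt_le hCNT (w := w) (x := x) (p := p) hN he h (c := 1) zero_le_one
    rwa [mul_one] at this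
  · simp only [h, if_false]
    exact sum_mt_le hCNT hN he (by omega) (by positivity)

theorem fil_mem {L o : ℕ} {τ : ℕ → ℕ} {e : ℕ → Fin 12 → S} {K : ℕ → Finset S} (hN : Num τ L)
    (hK : ∀ c < 3, ∀ s, s ∈ K c ↔ ∃ i, e c i = s) (ho : o < L)
    (σ : Fin 3 → Equiv.Perm (Fin 12)) : fil τ e σ o ∈ K (τ o) :=
  (hK _ (hN.cls o ho) _).mpr ⟨_, rfl⟩

/-- a nonzero cost needs a reference in the right class -/
theorem cB_pos {lam : ℚ} {w : ℕ → S} {x L p o : ℕ} {f : ℕ → S} (ho : o < L) (hp : 2 ≤ ex lam p)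
    (h : cB lam w x L p o f ≠ 0) :
    p ≤ x + o ∧ f o = w (x + o - p) ∧ (o + 2 ≤ L → p ≤ x + (o + 1) ∧
      f (o + 1) = w (x + (o + 1) - p)) := by
  have key : ∃ t, 1 ≤ t ∧ (o + 2 ≤ L → 2 ≤ t) ∧ mt w x p f o t := by
    unfold cB at h
    by_cases h1 : o + ex lam p ≤ L
    · simp only [h1, if_true] at h
      by_cases h2 : mt w x p f o (ex lam p)
      · exact ⟨ex lam p, by omega, fun _ => hp, h2⟩
      · simp [h2] at h
    · simp only [h1, if_false] at h
      by_cases h2 : mt w x p f o (L - o)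
      · exact ⟨L - o, by omega, fun _ => by omega, h2⟩
      · simp [h2] at h
  obtain ⟨t, h1, h2, h3⟩ := key
  have h4 := h3 o le_rfl (by omega)
  exact ⟨h4.1, h4.2, fun h5 => h3 (o + 1) (by omega) (by have := h2 h5; omega)⟩

/-- references with the same excess are different letters -/
theorem inj_ref {lam : ℚ} (hlam : 0 < lam) {w : ℕ → S} {x o p p' : ℕ} (h : Good lam w x)
    (hop : o < p) (hpp : p < p') (hpx : p' ≤ x + o) (he : ex lam p = ex lam p') :
    w (x + o - p) ≠ w (x + o - p') := by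
  intro heq
  have h1 : 1 ≤ mu w (p' - p) (x + o - p + 1) := by
    apply le_mu
    · omega
    · intro i hi
      have hi0 : i = 0 := by omega
      subst hi0
      have e1 : x + o - p + 1 - 1 - 0 = x + o - p := by omega
      have e2 : x + o - p - (p' - p) = x + o - p' := by omega
      rw [e1, e2, heq]
  have h2 := h (p' - p) (by omega) (x + o - p + 1) (by omega)
  have h3 : (1 : ℚ) ≤ (mu w (p' - p) (x + o - p + 1) : ℚ) := by exact_mod_cast h1
  have h4 := ex_lt hlam p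
  have h5 := le_ex (lam := lam) p'
  rw [← he] at h5
  have h6 : ((p' - p : ℕ) : ℚ) = (p' : ℚ) - p := by
    rw [Nat.cast_sub hpp.le]
  rw [h6] at h2
  nlinarith

theorem sum_hb_le {L o : ℕ} {τ : ℕ → ℕ} (T : Finset ℕ)
    (hT : ∀ ε ∈ T, 2 ≤ ε ∧ (o + 2 ≤ L → 3 ≤ ε)) (ho : o < L) :
    ∑ ε ∈ T, hb τ L o ε ≤
      ∑ t ∈ Finset.Icc 3 (L - o), (PN τ o t : ℚ) + (PN τ o (L - o) : ℚ) / 3 := by
  rw [← Finset.sum_filter_add_sum_filter_not T (fun ε => o + ε ≤ L)]
  refine add_le_add ?_ ?_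
  · have h1 : ∑ ε ∈ T.filter (fun ε => o + ε ≤ L), hb τ L o ε =
        ∑ ε ∈ T.filter (fun ε => o + ε ≤ L), (PN τ o ε : ℚ) := by
      refine Finset.sum_congr rfl fun ε hε => ?_
      rw [Finset.mem_filter] at hε
      unfold hb
      rw [if_pos hε.2]
    rw [h1]
    refine Finset.sum_le_sum_of_subset_of_nonneg ?_ fun i _ _ => by positivity
    intro ε hε
    rw [Finset.mem_filter] at hε
    obtain ⟨h2, h3⟩ := hT ε hε.1
    rw [Finset.mem_Icc]
    have := h3 (by omega)
    omega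
  · have h1 : ∑ ε ∈ T.filter (fun ε => ¬ o + ε ≤ L), hb τ L o ε =
        (PN τ o (L - o) : ℚ) * ∑ ε ∈ T.filter (fun ε => ¬ o + ε ≤ L),
          (1 / 4 : ℚ) ^ (ε - (L - o)) := by
      rw [Finset.mul_sum]
      refine Finset.sum_congr rfl fun ε hε => ?_
      rw [Finset.mem_filter] at hε
      unfold hb
      rw [if_neg hε.2]
    rw [h1]
    have h2 : ∑ ε ∈ T.filter (fun ε => ¬ o + ε ≤ L), (1 / 4 : ℚ) ^ (ε - (L - o)) ≤ 1 / 3 := by
      have h3 : ∑ ε ∈ T.filter (fun ε => ¬ o + ε ≤ L), (1 / 4 : ℚ) ^ (ε - (L - o)) =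
          ∑ i ∈ (T.filter (fun ε => ¬ o + ε ≤ L)).image (fun ε => ε - (L - o)),
            (1 / 4 : ℚ) ^ i := by
        rw [Finset.sum_image]
        intro a ha b hb hab
        rw [Finset.mem_coe, Finset.mem_filter] at ha hb
        simp only at hab
        omega
      rw [h3]
      have h4 := geom_quarter ((T.filter (fun ε => ¬ o + ε ≤ L)).image (fun ε => ε - (L - o))) 1
        (by
          intro i hi
          rw [Finset.mem_image] at hi
          obtain ⟨a, ha, rfl⟩ := hi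
          rw [Finset.mem_filter] at ha
          omega)
      refine h4.trans (le_of_eq ?_)
      norm_num
    calc (PN τ o (L - o) : ℚ) * ∑ ε ∈ T.filter (fun ε => ¬ o + ε ≤ L),
          (1 / 4 : ℚ) ^ (ε - (L - o)) ≤ (PN τ o (L - o) : ℚ) * (1 / 3) :=
          mul_le_mul_of_nonneg_left h2 (by positivity)
      _ = (PN τ o (L - o) : ℚ) / 3 := by ring

end SMB_

open SMB_

theorem smb_proof (hCNT : Stmt_CNT) : Stmt_SMB := by
  intro S _ lam w x L τ e K hlam hL hgood hN he hK hpair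
  classical
  set P := (Finset.range (x + L)).filter (fun p => 2 ≤ ex lam p) with hP
  -- exchange the sums
  have h1 : ∑ σ : Fin 3 → Equiv.Perm (Fin 12), ∑ p ∈ P, ∑ o ∈ Finset.range L,
      cB lam w x L p o (fil τ e σ) = ∑ o ∈ Finset.range L, ∑ p ∈ P,
        ∑ σ : Fin 3 → Equiv.Perm (Fin 12), cB lam w x L p o (fil τ e σ) := by
    rw [Finset.sum_comm]
    simp_rw [Finset.sum_comm (s := Finset.univ)]
    rw [Finset.sum_comm]
  rw [h1]
  -- one offset
  have h2 : ∀ o ∈ Finset.range L, ∑ p ∈ P, ∑ σ : Fin 3 → Equiv.Perm (Fin 12),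
      cB lam w x L p o (fil τ e σ) ≤ 12 * (∑ t ∈ Finset.Icc 3 (L - o), (PN τ o t : ℚ) +
        (PN τ o (L - o) : ℚ) / 3) := by
    intro o ho
    rw [Finset.mem_range] at ho
    set Q := P.filter (fun p => p ≤ x + o ∧ w (x + o - p) ∈ K (τ o) ∧
      (o + 2 ≤ L → 3 ≤ ex lam p)) with hQ
    have hop : ∀ p ∈ P, o < p := by
      intro p hp
      rw [hP, Finset.mem_filter] at hp
      by_contra hcon
      have h3 : p ≤ ⌊1 / lam⌋₊ := by omega
      have h4 := (ex_le_one_iff hlam p).mpr h3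
      omega
    have h3 : ∑ p ∈ P, ∑ σ : Fin 3 → Equiv.Perm (Fin 12), cB lam w x L p o (fil τ e σ) =
        ∑ p ∈ Q, ∑ σ : Fin 3 → Equiv.Perm (Fin 12), cB lam w x L p o (fil τ e σ) := by
      rw [hQ]
      symm
      refine Finset.sum_filter_of_ne ?_
      intro p hp hne
      obtain ⟨σ, -, hσ⟩ := Finset.exists_ne_zero_of_sum_ne_zero hne
      have hp2 : 2 ≤ ex lam p := by
        rw [hP, Finset.mem_filter] at hp
        exact hp.2
      obtain ⟨a1, a2, a3⟩ := cB_pos ho hp2 hσ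
      have a4 : w (x + o - p) ∈ K (τ o) := by
        rw [← a2]
        exact fil_mem hN hK ho σ
      refine ⟨a1, a4, fun hoL => ?_⟩
      by_contra hcon
      have h5 : ex lam p = 2 := by omega
      have h6 := hpair o (by omega) p h5 a1 a4
      obtain ⟨-, a5⟩ := a3 hoL
      apply h6
      have h7 : x + o + 1 - p = x + (o + 1) - p := by omega
      rw [h7, ← a5]
      exact fil_mem hN hK (by omega) σ
    rw [h3]
    have h4 : ∑ p ∈ Q, ∑ σ : Fin 3 → Equiv.Perm (Fin 12), cB lam w x L p o (fil τ e σ) ≤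
        ∑ p ∈ Q, hb τ L o (ex lam p) :=
      Finset.sum_le_sum fun p _ => sum_cB_le hCNT hN he ho
    have hcK : (K (τ o)).card ≤ 12 := by
      have h5 : K (τ o) ⊆ Finset.univ.image (e (τ o)) := by
        intro s hs
        obtain ⟨i, hi⟩ := (hK _ (hN.cls o ho) s).mp hs
        exact Finset.mem_image.mpr ⟨i, Finset.mem_univ i, hi⟩
      refine (Finset.card_le_card h5).trans (Finset.card_image_le.trans ?_)
      simp
    have h5 := sum_comp_le Q (ex lam) 12 (hb τ L o) (hb_nonneg τ L o) (by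
      intro ε
      refine le_trans (Finset.card_le_card_of_injOn (fun p => w (x + o - p)) (t := K (τ o)) ?_ ?_)
        hcK
      · intro p hp
        rw [Finset.mem_coe, Finset.mem_filter, hQ, Finset.mem_filter] at hp
        exact hp.1.2.2.1
      · intro p hp p' hp' hpp
        rw [Finset.mem_coe, Finset.mem_filter, hQ, Finset.mem_filter] at hp hp'
        simp only at hpp
        rcases lt_trichotomy p p' with hlt | heq | hgt
        · exact absurd hpp (inj_ref hlam hgood (hop p hp.1.1) hlt hp'.1.2.1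
            (hp.2.trans hp'.2.symm))
        · exact heq
        · exact absurd hpp.symm (inj_ref hlam hgood (hop p' hp'.1.1) hgt hp.1.2.1
            (hp'.2.trans hp.2.symm)))
    have h6 := sum_hb_le (τ := τ) (L := L) (o := o) (Q.image (ex lam)) (by
      intro ε hε
      rw [Finset.mem_image] at hε
      obtain ⟨p, hp, rfl⟩ := hε
      rw [hQ, Finset.mem_filter, hP, Finset.mem_filter] at hp
      exact ⟨hp.1.2, hp.2.2.2⟩) ho
    refine (h4.trans h5).trans ?_
    push_cast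
    exact mul_le_mul_of_nonneg_left h6 (by norm_num)
  have h3 := Finset.sum_le_sum h2
  have h4 : (3 * (∑ o ∈ Finset.range L, ∑ t ∈ Finset.Icc 3 (L - o), 12 * (PN τ o t : ℚ)) +
    ∑ o ∈ Finset.range L, 12 * (PN τ o (L - o) : ℚ)) ≤ 2 * (Nat.factorial 12 : ℚ) ^ 3 := by
    have := hN.tot
    exact_mod_cast this
  have h5 : 3 * ∑ o ∈ Finset.range L, 12 * (∑ t ∈ Finset.Icc 3 (L - o), (PN τ o t : ℚ) +
        (PN τ o (L - o) : ℚ) / 3) =
      3 * (∑ o ∈ Finset.range L, ∑ t ∈ Finset.Icc 3 (L - o), 12 * (PN τ o t : ℚ)) +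
    ∑ o ∈ Finset.range L, 12 * (PN τ o (L - o) : ℚ) := by
    simp_rw [← Finset.mul_sum]
    simp_rw [Finset.sum_add_distrib]
    rw [← Finset.sum_div]
    ring
  calc 3 * ∑ o ∈ Finset.range L, ∑ p ∈ P,
        ∑ σ : Fin 3 → Equiv.Perm (Fin 12), cB lam w x L p o (fil τ e σ)
      ≤ 3 * ∑ o ∈ Finset.range L, 12 * (∑ t ∈ Finset.Icc 3 (L - o), (PN τ o t : ℚ) +
        (PN τ o (L - o) : ℚ) / 3) := mul_le_mul_of_nonneg_left h3 (by norm_num)
    _ = _ := h5
    _ ≤ 2 * (Nat.factorial 12 : ℚ) ^ 3 := h4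

end TRP
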