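import Pool.Agent.TRP.Stmts

set_option autoImplicit false

namespace TRP

open Pool.Agent.Helper85.PowerFree

namespace SOR_

theorem asg_rot {S : Type} {r : ℕ} {A : Finset S} {φ : S → ℕ × ℕ} (h : Asg r A φ) {i : ℕ}
    (hi : i < r) : Asg r A (rot i φ) := by
  refine ⟨fun c hc => ?_, fun i' hi' c hc => ?_⟩
  · obtain ⟨h1, h2⟩ := h.1 c hc
    unfold rot
    split_ifs with h3
    · exact ⟨hi, Nat.mod_lt _ (by norm_num)⟩
    · exact ⟨h1, h2⟩
  · by_cases hii : i' = i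
    · subst hii
      rw [← h.2 i' hi' ((c + 1) % 3) (Nat.mod_lt _ (by norm_num))]
      congr 1
      refine Finset.filter_congr fun a ha => ?_
      obtain ⟨h1, h2⟩ := h.1 a ha
      unfold rot
      split_ifs with h3
      · constructor
        · intro h4
          have h5 : ((φ a).2 + 2) % 3 = c := (Prod.ext_iff.mp h4).2
          refine Prod.ext h3 ?_
          simp only
          omega
        · intro h4
          have h5 : (φ a).2 = (c + 1) % 3 := (Prod.ext_iff.mp h4).2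
          refine Prod.ext rfl ?_
          simp only
          omega
      · constructor
        · intro h4
          exact absurd (Prod.ext_iff.mp h4).1 h3
        · intro h4
          exact absurd (Prod.ext_iff.mp h4).1 h3
    · rw [← h.2 i' hi' c hc]
      congr 1
      refine Finset.filter_congr fun a ha => ?_
      unfold rot
      split_ifs with h3
      · constructor
        · intro h4
          exact absurd (Prod.ext_iff.mp h4).1.symm hii
        · intro h4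
          exact absurd ((Prod.ext_iff.mp h4).1.symm.trans h3) hii
      · rfl

theorem swap_mem {S : Type} [DecidableEq S] {A : Finset S} {a b c : S} (ha : a ∈ A) (hb : b ∈ A)
    (hc : c ∈ A) : Equiv.swap a b c ∈ A := by
  rw [Equiv.swap_apply_def]
  split_ifs <;> assumption

theorem asg_swap {S : Type} [DecidableEq S] {r : ℕ} {A : Finset S} {φ : S → ℕ × ℕ}
    (h : Asg r A φ) {a b : S} (ha : a ∈ A) (hb : b ∈ A) : Asg r A (φ ∘ Equiv.swap a b) := by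
  refine ⟨fun c hc => h.1 _ (swap_mem ha hb hc), fun i hi c hc => ?_⟩
  rw [← h.2 i hi c hc]
  refine Finset.card_bij (fun x _ => Equiv.swap a b x) ?_ ?_ ?_
  · intro x hx
    rw [Finset.mem_filter] at hx ⊢
    exact ⟨swap_mem ha hb hx.1, hx.2⟩
  · intro x _ y _ hxy
    exact (Equiv.swap a b).injective hxy
  · intro y hy
    rw [Finset.mem_filter] at hy
    refine ⟨Equiv.swap a b y, ?_, Equiv.swap_apply_self a b y⟩
    rw [Finset.mem_filter]
    refine ⟨swap_mem ha hb hy.1, ?_⟩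
    simp only [Function.comp_apply, Equiv.swap_apply_self]
    exact hy.2

end SOR_

open SOR_ in
theorem sor_proof (hSRT : Stmt_SRT) (hNXT : Stmt_NXT) (hFIT : Stmt_FIT) : Stmt_SOR := by
  intro S _ lam w x r A v ψ hlam hq hr hA hSt hψ
  have hmove : ∀ (φ φ' : S → ℕ × ℕ) (w1 : ℕ → S) (x1 : ℕ) (v1 : S → ℕ), Asg r A φ → Asg r A φ' →
      (φ' = φ ∨ (∃ i < r, φ' = rot i φ) ∨ ∃ a ∈ A, ∃ b ∈ A, (φ a).2 = 2 ∧ (φ b).2 = 2 ∧
      (φ b).1 = (φ a).1 + 1 ∧ φ' = φ ∘ Equiv.swap a b) →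
      x ≤ x1 → (∀ i < x, w1 i = w i) → St lam w1 x1 (36 * r) A v1 →
      Fits x1 (36 * r) A v1 pT φ →
      ∃ (w' : ℕ → S) (x' : ℕ) (v' : S → ℕ), x ≤ x' ∧ (∀ i < x, w' i = w i) ∧
        St lam w' x' (36 * r) A v' ∧ Fits x' (36 * r) A v' pT φ' := by
    intro φ φ' w1 x1 v1 hφ hφ' hcase hx1 hw1 hSt1 hFit1
    obtain ⟨w2, hw2, -, v2, hSt2, hFit2⟩ := hNXT S lam w1 x1 r A v1 φ φ' pT pC hlam hq hr hA hSt1
      hFit1 hφ hφ' (Or.inl ⟨rfl, rfl⟩) hcase
    obtain ⟨w3, hw3, -, v3, hSt3, hFit3⟩ := hNXT S lam w2 (x1 + 36 * r) r A v2 φ' φ' pC pT hlam hq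
      hr hA hSt2 hFit2 hφ' hφ' (Or.inr (Or.inl ⟨rfl, rfl, rfl⟩)) (Or.inl rfl)
    refine ⟨w3, x1 + 36 * r + 36 * r, v3, by omega, fun i hi => ?_, hSt3, hFit3⟩
    rw [hw3 i (by omega), hw2 i (by omega), hw1 i hi]
  have h0 := hFIT S lam w x r A v pT hA hSt (Or.inl rfl)
  refine hSRT S A r (fun φ => ∃ (w' : ℕ → S) (x' : ℕ) (v' : S → ℕ), x ≤ x' ∧
      (∀ i < x, w' i = w i) ∧ St lam w' x' (36 * r) A v' ∧ Fits x' (36 * r) A v' pT φ)
    (by omega) ?_ ?_ ?_ _ ψ h0 hψ ⟨w, x, v, le_rfl, fun _ _ => rfl, hSt, fun c _ => rfl⟩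
  · rintro φ φ' hφφ ⟨w1, x1, v1, hx1, hw1, hSt1, hFit1⟩
    exact ⟨w1, x1, v1, hx1, hw1, hSt1, fun c hc => (hφφ c hc).symm.trans (hFit1 c hc)⟩
  · rintro φ i hφ hi ⟨w1, x1, v1, hx1, hw1, hSt1, hFit1⟩
    exact hmove φ (rot i φ) w1 x1 v1 hφ (asg_rot hφ hi) (Or.inr (Or.inl ⟨i, hi, rfl⟩)) hx1 hw1
      hSt1 hFit1
  · rintro φ a b hφ ha hb ha2 hb2 hab ⟨w1, x1, v1, hx1, hw1, hSt1, hFit1⟩
    exact hmove φ (φ ∘ Equiv.swap a b) w1 x1 v1 hφ (asg_swap hφ ha hb)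
      (Or.inr (Or.inr ⟨a, ha, b, hb, ha2, hb2, hab, rfl⟩)) hx1 hw1 hSt1 hFit1

end TRP
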