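import Pool.Agent.TRP.Stmts

set_option autoImplicit false

namespace TRP

open Pool.Agent.Helper85.PowerFree

namespace SRT_

variable {S : Type} [DecidableEq S]

lemma sw2 (a b x : S) : Equiv.swap a b (Equiv.swap a b x) = x := by
  simp

lemma sw_mem {A : Finset S} {a b : S} (ha : a ∈ A) (hb : b ∈ A) {c : S} (hc : c ∈ A) :
    Equiv.swap a b c ∈ A := by
  rw [Equiv.swap_apply_def]
  split_ifs
  · exact hb
  · exact ha
  · exact hc

lemma asg_swap {r : ℕ} {A : Finset S} {φ : S → ℕ × ℕ} (h : Asg r A φ) {a b : S} (ha : a ∈ A)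
    (hb : b ∈ A) : Asg r A (φ ∘ Equiv.swap a b) := by
  refine ⟨fun c hc => h.1 _ (sw_mem ha hb hc), fun i hi c hc => ?_⟩
  rw [← h.2 i hi c hc]
  refine Finset.card_nbij' (Equiv.swap a b) (Equiv.swap a b) ?_ ?_ ?_ ?_
  · intro x hx
    simp only [Finset.coe_filter, Set.mem_setOf_eq, Function.comp] at hx ⊢
    exact ⟨sw_mem ha hb hx.1, hx.2⟩
  · intro x hx
    simp only [Finset.coe_filter, Set.mem_setOf_eq, Function.comp] at hx ⊢
    refine ⟨sw_mem ha hb hx.1, ?_⟩
    rw [sw2]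
    exact hx.2
  · intro x _
    exact sw2 a b x
  · intro x _
    exact sw2 a b x

lemma asg_rot {r : ℕ} {A : Finset S} {φ : S → ℕ × ℕ} (h : Asg r A φ) (i : ℕ) :
    Asg r A (rot i φ) := by
  constructor
  · intro c hc
    have h1 := h.1 c hc
    unfold rot
    by_cases h2 : (φ c).1 = i
    · rw [if_pos h2]
      exact ⟨h2 ▸ h1.1, Nat.mod_lt _ (by norm_num)⟩
    · rw [if_neg h2]
      exact h1
  · intro i' hi' c hc
    by_cases h3 : i' = i
    · rw [← h.2 i' hi' ((c + 1) % 3) (Nat.mod_lt _ (by norm_num))]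
      congr 1
      refine Finset.filter_congr fun x hx => ?_
      have h1 := (h.1 x hx).2
      unfold rot
      by_cases h2 : (φ x).1 = i
      · rw [if_pos h2, Prod.ext_iff, Prod.ext_iff]
        simp only
        constructor
        · rintro ⟨_, h5⟩
          exact ⟨by omega, by omega⟩
        · rintro ⟨_, h5⟩
          exact ⟨by omega, by omega⟩
      · rw [if_neg h2, Prod.ext_iff, Prod.ext_iff]
        simp only
        constructor
        · rintro ⟨h4, _⟩
          omega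
        · rintro ⟨h4, _⟩
          omega
    · rw [← h.2 i' hi' c hc]
      congr 1
      refine Finset.filter_congr fun x hx => ?_
      unfold rot
      by_cases h2 : (φ x).1 = i
      · rw [if_pos h2, Prod.ext_iff, Prod.ext_iff]
        simp only
        constructor
        · rintro ⟨h4, _⟩
          omega
        · rintro ⟨h4, _⟩
          omega
      · rw [if_neg h2]

lemma rot_comp (i : ℕ) (φ : S → ℕ × ℕ) (σ : Equiv.Perm S) : rot i (φ ∘ σ) = rot i φ ∘ σ := rfl

lemma rot_three {r : ℕ} {A : Finset S} {φ : S → ℕ × ℕ} (h : Asg r A φ) (i : ℕ) :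
    ∀ c ∈ A, rot i (rot i (rot i φ)) c = φ c := by
  intro c hc
  have h1 := (h.1 c hc).2
  by_cases h2 : (φ c).1 = i
  · have e1 : rot i φ c = (i, ((φ c).2 + 2) % 3) := by
      unfold rot
      rw [if_pos h2]
    have e2 : rot i (rot i φ) c = (i, (((φ c).2 + 2) % 3 + 2) % 3) := by
      rw [rot, e1, if_pos rfl]
    have e3 : rot i (rot i (rot i φ)) c = (i, ((((φ c).2 + 2) % 3 + 2) % 3 + 2) % 3) := by
      rw [rot, e2, if_pos rfl]
    rw [e3, Prod.ext_iff]
    simp only
    exact ⟨h2.symm, by omega⟩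
  · have e1 : rot i φ c = φ c := by
      unfold rot
      rw [if_neg h2]
    have e2 : rot i (rot i φ) c = φ c := by
      rw [rot, e1, if_neg h2]
    rw [rot, e2, if_neg h2]

lemma rot_val {i : ℕ} {φ : S → ℕ × ℕ} {c : S} (h : (φ c).1 = i) :
    rot i φ c = (i, ((φ c).2 + 2) % 3) := by
  unfold rot
  rw [if_pos h]

lemma rot_val' {i : ℕ} {φ : S → ℕ × ℕ} {c : S} (h : (φ c).1 ≠ i) :
    rot i φ c = φ c := by
  unfold rot
  rw [if_neg h]

lemma rot_grp (i : ℕ) (φ : S → ℕ × ℕ) (c : S) : (rot i φ c).1 = (φ c).1 := by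
  by_cases h : (φ c).1 = i
  · rw [rot_val h]
    exact h.symm
  · rw [rot_val' h]

section

variable {A : Finset S} {r : ℕ} {Q : (S → ℕ × ℕ) → Prop}

lemma rot_iff (hcg : ∀ φ φ' : S → ℕ × ℕ, (∀ c ∈ A, φ c = φ' c) → Q φ → Q φ')
    (hrot : ∀ (φ : S → ℕ × ℕ) (i : ℕ), Asg r A φ → i < r → Q φ → Q (rot i φ))
    {φ : S → ℕ × ℕ} (h : Asg r A φ) {i : ℕ} (hi : i < r) : Q (rot i φ) ↔ Q φ := by
  constructor
  · intro h1
    have h2 := hrot _ i (asg_rot h i) hi h1
    have h3 := hrot _ i (asg_rot (asg_rot h i) i) hi h2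
    exact hcg _ _ (rot_three h i) h3
  · exact hrot φ i h hi

/-- moving the class of `b` -/
lemma step1 (hcg : ∀ φ φ' : S → ℕ × ℕ, (∀ c ∈ A, φ c = φ' c) → Q φ → Q φ')
    (hrot : ∀ (φ : S → ℕ × ℕ) (i : ℕ), Asg r A φ → i < r → Q φ → Q (rot i φ))
    (hsw : ∀ (φ : S → ℕ × ℕ) (a b : S), Asg r A φ → a ∈ A → b ∈ A → (φ a).2 = 2 → (φ b).2 = 2 →
      (φ b).1 = (φ a).1 + 1 → Q φ → Q (φ ∘ Equiv.swap a b))
    {φ : S → ℕ × ℕ} {a b : S} (h : Asg r A φ) (ha : a ∈ A) (hb : b ∈ A)
    (hg : (φ b).1 = (φ a).1 + 1) (hQ : Q φ) : Q (φ ∘ Equiv.swap a b) := by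
  -- general claim by the number of rotations
  have key : ∀ n : ℕ, ∀ φ : S → ℕ × ℕ, Asg r A φ → (φ b).1 = (φ a).1 + 1 →
      ((((φ a).2 + 1) % 3) +
        (((φ b).2 + 1) % 3)) = n → Q φ → Q (φ ∘ Equiv.swap a b) := by
    intro n
    induction n with
    | zero =>
      intro φ h hg hn hQ
      have h1 := (h.1 a ha).2
      have h2 := (h.1 b hb).2
      exact hsw φ a b h ha hb (by omega) (by omega) hg hQ
    | succ n ih =>
      intro φ h hg hn hQ
      have h1 := (h.1 a ha).2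
      have h2 := (h.1 b hb).2
      by_cases h3 : ((φ a).2 + 1) % 3 = 0
      · -- rotate the group of b
        have hne : (φ a).1 ≠ (φ b).1 := by omega
        have e1 : rot (φ b).1 φ a = φ a := rot_val' hne
        have e2 : rot (φ b).1 φ b = ((φ b).1, ((φ b).2 + 2) % 3) := rot_val rfl
        have h4 := ih (rot (φ b).1 φ) (asg_rot h _) (by rw [rot_grp, rot_grp]; exact hg)
          (by rw [e1, e2]; simp only; omega) ((rot_iff hcg hrot h (h.1 b hb).1).2 hQ)
        rw [← rot_comp] at h4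
        exact (rot_iff hcg hrot (asg_swap h ha hb) (h.1 b hb).1).1 h4
      · have hne : (φ b).1 ≠ (φ a).1 := by omega
        have e1 : rot (φ a).1 φ b = φ b := rot_val' hne
        have e2 : rot (φ a).1 φ a = ((φ a).1, ((φ a).2 + 2) % 3) := rot_val rfl
        have h4 := ih (rot (φ a).1 φ) (asg_rot h _) (by rw [rot_grp, rot_grp]; exact hg)
          (by rw [e1, e2]; simp only; omega) ((rot_iff hcg hrot h (h.1 a ha).1).2 hQ)
        rw [← rot_comp] at h4
        exact (rot_iff hcg hrot (asg_swap h ha hb) (h.1 a ha).1).1 h4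
  exact key _ φ h hg rfl hQ

lemma exists_in {φ : S → ℕ × ℕ} (h : Asg r A φ) {j : ℕ} (hj : j < r) :
    ∃ c ∈ A, (φ c).1 = j := by
  have h1 := h.2 j hj 0 (by norm_num)
  have h2 : (A.filter fun a => φ a = (j, 0)).Nonempty := by
    rw [← Finset.card_pos, h1]
    norm_num
  obtain ⟨c, hc⟩ := h2
  rw [Finset.mem_filter] at hc
  exact ⟨c, hc.1, by rw [hc.2]⟩

lemma comp3 {a b c : S} (hab : a ≠ b) (hac : a ≠ c) (hbc : b ≠ c) (φ : S → ℕ × ℕ) :
    ((φ ∘ Equiv.swap c b) ∘ Equiv.swap a b) ∘ Equiv.swap a c = φ ∘ Equiv.swap a b := by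
  funext x
  simp only [Function.comp]
  congr 1
  by_cases h1 : x = a
  · subst h1
    rw [Equiv.swap_apply_left, Equiv.swap_apply_of_ne_of_ne hac.symm hbc.symm,
      Equiv.swap_apply_left, Equiv.swap_apply_left]
  · by_cases h2 : x = b
    · subst h2
      rw [Equiv.swap_apply_of_ne_of_ne hab.symm hbc, Equiv.swap_apply_right,
        Equiv.swap_apply_of_ne_of_ne hac hab]
    · by_cases h3 : x = c
      · subst h3
        rw [Equiv.swap_apply_right, Equiv.swap_apply_left, Equiv.swap_apply_right,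
          Equiv.swap_apply_of_ne_of_ne hac.symm hbc.symm]
      · rw [Equiv.swap_apply_of_ne_of_ne h1 h3, Equiv.swap_apply_of_ne_of_ne h1 h2,
          Equiv.swap_apply_of_ne_of_ne h3 h2]

lemma comp3' {a b c : S} (hab : a ≠ b) (hac : a ≠ c) (hbc : b ≠ c) (φ : S → ℕ × ℕ) :
    ((φ ∘ Equiv.swap a c) ∘ Equiv.swap a b) ∘ Equiv.swap b c = φ ∘ Equiv.swap a b := by
  funext x
  simp only [Function.comp]
  congr 1
  by_cases h1 : x = a
  · subst h1
    rw [Equiv.swap_apply_of_ne_of_ne hab hac, Equiv.swap_apply_left,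
      Equiv.swap_apply_of_ne_of_ne hab.symm hbc]
  · by_cases h2 : x = b
    · subst h2
      rw [Equiv.swap_apply_left, Equiv.swap_apply_of_ne_of_ne hac.symm hbc.symm,
        Equiv.swap_apply_right, Equiv.swap_apply_right]
    · by_cases h3 : x = c
      · subst h3
        rw [Equiv.swap_apply_right, Equiv.swap_apply_right, Equiv.swap_apply_left,
          Equiv.swap_apply_of_ne_of_ne hac.symm hbc.symm]
      · rw [Equiv.swap_apply_of_ne_of_ne h2 h3, Equiv.swap_apply_of_ne_of_ne h1 h2,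
          Equiv.swap_apply_of_ne_of_ne h1 h3]

/-- exchange between arbitrary different groups -/
lemma step2 (h1 : ∀ (φ : S → ℕ × ℕ) (a b : S), Asg r A φ → a ∈ A → b ∈ A →
      (φ b).1 = (φ a).1 + 1 → Q φ → Q (φ ∘ Equiv.swap a b)) :
    ∀ (d : ℕ) (φ : S → ℕ × ℕ) (a b : S), Asg r A φ → a ∈ A → b ∈ A →
      (φ b).1 = (φ a).1 + (d + 1) → Q φ → Q (φ ∘ Equiv.swap a b) := by
  intro d
  induction d with
  | zero =>
    intro φ a b h ha hb hg hQ
    exact h1 φ a b h ha hb (by omega) hQ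
  | succ d ih =>
    intro φ a b h ha hb hg hQ
    have hlt := (h.1 b hb).1
    obtain ⟨c, hc, hcg⟩ := exists_in h (show (φ a).1 + (d + 1) < r by omega)
    have hab : a ≠ b := by
      rintro rfl
      omega
    have hac : a ≠ c := by
      rintro rfl
      omega
    have hbc : b ≠ c := by
      rintro rfl
      omega
    have q1 := h1 φ c b h hc hb (by omega) hQ
    have a1 := asg_swap h hc hb
    have v1 : (φ ∘ Equiv.swap c b) a = φ a := by
      simp only [Function.comp]
      rw [Equiv.swap_apply_of_ne_of_ne hac hab]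
    have v2 : (φ ∘ Equiv.swap c b) b = φ c := by
      simp only [Function.comp]
      rw [Equiv.swap_apply_right]
    have v3 : (φ ∘ Equiv.swap c b) c = φ b := by
      simp only [Function.comp]
      rw [Equiv.swap_apply_left]
    have q2 := ih (φ ∘ Equiv.swap c b) a b a1 ha hb (by rw [v1, v2]; exact hcg) q1
    have a2 := asg_swap a1 ha hb
    have w1 : ((φ ∘ Equiv.swap c b) ∘ Equiv.swap a b) a = φ c := by
      rw [Function.comp, Equiv.swap_apply_left, v2]
    have w2 : ((φ ∘ Equiv.swap c b) ∘ Equiv.swap a b) c = φ b := by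
      rw [Function.comp, Equiv.swap_apply_of_ne_of_ne hac.symm hbc.symm, v3]
    have q3 := h1 _ a c a2 ha hc (by rw [w1, w2]; omega) q2
    rw [comp3 hab hac hbc] at q3
    exact q3

lemma step2' (h1 : ∀ (φ : S → ℕ × ℕ) (a b : S), Asg r A φ → a ∈ A → b ∈ A →
      (φ b).1 = (φ a).1 + 1 → Q φ → Q (φ ∘ Equiv.swap a b))
    (φ : S → ℕ × ℕ) (a b : S) (h : Asg r A φ) (ha : a ∈ A) (hb : b ∈ A)
    (hg : (φ a).1 ≠ (φ b).1) (hQ : Q φ) : Q (φ ∘ Equiv.swap a b) := by
  rcases lt_or_gt_of_ne hg with h2 | h2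
  · exact step2 h1 ((φ b).1 - (φ a).1 - 1) φ a b h ha hb (by omega) hQ
  · rw [Equiv.swap_comm]
    exact step2 h1 ((φ a).1 - (φ b).1 - 1) φ b a h hb ha (by omega) hQ

lemma step3 (hr : 2 ≤ r) (h1 : ∀ (φ : S → ℕ × ℕ) (a b : S), Asg r A φ → a ∈ A → b ∈ A →
      (φ b).1 = (φ a).1 + 1 → Q φ → Q (φ ∘ Equiv.swap a b))
    (φ : S → ℕ × ℕ) (a b : S) (h : Asg r A φ) (ha : a ∈ A) (hb : b ∈ A)
    (hQ : Q φ) : Q (φ ∘ Equiv.swap a b) := by
  by_cases hg : (φ a).1 = (φ b).1
  · by_cases hab : a = b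
    · subst hab
      rw [Equiv.swap_self]
      exact hQ
    · have hlt := (h.1 b hb).1
      obtain ⟨c, hc, hcg⟩ : ∃ c ∈ A, (φ c).1 ≠ (φ a).1 := by
        by_cases h0 : (φ a).1 = 0
        · obtain ⟨c, hc, hc1⟩ := exists_in h (show 1 < r by omega)
          exact ⟨c, hc, by omega⟩
        · obtain ⟨c, hc, hc1⟩ := exists_in h (show 0 < r by omega)
          exact ⟨c, hc, by omega⟩
      have hac : a ≠ c := by
        rintro rfl
        exact hcg rfl
      have hbc : b ≠ c := by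
        rintro rfl
        exact hcg hg.symm
      have q1 := step2' h1 φ a c h ha hc hcg.symm hQ
      have a1 := asg_swap h ha hc
      have v1 : (φ ∘ Equiv.swap a c) a = φ c := by
        rw [Function.comp, Equiv.swap_apply_left]
      have v2 : (φ ∘ Equiv.swap a c) b = φ b := by
        rw [Function.comp, Equiv.swap_apply_of_ne_of_ne (Ne.symm hab) hbc]
      have v3 : (φ ∘ Equiv.swap a c) c = φ a := by
        rw [Function.comp, Equiv.swap_apply_right]
      have q2 := step2' h1 _ a b a1 ha hb (by rw [v1, v2, ← hg]; exact hcg) q1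
      have a2 := asg_swap a1 ha hb
      have w1 : ((φ ∘ Equiv.swap a c) ∘ Equiv.swap a b) b = φ c := by
        rw [Function.comp, Equiv.swap_apply_right, v1]
      have w2 : ((φ ∘ Equiv.swap a c) ∘ Equiv.swap a b) c = φ a := by
        rw [Function.comp, Equiv.swap_apply_of_ne_of_ne hac.symm hbc.symm, v3]
      have q3 := step2' h1 _ b c a2 hb hc (by rw [w1, w2]; exact hcg) q2
      rw [comp3' hab hac hbc] at q3
      exact q3
  · exact step2' h1 φ a b h ha hb hg hQ

lemma step4 (hcg : ∀ φ φ' : S → ℕ × ℕ, (∀ c ∈ A, φ c = φ' c) → Q φ → Q φ')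
    (hs : ∀ (φ : S → ℕ × ℕ) (a b : S), Asg r A φ → a ∈ A → b ∈ A →
      Q φ → Q (φ ∘ Equiv.swap a b)) (ψ : S → ℕ × ℕ) (hψ : Asg r A ψ) :
    ∀ (n : ℕ) (φ : S → ℕ × ℕ), Asg r A φ → (A.filter fun c => φ c ≠ ψ c).card ≤ n →
      Q φ → Q ψ := by
  intro n
  induction n with
  | zero =>
    intro φ h hn hQ
    refine hcg φ ψ (fun c hc => ?_) hQ
    have h1 : (A.filter fun c => φ c ≠ ψ c) = ∅ := by
      rw [← Finset.card_eq_zero]
      omega
    by_contra h2
    have h3 : c ∈ (A.filter fun c => φ c ≠ ψ c) := Finset.mem_filter.2 ⟨hc, h2⟩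
    rw [h1] at h3
    simp at h3
  | succ n ih =>
    intro φ h hn hQ
    by_cases h0 : (A.filter fun c => φ c ≠ ψ c) = ∅
    · exact ih φ h (by rw [h0]; simp) hQ
    · obtain ⟨a, ha⟩ := Finset.nonempty_iff_ne_empty.2 h0
      rw [Finset.mem_filter] at ha
      obtain ⟨haA, hne⟩ := ha
      have c1 : (A.filter fun x => φ x = ψ a).card = 12 := h.2 _ (hψ.1 a haA).1 _ (hψ.1 a haA).2
      have c2 : (A.filter fun x => ψ x = ψ a).card = 12 := hψ.2 _ (hψ.1 a haA).1 _ (hψ.1 a haA).2
      obtain ⟨b, hb1, hb2⟩ : ∃ b ∈ A.filter (fun x => φ x = ψ a),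
          b ∉ A.filter (fun x => ψ x = ψ a) := by
        by_contra hcon
        push Not at hcon
        have hsub : A.filter (fun x => φ x = ψ a) ⊆ A.filter (fun x => ψ x = ψ a) := hcon
        have heq := Finset.eq_of_subset_of_card_le hsub (by rw [c1, c2])
        have h5 : a ∈ A.filter (fun x => φ x = ψ a) := by
          rw [heq]
          exact Finset.mem_filter.2 ⟨haA, rfl⟩
        exact hne (Finset.mem_filter.1 h5).2
      rw [Finset.mem_filter] at hb1
      have hbψ : ψ b ≠ ψ a := fun h5 => hb2 (Finset.mem_filter.2 ⟨hb1.1, h5⟩)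
      have hab : a ≠ b := by
        rintro rfl
        exact hbψ rfl
      refine ih (φ ∘ Equiv.swap a b) (asg_swap h haA hb1.1) ?_ (hs φ a b h haA hb1.1 hQ)
      have hsub : (A.filter fun c => (φ ∘ Equiv.swap a b) c ≠ ψ c) ⊆
          (A.filter fun c => φ c ≠ ψ c).erase a := by
        intro x hx
        rw [Finset.mem_filter] at hx
        rw [Finset.mem_erase, Finset.mem_filter]
        have hxa : x ≠ a := by
          rintro rfl
          apply hx.2
          rw [Function.comp, Equiv.swap_apply_left]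
          exact hb1.2
        refine ⟨hxa, hx.1, ?_⟩
        by_cases hxb : x = b
        · subst hxb
          rw [hb1.2]
          exact hbψ.symm
        · have h6 := hx.2
          rw [Function.comp, Equiv.swap_apply_of_ne_of_ne hxa hxb] at h6
          exact h6
      have h7 := Finset.card_le_card hsub
      rw [Finset.card_erase_of_mem (Finset.mem_filter.2 ⟨haA, hne⟩)] at h7
      omega

end

end SRT_

open SRT_ in
theorem srt_proof : Stmt_SRT := by
  intro S _ A r Q hr hcg hrot hsw φ ψ hφ hψ hQ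
  refine step4 hcg ?_ ψ hψ _ φ hφ le_rfl hQ
  intro φ a b h ha hb hQ
  refine step3 hr ?_ φ a b h ha hb hQ
  intro φ a b h ha hb hg hQ
  exact step1 hcg hrot hsw h ha hb hg hQ

end TRP
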