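import Pool.Agent.TRP.Stmts

set_option autoImplicit false

namespace TRP

open Pool.Agent.Helper85.PowerFree

theorem sta_proof (hINI : Stmt_INI) : Stmt_STA := by
  intro S _ _ lam A u hlam hcard hu
  have hne : Nonempty S := by
    rw [← Fintype.card_pos_iff]; omega
  obtain ⟨d⟩ := hne
  obtain ⟨M₀, hM₀⟩ := exists_start S hlam hcard (max u.length A.card)
  obtain ⟨w₀, hw₀, hNB⟩ := hu M₀
  have hG := (NB_iff_good hlam (u ++ w₀) d).mp hNB
  obtain ⟨t, ht1, ht2, c, hgood, hpot⟩ := hM₀ _ (hG.mono (by simp; omega))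
  have ht3 : u.length ≤ t := le_trans (le_max_left _ _) ht1
  have ht4 : A.card ≤ t := le_trans (le_max_right _ _) ht1
  set x : ℕ → S := Function.update (fun i => (u ++ w₀).getD i d) t c with hx
  obtain ⟨v, hv⟩ := hINI S lam x (t + 1) A (by omega) hgood hpot
  refine ⟨x, t + 1, v, by omega, ?_, hv⟩
  intro i hi
  rw [hx, Function.update_of_ne (by omega)]
  rw [List.getD_eq_getElem?_getD, List.getElem?_append_left hi, List.getElem?_eq_getElem hi]
  rfl

end TRP
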