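import Pool.Agent.TRP.Stmts

/-!
# Squad TRP (MP_8b7919_co), module TRA: the transition property
-/

set_option autoImplicit false

namespace TRP

open Pool.Agent.Helper85.PowerFree

namespace TRA_

/-- reflection of the groups -/
theorem asg_refl {S : Type} [DecidableEq S] {r : ℕ} {A : Finset S} {φ : S → ℕ × ℕ}
    (h : Asg r A φ) : Asg r A (fun c => (r - 1 - (φ c).1, (φ c).2)) := by
  refine ⟨fun c hc => ?_, fun i hi c hc => ?_⟩
  · have := h.1 c hc
    exact ⟨by simp only; omega, this.2⟩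
  · rw [← h.2 (r - 1 - i) (by omega) c hc]
    congr 1
    apply Finset.filter_congr
    intro a ha
    have h1 := h.1 a ha
    constructor
    · intro h2
      rw [Prod.mk.injEq] at h2
      ext
      · simp only; omega
      · simp only; exact h2.2
    · intro h2
      simp only [h2]
      ext
      · simp only; omega
      · rfl

end TRA_

open TRA_ in
theorem tra_proof (hLFT : Stmt_LFT) (hRGT : Stmt_RGT) (hTYP : Stmt_TYP) (hMET : Stmt_MET) :
    Stmt_TRA := by
  classical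
  intro S _ _ lam u v hlam hq hcard hu hv
  obtain ⟨r, hr⟩ : ∃ r, r = (Fintype.card S - 1) / 36 := ⟨_, rfl⟩
  have hr1 : 36 * r ≤ Fintype.card S - 1 := by
    rw [hr]; exact Nat.mul_div_le _ _
  have hr2 : ⌊1 / lam⌋₊ + 48 ≤ 36 * r := by omega
  obtain ⟨A, -, hA⟩ := Finset.exists_subset_card_eq
    (show 36 * r ≤ (Finset.univ : Finset S).card by rw [Finset.card_univ]; omega)
  obtain ⟨z, hz⟩ : ∃ z, z ∉ A := by
    by_contra hcon
    push Not at hcon
    have h1 : A = Finset.univ := Finset.eq_univ_iff_forall.mpr hcon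
    rw [h1, Finset.card_univ] at hA
    omega
  obtain ⟨Y0, φ, hφ, hR⟩ := hRGT S lam r A v.reverse hlam hq (by omega) hr2 hA hv
  obtain ⟨X0, hL⟩ := hLFT S lam r A u (fun c => (r - 1 - (φ c).1, (φ c).2)) hlam hq (by omega)
    hr2 hA (asg_refl hφ) hu
  obtain ⟨k, hk⟩ := exists_nat_gt
    ((((u ++ X0).length + (v.reverse ++ Y0).length + 3 : ℕ) : ℚ) / lam)
  obtain ⟨P, hP1, hP2, hP3⟩ := hL k
  obtain ⟨R, hR1, hR2, hR3⟩ := hR k
  obtain ⟨t1, t2, t3⟩ := hTYP S r k ⌊1 / lam⌋₊ A φ (fun c => (r - 1 - (φ c).1, (φ c).2)) P R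
    (by omega) hr2 hP1 hR1 hP2 hR2 (fun c _ => rfl) (fun c hc => (hφ.1 c hc).1)
  have hzP : z ∉ P := by
    intro h
    obtain ⟨j, hj, rfl⟩ := List.mem_iff_getElem.mp h
    exact hz (hP2 j hj).1
  have hzR : z ∉ R := by
    intro h
    obtain ⟨j, hj, rfl⟩ := List.mem_iff_getElem.mp h
    exact hz (hR2 j hj).1
  have hbig : (((u ++ X0).length + (v.reverse ++ Y0).length + 3 : ℕ) : ℚ) < lam * P.length := by
    rw [div_lt_iff₀ hlam] at hk
    have h1 : (k : ℚ) ≤ P.length := by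
      rw [hP1]
      have : k ≤ 2 * k * (36 * r) := by nlinarith
      exact_mod_cast this
    nlinarith
  have key := hMET S lam z (u ++ X0) P (v.reverse ++ Y0) R hlam hP3 hR3 (by rw [hP1, hR1])
    hzP hzR hbig t1 t2 t3
  refine ⟨X0 ++ P ++ [z] ++ R.reverse ++ Y0.reverse, ?_⟩
  have e : u ++ X0 ++ P ++ [z] ++ (v.reverse ++ Y0 ++ R).reverse =
      u ++ (X0 ++ P ++ [z] ++ R.reverse ++ Y0.reverse) ++ v := by
    simp [List.reverse_append, List.append_assoc]
  rwa [e] at key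

/-- final form: an absolute additive constant -/
theorem transition84 (hTRA : Stmt_TRA) {S : Type} [DecidableEq S] [Fintype S] {α : ℚ} (hα : 1 < α)
    (h1 : ⌊1 / (α - 1)⌋₊ + 20 ≤ Fintype.card S)
    (h2 : min (2 * ⌊1 / (α - 1)⌋₊ + 12) (⌊1 / (α - 1)⌋₊ + 84) ≤ Fintype.card S) (u v : List S)
    (hu : ∀ N : ℕ, ∃ w : List S, N ≤ w.length ∧ PF α (u ++ w))
    (hv : ∀ N : ℕ, ∃ w : List S, N ≤ w.length ∧ PF α (w ++ v)) :
    ∃ w : List S, PF α (u ++ w ++ v) := by
  by_cases h3 : 2 * ⌊1 / (α - 1)⌋₊ + 12 ≤ Fintype.card S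
  · exact transition hα h3 h1 u v hu hv
  · have hlam : 0 < α - 1 := by linarith
    have h4 : ⌊1 / (α - 1)⌋₊ + 84 ≤ Fintype.card S := by
      rcases min_le_iff.mp h2 with h | h
      · exact absurd h h3
      · exact h
    simp only [PF_iff_NB hα] at hu hv ⊢
    refine hTRA S (α - 1) u v hlam (by omega) h4 hu ?_
    intro N
    obtain ⟨w, hw, hNB⟩ := hv N
    refine ⟨w.reverse, by simpa using hw, ?_⟩
    have := hNB.reverse
    rwa [List.reverse_append] at this

end TRP
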