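import Pool.Agent.TRP.Stmts

/-!
Squad TRP, module TYP: the two sides have no common factor of length three, and common
factors of length one and two are far away.
-/

set_option autoImplicit false

namespace TRP

open Pool.Agent.Helper85.PowerFree

namespace TYP_

/-- class on the left -/
def fL (α o : ℕ) : ℕ := if α = 0 then pC o else pT o

/-- class on the right -/
def fR (β o : ℕ) : ℕ := if β = 0 then pR (35 - o) else pQ (35 - o)

theorem tri : ∀ α < 2, ∀ β < 2, ∀ o < 34, ∀ o' < 34,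
    ¬ (fL α o = fR β o' ∧ fL α (o + 1) = fR β (o' + 1) ∧ fL α (o + 2) = fR β (o' + 2)) := by
  decide +kernel

theorem bd34 : ∀ α < 2, ∀ β < 2, ¬ (fL α 34 = fR β 34 ∧ fL α 35 = fR β 35) := by
  decide

theorem bd35 : ∀ α < 2, ∀ β < 2, ∀ δ < 2, ¬ (fL α 35 = fR β 35 ∧
    fL ((α + δ) % 2) 0 = fR ((β + δ) % 2) 0 ∧ fL ((α + δ) % 2) 1 = fR ((β + δ) % 2) 1) := by
  decide

theorem pair : ∀ o < 35, ∀ o' < 35,
    ¬ (fL 1 o = fR 0 o' ∧ fL 1 (o + 1) = fR 0 (o' + 1)) := by
  decide +kernel

theorem pair35 : fL 1 35 ≠ fR 0 35 := by decide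

/-- quotient and remainder of the reversed position -/
theorem dm (n m t : ℕ) (hn : 0 < n) (ht : t < n * m) :
    (n * m - 1 - t) / n = m - 1 - t / n ∧ (n * m - 1 - t) % n = n - 1 - t % n := by
  have h1 : t / n < m := Nat.div_lt_of_lt_mul ht
  obtain ⟨d, rfl⟩ := Nat.exists_eq_add_of_lt h1
  have h2 := Nat.div_add_mod t n
  have h3 := Nat.mod_lt t hn
  have h4 : n * (t / n + d + 1) = n * (t / n) + n * d + n := by ring
  have h5 : n * (t / n + d + 1) - 1 - t = (n - 1 - t % n) + n * d := by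
    rw [h4]; omega
  have h6 : n - 1 - t % n < n := by omega
  rw [h5]
  constructor
  · rw [Nat.add_mul_div_left _ _ hn, Nat.div_eq_of_lt h6]; omega
  · rw [Nat.add_mul_mod_self_left, Nat.mod_eq_of_lt h6]

theorem arith (r k t : ℕ) (hr : 2 ≤ r) (ht : t < 2 * k * (36 * r)) :
    (2 * k * (36 * r) - 1 - t) % 36 = 35 - t % 36 ∧
    ((2 * k * (36 * r) - 1 - t) / 36) % r = r - 1 - (t / 36) % r ∧
    ((2 * k * (36 * r) - 1 - t) / (36 * r)) % 2 = 1 - (t / (36 * r)) % 2 := by
  have e1 : 2 * k * (36 * r) = 36 * (r * (2 * k)) := by ring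
  have e2 : 2 * k * (36 * r) = 36 * r * (2 * k) := by ring
  have a1 := dm 36 (r * (2 * k)) t (by norm_num) (by rw [← e1]; exact ht)
  have a2 := dm (36 * r) (2 * k) t (by omega) (by rw [← e2]; exact ht)
  have h3 : t / 36 < r * (2 * k) := by
    apply Nat.div_lt_of_lt_mul
    rw [← e1]; exact ht
  have a3 := dm r (2 * k) (t / 36) (by omega) h3
  have h4 : t / (36 * r) < 2 * k := by
    apply Nat.div_lt_of_lt_mul
    rw [← e2]; exact ht
  refine ⟨?_, ?_, ?_⟩
  · rw [e1, a1.2]
  · rw [e1, a1.1, a3.2]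
  · rw [e2, a2.1]
    omega

section

variable {S : Type}

theorem key {r k : ℕ} {A : Finset S} {φ ψ : S → ℕ × ℕ} {P R : List S}
    (hr : 2 ≤ r) (_hP : P.length = 2 * k * (36 * r)) (hR : R.length = 2 * k * (36 * r))
    (hZP : Zone r A ψ pC pT P) (hZR : Zone r A φ pQ pR R)
    (hψ : ∀ c ∈ A, ψ c = (r - 1 - (φ c).1, (φ c).2)) {s t : ℕ}
    (hs : s < P.length) (ht : t < R.length) (h : P[s]? = R.reverse[t]?) :
    (s / 36) % r = (t / 36) % r ∧
      fL ((s / (36 * r)) % 2) (s % 36) = fR ((t / (36 * r)) % 2) (t % 36) := by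
  have hj : R.length - 1 - t < R.length := by omega
  rw [List.getElem?_reverse ht, List.getElem?_eq_getElem hs, List.getElem?_eq_getElem hj] at h
  have h1 : P[s] = R[R.length - 1 - t] := Option.some.inj h
  have z1 := hZP s hs
  have z2 := hZR (R.length - 1 - t) hj
  have z3 := hψ _ z1.1
  rw [z1.2, h1, z2.2] at z3
  have hM : R.length - 1 - t = 2 * k * (36 * r) - 1 - t := by rw [hR]
  rw [hR] at ht
  obtain ⟨b1, b2, b3⟩ := arith r k t hr ht
  simp only [Prod.mk.injEq] at z3
  rw [hM, b1, b2, b3] at z3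
  have h5 := Nat.mod_lt (t / 36) (show r > 0 by omega)
  have h6 := Nat.mod_lt (t / (36 * r)) (show 2 > 0 by norm_num)
  refine ⟨by omega, ?_⟩
  unfold fL fR
  rw [z3.2]
  by_cases h7 : t / (36 * r) % 2 = 0
  · rw [if_neg (by omega), if_pos h7]
  · rw [if_pos (by omega), if_neg h7]

end

theorem succ_ne (r a : ℕ) (hr : 2 ≤ r) : (a + 1) % r ≠ a % r := by
  intro h
  have h1 : a + 1 ≡ a + 0 [MOD r] := h
  have h2 : 1 ≡ 0 [MOD r] := Nat.ModEq.add_left_cancel' a h1
  have h3 : r ∣ 1 := (Nat.modEq_zero_iff_dvd).1 h2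
  have := Nat.le_of_dvd (by norm_num) h3
  omega

/-- both positions are at the end of a slot or none is -/
theorem step (r s t : ℕ) (hr : 2 ≤ r) (h0 : (s / 36) % r = (t / 36) % r)
    (h1 : ((s + 1) / 36) % r = ((t + 1) / 36) % r) : s % 36 = 35 ↔ t % 36 = 35 := by
  constructor
  · intro h
    by_contra h2
    have e1 : (s + 1) / 36 = s / 36 + 1 := by omega
    have e2 : (t + 1) / 36 = t / 36 := by omega
    rw [e1, e2, ← h0] at h1
    exact succ_ne r _ hr h1
  · intro h
    by_contra h2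
    have e1 : (s + 1) / 36 = s / 36 := by omega
    have e2 : (t + 1) / 36 = t / 36 + 1 := by omega
    rw [e1, e2, h0] at h1
    exact succ_ne r _ hr h1.symm

/-- the round of the next position, inside a slot -/
theorem rd_in (r s : ℕ) (h : s % 36 ≠ 35) : (s + 1) / (36 * r) = s / (36 * r) := by
  rw [← Nat.div_div_eq_div_mul, ← Nat.div_div_eq_div_mul]
  have e : (s + 1) / 36 = s / 36 := by omega
  rw [e]

/-- the round of the next position, at the end of a slot -/
theorem rd_out (r s : ℕ) (h : s % 36 = 35) :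
    (s + 1) / (36 * r) = s / (36 * r) + if r ∣ s / 36 + 1 then 1 else 0 := by
  rw [← Nat.div_div_eq_div_mul, ← Nat.div_div_eq_div_mul]
  have e : (s + 1) / 36 = s / 36 + 1 := by omega
  rw [e, Nat.succ_div]

theorem dvd_iff (r a b : ℕ) (h : a % r = b % r) : r ∣ a + 1 ↔ r ∣ b + 1 := by
  have h1 : a + 1 ≡ b + 1 [MOD r] := Nat.ModEq.add_right 1 h
  rw [← Nat.modEq_zero_iff_dvd, ← Nat.modEq_zero_iff_dvd]
  exact ⟨fun h2 => h1.symm.trans h2, fun h2 => h1.trans h2⟩

/-- the distance -/
theorem dist (r k s t : ℕ) (hs : s < 2 * k * (36 * r)) (hr : 2 ≤ r)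
    (h0 : (s / 36) % r = (t / 36) % r) :
    ∃ D, 2 * k = s / (36 * r) + D ∧ 1 ≤ D ∧
      2 * k * (36 * r) - s + 1 + t + s % 36 =
        36 * (r * D) + 36 * (r * (t / (36 * r))) + 1 + t % 36 := by
  have e2 : 2 * k * (36 * r) = 36 * r * (2 * k) := by ring
  have h4 : s / (36 * r) < 2 * k := by
    apply Nat.div_lt_of_lt_mul
    rw [← e2]; exact hs
  have _ := hr
  obtain ⟨D, hD⟩ := Nat.exists_eq_add_of_le h4.le
  refine ⟨D, hD, by omega, ?_⟩
  have s1 := Nat.div_add_mod (s / 36) r
  have t1 := Nat.div_add_mod (t / 36) r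
  rw [Nat.div_div_eq_div_mul] at s1 t1
  have hk : 2 * k * (36 * r) = 36 * (r * (s / (36 * r))) + 36 * (r * D) := by
    rw [hD]; ring
  have s2 := Nat.div_add_mod s 36
  have t2 := Nat.div_add_mod t 36
  omega

end TYP_

open TYP_ in
theorem typ_proof : Stmt_TYP := by
  intro S _ r k q A φ ψ P R hr hq hP hR hZP hZR hψ _
  have K : ∀ s t : ℕ, s < P.length → t < R.length → P[s]? = R.reverse[t]? →
      (s / 36) % r = (t / 36) % r ∧
      fL ((s / (36 * r)) % 2) (s % 36) = fR ((t / (36 * r)) % 2) (t % 36) :=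
    fun s t hs ht h => key hr hP hR hZP hZR hψ hs ht h
  have m2 : ∀ a : ℕ, a % 2 < 2 := fun a => Nat.mod_lt a (by norm_num)
  refine ⟨?_, ?_, ?_⟩
  · rintro s t hs ht ⟨h0, h1, h2⟩
    obtain ⟨a0, b0⟩ := K s t (by omega) (by omega) h0
    obtain ⟨a1, b1⟩ := K (s + 1) (t + 1) (by omega) (by omega) h1
    obtain ⟨a2, b2⟩ := K (s + 2) (t + 2) (by omega) (by omega) h2
    have c1 := step r s t hr a0 a1
    have c2 := step r (s + 1) (t + 1) hr a1 a2
    have ms := Nat.mod_lt s (show 36 > 0 by norm_num)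
    have mt := Nat.mod_lt t (show 36 > 0 by norm_num)
    by_cases e35 : s % 36 = 35
    · have e35' := c1.1 e35
      have r1 : (s + 1) % 36 = 0 := by omega
      have r2 : (s + 2) % 36 = 1 := by omega
      have r3 : (t + 1) % 36 = 0 := by omega
      have r4 : (t + 2) % 36 = 1 := by omega
      have q1 := rd_out r s e35
      have q2 := rd_out r t e35'
      have q3 := rd_in r (s + 1) (by omega)
      have q4 := rd_in r (t + 1) (by omega)
      have q5 := dvd_iff r _ _ a0
      rw [show s + 1 + 1 = s + 2 from rfl] at q3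
      rw [show t + 1 + 1 = t + 2 from rfl] at q4
      rw [e35, e35'] at b0
      rw [r1, r3, q1, q2] at b1
      rw [r2, r4, q3, q4, q1, q2] at b2
      by_cases hd : r ∣ s / 36 + 1
      · rw [if_pos hd, if_pos (q5.1 hd)] at b1 b2
        refine bd35 _ (m2 (s / (36 * r))) _ (m2 (t / (36 * r))) 1 (by norm_num) ⟨b0, ?_, ?_⟩
        · rw [Nat.mod_add_mod, Nat.mod_add_mod]; exact b1
        · rw [Nat.mod_add_mod, Nat.mod_add_mod]; exact b2
      · rw [if_neg hd, if_neg (fun h => hd (q5.2 h))] at b1 b2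
        refine bd35 _ (m2 (s / (36 * r))) _ (m2 (t / (36 * r))) 0 (by norm_num) ⟨b0, ?_, ?_⟩
        · rw [Nat.mod_add_mod, Nat.mod_add_mod]; exact b1
        · rw [Nat.mod_add_mod, Nat.mod_add_mod]; exact b2
    · have e35' : t % 36 ≠ 35 := fun h => e35 (c1.2 h)
      have q1 := rd_in r s e35
      have q2 := rd_in r t e35'
      have r1 : (s + 1) % 36 = s % 36 + 1 := by omega
      have r3 : (t + 1) % 36 = t % 36 + 1 := by omega
      rw [q1, q2, r1, r3] at b1
      by_cases e34 : s % 36 = 34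
      · have e34' : t % 36 = 34 := by
          have := c2.1 (by omega)
          omega
        rw [e34, e34'] at b0 b1
        exact bd34 _ (m2 (s / (36 * r))) _ (m2 (t / (36 * r))) ⟨b0, b1⟩
      · have e34' : t % 36 ≠ 34 := by
          intro h
          have := c2.2 (by omega)
          omega
        have q3 := rd_in r (s + 1) (by omega)
        have q4 := rd_in r (t + 1) (by omega)
        rw [show s + 1 + 1 = s + 2 from rfl] at q3
        rw [show t + 1 + 1 = t + 2 from rfl] at q4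
        have r2 : (s + 2) % 36 = s % 36 + 2 := by omega
        have r4 : (t + 2) % 36 = t % 36 + 2 := by omega
        rw [q3, q4, q1, q2, r2, r4] at b2
        exact tri _ (m2 (s / (36 * r))) _ (m2 (t / (36 * r))) _ (by omega) _ (by omega)
          ⟨b0, b1, b2⟩
  · rintro s t hs ht hd ⟨h0, h1⟩
    obtain ⟨a0, b0⟩ := K s t (by omega) (by omega) h0
    obtain ⟨a1, b1⟩ := K (s + 1) (t + 1) (by omega) (by omega) h1
    have c1 := step r s t hr a0 a1
    have ms := Nat.mod_lt s (show 36 > 0 by norm_num)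
    have mt := Nat.mod_lt t (show 36 > 0 by norm_num)
    obtain ⟨D, hD, hD1, hdist⟩ := dist r k s t (by omega) hr a0
    rw [hP] at hd
    -- `D = 1` and the round of `t` is zero
    have hD2 : D = 1 := by
      by_contra hne
      have h5 : r * 2 ≤ r * D := Nat.mul_le_mul_left r (by omega)
      omega
    have hB : t / (36 * r) = 0 := by
      by_contra hne
      have h5 : r * 1 ≤ r * (t / (36 * r)) :=
        Nat.mul_le_mul_left r (Nat.pos_of_ne_zero hne)
      have h6 : r * 1 ≤ r * D := Nat.mul_le_mul_left r (by omega)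
      omega
    have hA : s / (36 * r) % 2 = 1 := by omega
    have hB2 : t / (36 * r) % 2 = 0 := by rw [hB]
    rw [hA, hB2] at b0
    by_cases e35 : s % 36 = 35
    · have e35' := c1.1 e35
      rw [e35, e35'] at b0
      exact pair35 b0
    · have e35' : t % 36 ≠ 35 := fun h => e35 (c1.2 h)
      have q1 := rd_in r s e35
      have q2 := rd_in r t e35'
      have r1 : (s + 1) % 36 = s % 36 + 1 := by omega
      have r3 : (t + 1) % 36 = t % 36 + 1 := by omega
      rw [q1, q2, r1, r3, hA, hB2] at b1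
      exact pair _ (by omega) _ (by omega) ⟨b0, b1⟩
  · intro s t hs ht hd h0
    obtain ⟨a0, _⟩ := K s t hs ht h0
    have ms := Nat.mod_lt s (show 36 > 0 by norm_num)
    obtain ⟨D, hD, hD1, hdist⟩ := dist r k s t (by omega) hr a0
    rw [hP] at hd
    have h6 : r * 1 ≤ r * D := Nat.mul_le_mul_left r (by omega)
    omega

end TRP
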