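import Pool.Agent.TRP.Stmts

/-!
# Squad TRP, module ZON: many rounds
-/

set_option autoImplicit false

namespace TRP

open Pool.Agent.Helper85.PowerFree

namespace ZON_

/-- arithmetic of the positions -/
theorem pos_div (r a j : ℕ) (hr : 0 < r) (hj : j < 36 * r) :
    ((a * (36 * r) + j) / 36) % r = j / 36 ∧ (a * (36 * r) + j) % 36 = j % 36 ∧
      (a * (36 * r) + j) / (36 * r) = a := by
  refine ⟨?_, ?_, ?_⟩
  · have h1 : a * (36 * r) + j = 36 * (r * a) + j := by ring
    rw [h1, Nat.mul_add_div (by norm_num), Nat.mul_add_mod]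
    exact Nat.mod_eq_of_lt (by omega)
  · have h1 : a * (36 * r) + j = 36 * (a * r) + j := by ring
    rw [h1, Nat.mul_add_mod]
  · have h1 : a * (36 * r) + j = (36 * r) * a + j := by ring
    rw [h1, Nat.mul_add_div (by omega), Nat.div_eq_of_lt hj, add_zero]

end ZON_

open ZON_ in
theorem zon_proof (hNXT : Stmt_NXT) : Stmt_ZON := by
  intro S _ lam w x r A v φ p0 p1 k hlam hq hr hA hSt hFit hAsg hp
  have hr0 : 0 < r := by omega
  have key : ∀ k : ℕ, ∃ (w' : ℕ → S) (v' : S → ℕ), (∀ i < x, w' i = w i) ∧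
      St lam w' (x + 2 * k * (36 * r)) (36 * r) A v' ∧
      Fits (x + 2 * k * (36 * r)) (36 * r) A v' p0 φ ∧
      ∀ j < 2 * k * (36 * r), w' (x + j) ∈ A ∧
        φ (w' (x + j)) = ((j / 36) % r, if (j / (36 * r)) % 2 = 0 then p1 (j % 36)
          else p0 (j % 36)) := by
    intro k
    induction k with
    | zero =>
      refine ⟨w, v, fun _ _ => rfl, ?_, ?_, ?_⟩
      · simpa using hSt
      · simpa using hFit
      · intro j hj
        simp at hj
    | succ k ih =>
      obtain ⟨w0, v0, h1, h2, h3, h4⟩ := ih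
      obtain ⟨w1, a1, a2, v1, a3, a4⟩ := hNXT S lam w0 (x + 2 * k * (36 * r)) r A v0 φ φ p0 p1
        hlam hq hr hA h2 h3 hAsg hAsg
        (by
          rcases hp with hp | hp
          · exact Or.inl hp
          · exact Or.inr (Or.inr (Or.inl ⟨hp.1, hp.2, rfl⟩))) (Or.inl rfl)
      obtain ⟨w2, b1, b2, v2, b3, b4⟩ := hNXT S lam w1 (x + 2 * k * (36 * r) + 36 * r) r A v1 φ φ
        p1 p0 hlam hq hr hA a3 a4 hAsg hAsg
        (by
          rcases hp with hp | hp
          · exact Or.inr (Or.inl ⟨hp.2, hp.1, rfl⟩)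
          · exact Or.inr (Or.inr (Or.inr ⟨hp.2, hp.1, rfl⟩))) (Or.inl rfl)
      have e1 : x + 2 * (k + 1) * (36 * r) = x + 2 * k * (36 * r) + 36 * r + 36 * r := by ring
      refine ⟨w2, v2, ?_, ?_, ?_, ?_⟩
      · intro i hi
        rw [b1 i (by omega), a1 i (by omega), h1 i hi]
      · rw [e1]; exact b3
      · rw [e1]; exact b4
      · intro j hj
        have e2 : 2 * (k + 1) * (36 * r) = 2 * k * (36 * r) + 36 * r + 36 * r := by ring
        by_cases hj1 : j < 2 * k * (36 * r)
        · have e3 : w2 (x + j) = w0 (x + j) := by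
            rw [b1 _ (by omega), a1 _ (by omega)]
          rw [e3]
          exact h4 j hj1
        · by_cases hj2 : j < 2 * k * (36 * r) + 36 * r
          · obtain ⟨t, ht⟩ : ∃ t, j = 2 * k * (36 * r) + t := ⟨j - 2 * k * (36 * r), by omega⟩
            have ht1 : t < 36 * r := by omega
            obtain ⟨c1, c2, c3⟩ := pos_div r (2 * k) t hr0 ht1
            have e3 : w2 (x + j) = w1 (x + 2 * k * (36 * r) + 36 * (t / 36) + t % 36) := by
              rw [b1 _ (by omega)]
              congr 1
              omega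
            obtain ⟨d1, d2⟩ := a2 (t / 36) (by omega) (t % 36) (Nat.mod_lt _ (by norm_num))
            rw [e3]
            refine ⟨d1, ?_⟩
            rw [d2, ht, c1, c2, c3]
            rw [if_pos (by omega)]
          · obtain ⟨t, ht⟩ : ∃ t, j = (2 * k + 1) * (36 * r) + t :=
              ⟨j - (2 * k + 1) * (36 * r), by
                have : (2 * k + 1) * (36 * r) = 2 * k * (36 * r) + 36 * r := by ring
                omega⟩
            have e4 : (2 * k + 1) * (36 * r) = 2 * k * (36 * r) + 36 * r := by ring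
            have ht1 : t < 36 * r := by omega
            obtain ⟨c1, c2, c3⟩ := pos_div r (2 * k + 1) t hr0 ht1
            have e3 : w2 (x + j) =
                w2 (x + 2 * k * (36 * r) + 36 * r + 36 * (t / 36) + t % 36) := by
              congr 1
              omega
            obtain ⟨d1, d2⟩ := b2 (t / 36) (by omega) (t % 36) (Nat.mod_lt _ (by norm_num))
            rw [e3]
            refine ⟨d1, ?_⟩
            rw [d2, ht, c1, c2, c3]
            rw [if_neg (by omega)]
  obtain ⟨w', v', h1, h2, -, h4⟩ := key k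
  exact ⟨w', h1, h2.good, h4⟩

end TRP
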