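import Pool.Agent.TRP.NUM
import Pool.Agent.TRP.PRM
import Pool.Agent.TRP.CNT
import Pool.Agent.TRP.INJ
import Pool.Agent.TRP.PTW
import Pool.Agent.TRP.SMA
import Pool.Agent.TRP.SMB
import Pool.Agent.TRP.SLT
import Pool.Agent.TRP.GRP
import Pool.Agent.TRP.RNA
import Pool.Agent.TRP.RNB
import Pool.Agent.TRP.NXT
import Pool.Agent.TRP.ZON
import Pool.Agent.TRP.SRT
import Pool.Agent.TRP.FIT
import Pool.Agent.TRP.SOR
import Pool.Agent.TRP.INI
import Pool.Agent.TRP.STA
import Pool.Agent.TRP.LFT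
import Pool.Agent.TRP.RGT
import Pool.Agent.TRP.TYP
import Pool.Agent.TRP.MET
import Pool.Agent.TRP.TRA
import Pool.Agent.TRP.FLA

/-!
# Squad TRP (MP_8b7919_co): all modules together
-/

set_option autoImplicit false

namespace TRP

open Pool.Agent.Helper85.PowerFree

theorem fin_tra : Stmt_TRA := by
  have hCNT := cnt_proof prm_proof
  have hSLT := slt_proof inj_proof ptw_proof (sma_proof hCNT) (smb_proof hCNT)
  have hGRP := grp_proof num_proof hSLT
  have hNXT := nxt_proof (rna_proof hGRP) rnb_proof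
  have hZON := zon_proof hNXT
  have hSOR := sor_proof srt_proof hNXT fit_proof
  have hSTA := sta_proof ini_proof
  exact tra_proof (lft_proof hSTA hSOR hZON) (rgt_proof hSTA fit_proof hZON) typ_proof met_proof

/-- The transition property of `α`-power-free words over `n` letters (no condition if there are
no long words at all). -/
theorem fin_transition {n : ℕ} {α : ℚ} (hα : 1 < α)
    (h : n ≤ ⌊1 / (α - 1)⌋₊ + 1 ∨ ⌊1 / (α - 1)⌋₊ + 20 ≤ n ∧
      (2 * ⌊1 / (α - 1)⌋₊ + 12 ≤ n ∨ ⌊1 / (α - 1)⌋₊ + 84 ≤ n)) (u v : List (Fin n))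
    (hu : ∀ N : ℕ, ∃ w : List (Fin n), N ≤ w.length ∧ PF α (u ++ w))
    (hv : ∀ N : ℕ, ∃ w : List (Fin n), N ≤ w.length ∧ PF α (w ++ v)) :
    ∃ w : List (Fin n), PF α (u ++ w ++ v) := by
  rcases h with h | ⟨h1, h2⟩
  · exfalso
    obtain ⟨N, hN⟩ := FLA_.finite_language (n := n) (lam := α - 1) (by linarith) h
    obtain ⟨w, hw, hPF⟩ := hu N
    rw [PF_iff_NB hα] at hPF
    exact hN (u ++ w) (by rw [List.length_append]; omega) hPF
  · exact transition84 fin_tra hα (by rwa [Fintype.card_fin])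
      (by rw [Fintype.card_fin]; rcases h2 with h | h <;> omega) u v hu hv

end TRP
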