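import Pool.Agent.Helper85.PowerFree
import Pool.Agent.Helper85.PowerFreeComp

/-!
# Squad TRP (MP_8b7919_co): transitions between power-free words over alphabets with
`1/(α-1) + 84` letters.  Definitions.

The text is a function `w : ℕ → S` (positions `0, ..., x-1` are used).  `Good`, `pot`, `mu`, `ex`
are those of `Pool.Agent.Helper85.PowerFree`.
-/

set_option autoImplicit false

namespace TRP

open Pool.Agent.Helper85.PowerFree

/-! ## Patterns -/

/-- pattern of one unit (12 letters) -/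
def pU : ℕ → ℕ := fun _ => 0

/-- pattern `0^12 1^12 2^12` -/
def pC : ℕ → ℕ := fun o => o / 12

/-- pattern `(021)^12` -/
def pT : ℕ → ℕ := fun o => (2 * o) % 3

/-- pattern `(210)^12` -/
def pR : ℕ → ℕ := fun o => (2 * o + 2) % 3

/-- pattern `(112200)^6` -/
def pQ : ℕ → ℕ := fun o => (o / 2 + 1) % 3

/-- the number of positions of class `c` in the window `[o, o + t)` of the pattern `τ` -/
def nc (τ : ℕ → ℕ) (o t c : ℕ) : ℕ := ((Finset.range t).filter fun j => τ (o + j) = c).card

/-- (a bound for) the number of arrangements with prescribed letters in `[o, o + t)` -/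
def PN (τ : ℕ → ℕ) (o t : ℕ) : ℕ := ∏ c ∈ Finset.range 3, (12 - nc τ o t c).factorial

/-- the numerical conditions on a pattern of length `L` -/
structure Num (τ : ℕ → ℕ) (L : ℕ) : Prop where
  cls : ∀ o < L, τ o < 3
  cnt : ∀ c < 3, nc τ 0 L c ≤ 12
  act : ∀ t, 1 ≤ t → t ≤ L → 3 * 4 ^ t * PN τ 0 t ≤ (Nat.factorial 12) ^ 3
  tot : 3 * (∑ o ∈ Finset.range L, ∑ t ∈ Finset.Icc 3 (L - o), 12 * PN τ o t) +
    ∑ o ∈ Finset.range L, 12 * PN τ o (L - o) ≤ 2 * (Nat.factorial 12) ^ 3

/-! ## Arrangements -/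

section

variable {S : Type}

/-- the word `w` overwritten on `[x, x + L)` -/
def ow (w : ℕ → S) (x L : ℕ) (f : ℕ → S) : ℕ → S :=
  fun i => if x ≤ i ∧ i < x + L then f (i - x) else w i

/-- the arrangement of the letters `e c i` given by the permutations `σ c` -/
def fil (τ : ℕ → ℕ) (e : ℕ → Fin 12 → S) (σ : Fin 3 → Equiv.Perm (Fin 12)) (o : ℕ) : S :=
  e (τ o) (σ (Fin.ofNat 3 (τ o)) (Fin.ofNat 12 (nc τ 0 o (τ o))))

variable [DecidableEq S]

/-- the reference at distance `p` matches the arrangement `f` on `[o, o + t)` -/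
def mt (w : ℕ → S) (x p : ℕ) (f : ℕ → S) (o t : ℕ) : Prop :=
  ∀ j, o ≤ j → j < o + t → p ≤ x + j ∧ f j = w (x + j - p)

instance (w : ℕ → S) (x p : ℕ) (f : ℕ → S) (o t : ℕ) : Decidable (mt w x p f o t) :=
  decidable_of_iff (∀ j ∈ Finset.Ico o (o + t), p ≤ x + j ∧ f j = w (x + j - p)) (by
    simp only [mt, Finset.mem_Ico, and_imp])

/-- the cost of a run of period `p` that is active at the beginning of the slot -/
def cA (lam : ℚ) (w : ℕ → S) (x L p : ℕ) (f : ℕ → S) : ℚ :=
  if 0 < mu w p x then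
    if ex lam p - mu w p x ≤ L then
      if mt w x p f 0 (ex lam p - mu w p x) then 1 else 0
    else if mt w x p f 0 L then (1 / 4) ^ (ex lam p - mu w p x - L) else 0
  else 0

/-- the cost of a run of period `p` that starts at the offset `o` of the slot -/
def cB (lam : ℚ) (w : ℕ → S) (x L p o : ℕ) (f : ℕ → S) : ℚ :=
  if o + ex lam p ≤ L then
    if mt w x p f o (ex lam p) then 1 else 0
  else if mt w x p f o (L - o) then (1 / 4) ^ (ex lam p - (L - o)) else 0

/-- the total cost -/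
def cost (lam : ℚ) (w : ℕ → S) (x L : ℕ) (f : ℕ → S) : ℚ :=
  ∑ p ∈ (Finset.range (x + L)).filter (fun p => 2 ≤ ex lam p),
    (cA lam w x L p f + ∑ o ∈ Finset.range L, cB lam w x L p o f)

/-! ## States -/

/-- The text `w` of length `x` is good, has small potential, and `v` gives for the `N` letters of
`A` their (virtual) last positions, in `[x - N, x)`. -/
structure St (lam : ℚ) (w : ℕ → S) (x N : ℕ) (A : Finset S) (v : S → ℕ) : Prop where
  good : Good lam w x
  pot : pot lam w x < 1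
  vlt : ∀ c ∈ A, v c < x ∧ x ≤ v c + N
  inj : Set.InjOn v (A : Set S)
  last : ∀ c ∈ A, ∀ y < x, w y = c → y ≤ v c
  adj : ∀ y, y + 1 < x → w y ∈ A → w (y + 1) ∈ A → (∀ y', y < y' → y' < x → w y' ≠ w y) →
    (∀ y', y + 1 < y' → y' < x → w y' ≠ w (y + 1)) → v (w (y + 1)) = v (w y) + 1

/-- the letters of `A` are in the slots and classes given by `φ`, arranged by the pattern `pt` -/
def Fits (x N : ℕ) (A : Finset S) (v : S → ℕ) (pt : ℕ → ℕ) (φ : S → ℕ × ℕ) : Prop :=
  ∀ c ∈ A, φ c = ((v c + N - x) / 36, pt ((v c + N - x) % 36))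

/-- `φ` is a distribution of the letters of `A` into `r` groups with three classes of twelve
letters. -/
def Asg (r : ℕ) (A : Finset S) (φ : S → ℕ × ℕ) : Prop :=
  (∀ c ∈ A, (φ c).1 < r ∧ (φ c).2 < 3) ∧
    ∀ i < r, ∀ c < 3, (A.filter fun a => φ a = (i, c)).card = 12

/-- cyclic exchange of the classes of the group `i` -/
def rot (i : ℕ) (φ : S → ℕ × ℕ) : S → ℕ × ℕ :=
  fun c => if (φ c).1 = i then (i, ((φ c).2 + 2) % 3) else φ c

/-- a list made of rounds with the distribution `φ`, with alternating patterns `p1`, `p0` -/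
def Zone (r : ℕ) (A : Finset S) (φ : S → ℕ × ℕ) (p1 p0 : ℕ → ℕ) (P : List S) : Prop :=
  ∀ (j : ℕ) (hj : j < P.length), P[j] ∈ A ∧
    φ P[j] = ((j / 36) % r, if (j / (36 * r)) % 2 = 0 then p1 (j % 36) else p0 (j % 36))

/-- infinitely extendable to the right -/
def Ext (lam : ℚ) (u : List S) : Prop := ∀ N : ℕ, ∃ w : List S, N ≤ w.length ∧ NB lam (u ++ w)

end

end TRP
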