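import Pool.Agent.TRP.Stmts

/-!
# Squad TRP, module LFT: the left side.
-/

set_option autoImplicit false

namespace TRP

open Pool.Agent.Helper85.PowerFree

namespace LFT_

/-- the word of the positions `[a, a + n)` of `w` -/
def seg {S : Type} (w : ℕ → S) (a n : ℕ) : List S := (List.range n).map fun i => w (a + i)

lemma seg_length {S : Type} (w : ℕ → S) (a n : ℕ) : (seg w a n).length = n := by
  simp [seg]

lemma seg_getElem? {S : Type} (w : ℕ → S) (a n i : ℕ) (hi : i < n) :
    (seg w a n)[i]? = some (w (a + i)) := by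
  unfold seg
  rw [List.getElem?_map, List.getElem?_range hi]
  rfl

lemma nb_of {S : Type} [DecidableEq S] {lam : ℚ} (hlam : 0 < lam) (u : List S) (w0 w : ℕ → S)
    (x M : ℕ) (d : S) (hux : u.length ≤ x) (hu : ∀ (i : ℕ) (hi : i < u.length), w0 i = u[i])
    (hw : ∀ i < x, w i = w0 i) (hG : Good lam w (x + M)) :
    NB lam (u ++ seg w0 u.length (x - u.length) ++ seg w x M) := by
  have hlen : (u ++ seg w0 u.length (x - u.length) ++ seg w x M).length = x + M := by
    simp [seg_length]; omega
  rw [NB_iff_good hlam _ d, hlen]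
  refine hG.congr ?_
  intro i hi
  rw [List.getD_eq_getElem?_getD]
  by_cases hi1 : i < x
  · rw [List.getElem?_append_left (by simp [seg_length]; omega)]
    by_cases hi2 : i < u.length
    · rw [List.getElem?_append_left hi2, hw i hi1, hu i hi2, List.getElem?_eq_getElem hi2]
      rfl
    · rw [List.getElem?_append_right (by omega), seg_getElem? _ _ _ _ (by omega), hw i hi1]
      simp only [Option.getD_some]
      congr 1; omega
  · have h2 : (u ++ seg w0 u.length (x - u.length)).length = x := by
      simp [seg_length]; omega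
    rw [List.getElem?_append_right (by omega), h2, seg_getElem? _ _ _ _ (by omega)]
    simp only [Option.getD_some]
    congr 1; omega

end LFT_

open LFT_ in
theorem lft_proof (hSTA : Stmt_STA) (hSOR : Stmt_SOR) (hZON : Stmt_ZON) : Stmt_LFT := by
  intro S _ _ lam r A u ψ hlam hq hcard hr hA hψ hu
  obtain ⟨w0, x, v, hux, hw0, hst⟩ := hSTA S lam A u hlam hcard hu
  rw [hA] at hst
  obtain ⟨w1, x', v', hxx, hw1, hst', hfit⟩ := hSOR S lam w0 x r A v ψ hlam hq hr hA hst hψ
  refine ⟨seg w1 u.length (x' - u.length), fun k => ?_⟩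
  obtain ⟨w', hw', hG, hP⟩ := hZON S lam w1 x' r A v' ψ pT pC k hlam hq hr hA hst' hfit hψ
    (Or.inl ⟨rfl, rfl⟩)
  have hcpos : 0 < Fintype.card S := by omega
  obtain ⟨d⟩ : Nonempty S := Fintype.card_pos_iff.mp hcpos
  refine ⟨seg w' x' (2 * k * (36 * r)), seg_length _ _ _, ?_, ?_⟩
  · intro j hj
    have hj' : j < 2 * k * (36 * r) := by rwa [seg_length] at hj
    have hel : (seg w' x' (2 * k * (36 * r)))[j] = w' (x' + j) := by
      have := seg_getElem? w' x' (2 * k * (36 * r)) j hj'
      rw [List.getElem?_eq_getElem hj] at this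
      exact Option.some.inj this
    rw [hel]
    exact hP j hj'
  · refine nb_of hlam u w1 w' x' _ d (le_trans hux hxx) ?_ hw' hG
    intro i hi
    rw [hw1 i (by omega)]
    exact hw0 i hi

end TRP
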