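import Pool.Agent.TRP.Stmts

/-!
# Squad TRP (MP_8b7919_co), module NUM: numerical conditions
-/

set_option autoImplicit false

namespace TRP

open Pool.Agent.Helper85.PowerFree

namespace NUM_

theorem bU : (∀ o < 12, pU o < 3) ∧ (∀ c < 3, nc pU 0 12 c ≤ 12) ∧
    (∀ t < 13, 1 ≤ t → 3 * 4 ^ t * PN pU 0 t ≤ (Nat.factorial 12) ^ 3) ∧
    3 * (∑ o ∈ Finset.range 12, ∑ t ∈ Finset.Icc 3 (12 - o), 12 * PN pU o t) +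
    ∑ o ∈ Finset.range 12, 12 * PN pU o (12 - o) ≤ 2 * (Nat.factorial 12) ^ 3 := by
  decide +kernel

theorem bT : (∀ o < 36, pT o < 3) ∧ (∀ c < 3, nc pT 0 36 c ≤ 12) ∧
    (∀ t < 37, 1 ≤ t → 3 * 4 ^ t * PN pT 0 t ≤ (Nat.factorial 12) ^ 3) ∧
    3 * (∑ o ∈ Finset.range 36, ∑ t ∈ Finset.Icc 3 (36 - o), 12 * PN pT o t) +
    ∑ o ∈ Finset.range 36, 12 * PN pT o (36 - o) ≤ 2 * (Nat.factorial 12) ^ 3 := by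
  decide +kernel

theorem bR : (∀ o < 36, pR o < 3) ∧ (∀ c < 3, nc pR 0 36 c ≤ 12) ∧
    (∀ t < 37, 1 ≤ t → 3 * 4 ^ t * PN pR 0 t ≤ (Nat.factorial 12) ^ 3) ∧
    3 * (∑ o ∈ Finset.range 36, ∑ t ∈ Finset.Icc 3 (36 - o), 12 * PN pR o t) +
    ∑ o ∈ Finset.range 36, 12 * PN pR o (36 - o) ≤ 2 * (Nat.factorial 12) ^ 3 := by
  decide +kernel

theorem bQ : (∀ o < 36, pQ o < 3) ∧ (∀ c < 3, nc pQ 0 36 c ≤ 12) ∧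
    (∀ t < 37, 1 ≤ t → 3 * 4 ^ t * PN pQ 0 t ≤ (Nat.factorial 12) ^ 3) ∧
    3 * (∑ o ∈ Finset.range 36, ∑ t ∈ Finset.Icc 3 (36 - o), 12 * PN pQ o t) +
    ∑ o ∈ Finset.range 36, 12 * PN pQ o (36 - o) ≤ 2 * (Nat.factorial 12) ^ 3 := by
  decide +kernel

end NUM_

open NUM_ in
theorem num_proof : Stmt_NUM := by
  refine ⟨⟨bU.1, bU.2.1, fun t h1 h2 => bU.2.2.1 t (by omega) h1, bU.2.2.2⟩,
    ⟨bT.1, bT.2.1, fun t h1 h2 => bT.2.2.1 t (by omega) h1, bT.2.2.2⟩,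
    ⟨bR.1, bR.2.1, fun t h1 h2 => bR.2.2.1 t (by omega) h1, bR.2.2.2⟩,
    ⟨bQ.1, bQ.2.1, fun t h1 h2 => bQ.2.2.1 t (by omega) h1, bQ.2.2.2⟩⟩

end TRP
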