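import Pool.Agent.TRP.Defs

/-!
# Squad TRP (MP_8b7919_co): statements of the modules.
Recipes: /team-store/MP_8b7919_TRP.md
-/

set_option autoImplicit false

namespace TRP

open Pool.Agent.Helper85.PowerFree

/-! ## A. One slot -/

/-- numerical conditions for the patterns of the slots -/
def Stmt_NUM : Prop := Num pU 12 ∧ Num pT 36 ∧ Num pR 36 ∧ Num pQ 36

/-- permutations with prescribed values -/
def Stmt_PRM : Prop :=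
  ∀ (n : ℕ) (T : Finset (Fin n)) (u : Fin n → Fin n),
    (Finset.univ.filter fun π : Equiv.Perm (Fin n) => ∀ i ∈ T, π i = u i).card ≤
      (n - T.card).factorial

/-- arrangements with prescribed letters. Uses PRM -/
def Stmt_CNT : Prop :=
  ∀ (S : Type) [DecidableEq S] (τ : ℕ → ℕ) (L : ℕ) (e : ℕ → Fin 12 → S) (g : ℕ → S) (o t : ℕ),
    (∀ c < 3, Function.Injective (e c)) → (∀ o < L, τ o < 3) → (∀ c < 3, nc τ 0 L c ≤ 12) →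
    o + t ≤ L →
    (Finset.univ.filter fun σ : Fin 3 → Equiv.Perm (Fin 12) =>
      ∀ j, o ≤ j → j < o + t → fil τ e σ j = g j).card ≤ PN τ o t

/-- the arrangement is injective on each class -/
def Stmt_INJ : Prop :=
  ∀ (S : Type) [DecidableEq S] (τ : ℕ → ℕ) (L : ℕ) (e : ℕ → Fin 12 → S)
    (σ : Fin 3 → Equiv.Perm (Fin 12)) (K : ℕ → Finset S),
    (∀ c < 3, Function.Injective (e c)) → (∀ o < L, τ o < 3) → (∀ c < 3, nc τ 0 L c ≤ 12) →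
    (∀ c < 3, ∀ i, e c i ∈ K c) →
    (∀ o < L, ∀ o' < L, τ o ≠ τ o' → Disjoint (K (τ o)) (K (τ o'))) →
    (∀ o < L, fil τ e σ o ∈ K (τ o)) ∧ Set.InjOn (fil τ e σ) (Set.Iio L)

/-- if an arrangement is bad, its cost is at least one -/
def Stmt_PTW : Prop :=
  ∀ (S : Type) [DecidableEq S] (lam : ℚ) (w : ℕ → S) (x L : ℕ) (f : ℕ → S),
    0 < lam → L ≤ ⌊1 / lam⌋₊ → Good lam w x →
    -- letters at distance at most `⌊1/lam⌋` are distinct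
    (∀ o < L, ∀ o' < L, o ≠ o' → f o ≠ f o') →
    (∀ o < L, ∀ p, o < p → p ≤ ⌊1 / lam⌋₊ → p ≤ x + o → w (x + o - p) ≠ f o) →
    cost lam w x L f < 1 →
    Good lam (ow w x L f) (x + L) ∧ pot lam (ow w x L f) (x + L) < 1

/-- the contribution of the active runs. Uses CNT -/
def Stmt_SMA : Prop :=
  ∀ (S : Type) [DecidableEq S] (lam : ℚ) (w : ℕ → S) (x L : ℕ) (τ : ℕ → ℕ)
    (e : ℕ → Fin 12 → S),
    0 < lam → L ≤ ⌊1 / lam⌋₊ → 1 ≤ L → Good lam w x → Num τ L → (∀ c < 3, Function.Injective (e c)) →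
    3 * (∑ σ : Fin 3 → Equiv.Perm (Fin 12),
      ∑ p ∈ (Finset.range (x + L)).filter (fun p => 2 ≤ ex lam p), cA lam w x L p (fil τ e σ)) ≤
      (Nat.factorial 12) ^ 3 * pot lam w x

/-- the contribution of the runs that start in the slot. Uses CNT -/
def Stmt_SMB : Prop :=
  ∀ (S : Type) [DecidableEq S] (lam : ℚ) (w : ℕ → S) (x L : ℕ) (τ : ℕ → ℕ)
    (e : ℕ → Fin 12 → S) (K : ℕ → Finset S),
    0 < lam → L ≤ ⌊1 / lam⌋₊ → Good lam w x → Num τ L → (∀ c < 3, Function.Injective (e c)) →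
    (∀ c < 3, ∀ s, s ∈ K c ↔ ∃ i, e c i = s) →
    (∀ o, o + 1 < L → ∀ p, ex lam p = 2 → p ≤ x + o → w (x + o - p) ∈ K (τ o) →
      w (x + o + 1 - p) ∉ K (τ (o + 1))) →
    3 * (∑ σ : Fin 3 → Equiv.Perm (Fin 12),
      ∑ p ∈ (Finset.range (x + L)).filter (fun p => 2 ≤ ex lam p),
        ∑ o ∈ Finset.range L, cB lam w x L p o (fil τ e σ)) ≤ 2 * (Nat.factorial 12) ^ 3

/-- One slot. Uses INJ, PTW, SMA, SMB -/
def Stmt_SLT : Prop :=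
  ∀ (S : Type) [DecidableEq S] (lam : ℚ) (w : ℕ → S) (x L : ℕ) (τ : ℕ → ℕ) (K : ℕ → Finset S),
    0 < lam → L ≤ ⌊1 / lam⌋₊ → 1 ≤ L → Good lam w x → pot lam w x < 1 → Num τ L →
    (∀ c < 3, (K c).card = 12) →
    (∀ o < L, ∀ o' < L, τ o ≠ τ o' → Disjoint (K (τ o)) (K (τ o'))) →
    (∀ o < L, ∀ c ∈ K (τ o), ∀ p, o < p → p ≤ ⌊1 / lam⌋₊ → p ≤ x + o → w (x + o - p) ≠ c) →
    (∀ o, o + 1 < L → ∀ p, ex lam p = 2 → p ≤ x + o → w (x + o - p) ∈ K (τ o) →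
      w (x + o + 1 - p) ∉ K (τ (o + 1))) →
    ∃ f : ℕ → S, (∀ o < L, f o ∈ K (τ o)) ∧ Set.InjOn f (Set.Iio L) ∧
      Good lam (ow w x L f) (x + L) ∧ pot lam (ow w x L f) (x + L) < 1

/-- One group of 36 letters. Uses NUM, SLT -/
def Stmt_GRP : Prop :=
  ∀ (S : Type) [DecidableEq S] (lam : ℚ) (w : ℕ → S) (x : ℕ) (τ : ℕ → ℕ) (K : ℕ → Finset S),
    0 < lam → 36 ≤ ⌊1 / lam⌋₊ → Good lam w x → pot lam w x < 1 →
    (τ = pC ∨ τ = pT ∨ τ = pR ∨ τ = pQ) →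
    (∀ c < 3, (K c).card = 12) → (∀ c < 3, ∀ c' < 3, c ≠ c' → Disjoint (K c) (K c')) →
    (∀ o < 36, ∀ c ∈ K (τ o), ∀ p, o < p → p ≤ ⌊1 / lam⌋₊ → p ≤ x + o → w (x + o - p) ≠ c) →
    (∀ o, o + 1 < 36 → ∀ p, ex lam p = 2 → p ≤ x + o → w (x + o - p) ∈ K (τ o) →
      w (x + o + 1 - p) ∉ K (τ (o + 1))) →
    ∃ f : ℕ → S, (∀ o < 36, f o ∈ K (τ o)) ∧ Set.InjOn f (Set.Iio 36) ∧
      Good lam (ow w x 36 f) (x + 36) ∧ pot lam (ow w x 36 f) (x + 36) < 1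

/-! ## B. Rounds -/

/-- all groups of a round. Uses GRP -/
def Stmt_RNA : Prop :=
  ∀ (S : Type) [DecidableEq S] (lam : ℚ) (w : ℕ → S) (x r : ℕ) (A : Finset S) (v : S → ℕ)
    (φ : S → ℕ × ℕ) (pt : ℕ → ℕ),
    0 < lam → 36 ≤ ⌊1 / lam⌋₊ → St lam w x (36 * r) A v → Asg r A φ →
    (pt = pC ∨ pt = pT ∨ pt = pR ∨ pt = pQ) →
    (∀ c ∈ A, ∀ o < 36, pt o = (φ c).2 → v c + ⌊1 / lam⌋₊ < x + 36 * (φ c).1 + o) →
    (∀ c ∈ A, ∀ c' ∈ A, v c' = v c + 1 → (φ c).1 = (φ c').1 → ∀ o, o + 1 < 36 →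
      ¬ (pt o = (φ c).2 ∧ pt (o + 1) = (φ c').2)) →
    ∃ w' : ℕ → S, (∀ i < x, w' i = w i) ∧ Good lam w' (x + 36 * r) ∧
      pot lam w' (x + 36 * r) < 1 ∧
      (∀ i < r, ∀ o < 36, w' (x + 36 * i + o) ∈ A ∧ φ (w' (x + 36 * i + o)) = (i, pt o)) ∧
      Set.InjOn w' (Set.Ico x (x + 36 * r))

/-- the state after a round -/
def Stmt_RNB : Prop :=
  ∀ (S : Type) [DecidableEq S] (lam : ℚ) (w : ℕ → S) (x r : ℕ) (A : Finset S)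
    (φ : S → ℕ × ℕ) (pt : ℕ → ℕ),
    A.card = 36 * r → Good lam w (x + 36 * r) → pot lam w (x + 36 * r) < 1 →
    (∀ i < r, ∀ o < 36, w (x + 36 * i + o) ∈ A ∧ φ (w (x + 36 * i + o)) = (i, pt o)) →
    Set.InjOn w (Set.Ico x (x + 36 * r)) →
    ∃ v, St lam w (x + 36 * r) (36 * r) A v ∧ Fits (x + 36 * r) (36 * r) A v pt φ

/-- the next round, from a state -/
def Stmt_NXT : Prop :=
  ∀ (S : Type) [DecidableEq S] (lam : ℚ) (w : ℕ → S) (x r : ℕ) (A : Finset S) (v : S → ℕ)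
    (φ φ' : S → ℕ × ℕ) (p0 p1 : ℕ → ℕ),
    0 < lam → 36 ≤ ⌊1 / lam⌋₊ → ⌊1 / lam⌋₊ + 48 ≤ 36 * r → A.card = 36 * r →
    St lam w x (36 * r) A v → Fits x (36 * r) A v p0 φ → Asg r A φ → Asg r A φ' →
    ((p0 = pT ∧ p1 = pC) ∨ (p0 = pC ∧ p1 = pT ∧ φ' = φ) ∨ (p0 = pR ∧ p1 = pQ ∧ φ' = φ) ∨
      (p0 = pQ ∧ p1 = pR ∧ φ' = φ)) →
    (φ' = φ ∨ (∃ i < r, φ' = rot i φ) ∨ ∃ a ∈ A, ∃ b ∈ A, (φ a).2 = 2 ∧ (φ b).2 = 2 ∧
      (φ b).1 = (φ a).1 + 1 ∧ φ' = φ ∘ Equiv.swap a b) →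
    ∃ w' : ℕ → S, (∀ i < x, w' i = w i) ∧
      (∀ i < r, ∀ o < 36, w' (x + 36 * i + o) ∈ A ∧ φ' (w' (x + 36 * i + o)) = (i, p1 o)) ∧
      ∃ v', St lam w' (x + 36 * r) (36 * r) A v' ∧ Fits (x + 36 * r) (36 * r) A v' p1 φ'

/-- many rounds. Uses NXT -/
def Stmt_ZON : Prop :=
  ∀ (S : Type) [DecidableEq S] (lam : ℚ) (w : ℕ → S) (x r : ℕ) (A : Finset S) (v : S → ℕ)
    (φ : S → ℕ × ℕ) (p0 p1 : ℕ → ℕ) (k : ℕ),
    0 < lam → 36 ≤ ⌊1 / lam⌋₊ → ⌊1 / lam⌋₊ + 48 ≤ 36 * r → A.card = 36 * r →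
    St lam w x (36 * r) A v → Fits x (36 * r) A v p0 φ → Asg r A φ →
    ((p0 = pT ∧ p1 = pC) ∨ (p0 = pR ∧ p1 = pQ)) →
    ∃ w' : ℕ → S, (∀ i < x, w' i = w i) ∧ Good lam w' (x + 2 * k * (36 * r)) ∧
      ∀ j < 2 * k * (36 * r), w' (x + j) ∈ A ∧
        φ (w' (x + j)) = ((j / 36) % r, if (j / (36 * r)) % 2 = 0 then p1 (j % 36)
          else p0 (j % 36))

/-- the moves generate all distributions -/
def Stmt_SRT : Prop :=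
  ∀ (S : Type) [DecidableEq S] (A : Finset S) (r : ℕ) (Q : (S → ℕ × ℕ) → Prop), 2 ≤ r →
    (∀ φ φ' : S → ℕ × ℕ, (∀ c ∈ A, φ c = φ' c) → Q φ → Q φ') →
    (∀ (φ : S → ℕ × ℕ) (i : ℕ), Asg r A φ → i < r → Q φ → Q (rot i φ)) →
    (∀ (φ : S → ℕ × ℕ) (a b : S), Asg r A φ → a ∈ A → b ∈ A → (φ a).2 = 2 → (φ b).2 = 2 →
      (φ b).1 = (φ a).1 + 1 → Q φ → Q (φ ∘ Equiv.swap a b)) →
    ∀ φ ψ : S → ℕ × ℕ, Asg r A φ → Asg r A ψ → Q φ → Q ψ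

/-- the distribution given by a state is admissible -/
def Stmt_FIT : Prop :=
  ∀ (S : Type) [DecidableEq S] (lam : ℚ) (w : ℕ → S) (x r : ℕ) (A : Finset S) (v : S → ℕ)
    (pt : ℕ → ℕ), A.card = 36 * r → St lam w x (36 * r) A v → (pt = pT ∨ pt = pR) →
    Asg r A (fun c => ((v c + 36 * r - x) / 36, pt ((v c + 36 * r - x) % 36)))

/-- sorting. Uses SRT, NXT, FIT -/
def Stmt_SOR : Prop :=
  ∀ (S : Type) [DecidableEq S] (lam : ℚ) (w : ℕ → S) (x r : ℕ) (A : Finset S) (v : S → ℕ)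
    (ψ : S → ℕ × ℕ), 0 < lam → 36 ≤ ⌊1 / lam⌋₊ → ⌊1 / lam⌋₊ + 48 ≤ 36 * r → A.card = 36 * r →
    St lam w x (36 * r) A v → Asg r A ψ →
    ∃ (w' : ℕ → S) (x' : ℕ) (v' : S → ℕ), x ≤ x' ∧ (∀ i < x, w' i = w i) ∧
      St lam w' x' (36 * r) A v' ∧ Fits x' (36 * r) A v' pT ψ

/-- the initial state -/
def Stmt_INI : Prop :=
  ∀ (S : Type) [DecidableEq S] (lam : ℚ) (w : ℕ → S) (x : ℕ) (A : Finset S),
    A.card ≤ x → Good lam w x → pot lam w x < 1 → ∃ v, St lam w x A.card A v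

/-- the start, after a right extendable word. Uses INI -/
def Stmt_STA : Prop :=
  ∀ (S : Type) [DecidableEq S] [Fintype S] (lam : ℚ) (A : Finset S) (u : List S), 0 < lam →
    ⌊1 / lam⌋₊ + 20 ≤ Fintype.card S → Ext lam u →
    ∃ (w : ℕ → S) (x : ℕ) (v : S → ℕ), u.length ≤ x ∧
      (∀ (i : ℕ) (hi : i < u.length), w i = u[i]) ∧ St lam w x A.card A v

/-- the left side. Uses STA, SOR, ZON -/
def Stmt_LFT : Prop :=
  ∀ (S : Type) [DecidableEq S] [Fintype S] (lam : ℚ) (r : ℕ) (A : Finset S) (u : List S)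
    (ψ : S → ℕ × ℕ), 0 < lam → 36 ≤ ⌊1 / lam⌋₊ → ⌊1 / lam⌋₊ + 20 ≤ Fintype.card S →
    ⌊1 / lam⌋₊ + 48 ≤ 36 * r → A.card = 36 * r → Asg r A ψ → Ext lam u →
    ∃ X : List S, ∀ k : ℕ, ∃ P : List S, P.length = 2 * k * (36 * r) ∧
      Zone r A ψ pC pT P ∧ NB lam (u ++ X ++ P)

/-- the right side (reversed words). Uses STA, FIT, ZON -/
def Stmt_RGT : Prop :=
  ∀ (S : Type) [DecidableEq S] [Fintype S] (lam : ℚ) (r : ℕ) (A : Finset S) (u : List S),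
    0 < lam → 36 ≤ ⌊1 / lam⌋₊ → ⌊1 / lam⌋₊ + 20 ≤ Fintype.card S →
    ⌊1 / lam⌋₊ + 48 ≤ 36 * r → A.card = 36 * r → Ext lam u →
    ∃ (X : List S) (φ : S → ℕ × ℕ), Asg r A φ ∧ ∀ k : ℕ, ∃ P : List S,
      P.length = 2 * k * (36 * r) ∧ Zone r A φ pQ pR P ∧ NB lam (u ++ X ++ P)

/-! ## C. The meeting -/

/-- no common factor of length three; common factors of length one and two are far away -/
def Stmt_TYP : Prop :=
  ∀ (S : Type) [DecidableEq S] (r k q : ℕ) (A : Finset S) (φ ψ : S → ℕ × ℕ) (P R : List S),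
    2 ≤ r → q + 48 ≤ 36 * r → P.length = 2 * k * (36 * r) → R.length = 2 * k * (36 * r) →
    Zone r A ψ pC pT P → Zone r A φ pQ pR R →
    (∀ c ∈ A, ψ c = (r - 1 - (φ c).1, (φ c).2)) → (∀ c ∈ A, (φ c).1 < r) →
    (∀ s t : ℕ, s + 2 < P.length → t + 2 < R.length → ¬ (P[s]? = R.reverse[t]? ∧
      P[s + 1]? = R.reverse[t + 1]? ∧ P[s + 2]? = R.reverse[t + 2]?)) ∧
    (∀ s t : ℕ, s + 1 < P.length → t + 1 < R.length → P.length - s + 1 + t ≤ 2 * q + 1 →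
      ¬ (P[s]? = R.reverse[t]? ∧ P[s + 1]? = R.reverse[t + 1]?)) ∧
    (∀ s t : ℕ, s < P.length → t < R.length → P.length - s + 1 + t ≤ q →
      P[s]? ≠ R.reverse[t]?)

/-- the meeting of the two sides -/
def Stmt_MET : Prop :=
  ∀ (S : Type) [DecidableEq S] (lam : ℚ) (z : S) (X P Y R : List S),
    0 < lam → NB lam (X ++ P) → NB lam (Y ++ R) → P.length = R.length →
    z ∉ P → z ∉ R → ((X.length + Y.length + 3 : ℕ) : ℚ) < lam * P.length →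
    (∀ s t : ℕ, s + 2 < P.length → t + 2 < R.length → ¬ (P[s]? = R.reverse[t]? ∧
      P[s + 1]? = R.reverse[t + 1]? ∧ P[s + 2]? = R.reverse[t + 2]?)) →
    (∀ s t : ℕ, s + 1 < P.length → t + 1 < R.length →
      P.length - s + 1 + t ≤ 2 * ⌊1 / lam⌋₊ + 1 →
      ¬ (P[s]? = R.reverse[t]? ∧ P[s + 1]? = R.reverse[t + 1]?)) →
    (∀ s t : ℕ, s < P.length → t < R.length → P.length - s + 1 + t ≤ ⌊1 / lam⌋₊ →
      P[s]? ≠ R.reverse[t]?) →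
    NB lam (X ++ P ++ [z] ++ (Y ++ R).reverse)

/-- the transition property. Uses LFT, RGT, TYP, MET -/
def Stmt_TRA : Prop :=
  ∀ (S : Type) [DecidableEq S] [Fintype S] (lam : ℚ) (u v : List S), 0 < lam →
    36 ≤ ⌊1 / lam⌋₊ → ⌊1 / lam⌋₊ + 84 ≤ Fintype.card S → Ext lam u → Ext lam v.reverse →
    ∃ w : List S, NB lam (u ++ w ++ v)

end TRP
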